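import Pool.Agent.R435.HT.Defs

open MeasureTheory Set Filter Topology
open scoped ContDiff ENNReal

namespace Pool.Agent.R435.HT

namespace BND

theorem coord_le {x : E} {t : ℝ} (ht : 0 < t) (h : t • x ∈ hartogs) (i : Fin 4) :
    |x i| ≤ Real.sqrt (rho2 x) := by
  apply Real.abs_le_sqrt
  have h1 : (t * x 0) ^ 2 + (t * x 1) ^ 2 < (t * x 2) ^ 2 + (t * x 3) ^ 2 := h.1
  have h2 : x 0 ^ 2 + x 1 ^ 2 < x 2 ^ 2 + x 3 ^ 2 := by
    have h3 : t ^ 2 * (x 0 ^ 2 + x 1 ^ 2) < t ^ 2 * (x 2 ^ 2 + x 3 ^ 2) := by linarith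
    exact lt_of_mul_lt_mul_left h3 (by positivity)
  unfold rho2
  fin_cases i <;> simp <;> nlinarith [sq_nonneg (x 0), sq_nonneg (x 1), sq_nonneg (x 2), sq_nonneg (x 3)]

theorem term_le {f : E → ℂ} (hz : ∀ y, y ∉ hartogs → f y = 0) (x : E) (i : Fin 4) {t : ℝ}
    (ht : 1 < t) : ‖(x i : ℂ) * f (t • x)‖ₑ ≤ ENNReal.ofReal (Real.sqrt (rho2 x)) * ‖f (t • x)‖ₑ := by
  by_cases h : t • x ∈ hartogs
  · rw [enorm_mul]
    gcongr
    rw [← ofReal_norm]
    apply ENNReal.ofReal_le_ofReal
    rw [Complex.norm_real]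
    exact coord_le (by linarith) h i
  · rw [hz _ h]
    simp

theorem meas_uncurry {f : E → ℂ} (hf : Measurable f) (i : Fin 4) :
    Measurable (fun p : E × ℝ => (p.1 i : ℂ) * f (p.2 • p.1)) := by
  apply Measurable.mul
  · exact Complex.measurable_ofReal.comp ((measurable_pi_apply i).comp measurable_fst)
  · exact hf.comp (measurable_snd.smul measurable_fst)

end BND

open BND in
theorem pBND : S_BND := by
  intro f g hn
  have hE : ∀ (h : E → ℂ) (x : E), Measurable h → Measurable (fun t : ℝ => ENNReal.ofReal t * ‖h (t • x)‖ₑ) := by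
    intro h x hh
    exact ENNReal.measurable_ofReal.mul (hh.comp (by fun_prop)).enorm
  refine ⟨?_, ?_, ?_, ?_⟩
  · have h1 : StronglyMeasurable (Function.uncurry fun (x : E) (t : ℝ) => ∑ i, (x i : ℂ) * f i (t • x)) := by
      apply Measurable.stronglyMeasurable
      exact Finset.measurable_sum _ fun i _ => meas_uncurry (hn.mf i) i
    exact (h1.integral_prod_right (ν := volume.restrict (Ioi (1 : ℝ)))).measurable.neg
  · intro j
    have h1 : StronglyMeasurable (Function.uncurry fun (x : E) (t : ℝ) =>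
        (t : ℂ) * ∑ i, (x i : ℂ) * g i j (t • x)) := by
      apply Measurable.stronglyMeasurable
      apply Measurable.mul
      · exact Complex.measurable_ofReal.comp measurable_snd
      · exact Finset.measurable_sum _ fun i _ => meas_uncurry (hn.mg i j) i
    exact (h1.integral_prod_right (ν := volume.restrict (Ioi (1 : ℝ)))).measurable.neg
  · intro x
    unfold uu
    rw [enorm_neg]
    refine (enorm_integral_le_lintegral_enorm _).trans ?_
    unfold NN
    rw [Finset.mul_sum]
    rw [Finset.sum_congr rfl (g := fun i => ∫⁻ t in Ioi (1 : ℝ),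
      ENNReal.ofReal (Real.sqrt (rho2 x)) * (ENNReal.ofReal t * ‖f i (t • x)‖ₑ)) (fun i _ => by
        rw [lintegral_const_mul _ (hE (f i) x (hn.mf i))])]
    rw [← lintegral_finsetSum _ (fun i _ => (hE (f i) x (hn.mf i)).const_mul _)]
    apply setLIntegral_mono' measurableSet_Ioi
    intro t ht
    have ht' : (1 : ℝ) < t := ht
    refine (enorm_sum_le _ _).trans ?_
    apply Finset.sum_le_sum
    intro i _
    refine (term_le (hn.zf i) x i ht').trans ?_
    gcongr
    rw [← one_mul ‖f i (t • x)‖ₑ, ← mul_assoc, mul_one]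
    gcongr
    rw [ENNReal.one_le_ofReal]
    exact ht'.le
  · intro j x
    unfold KK
    rw [enorm_neg]
    refine (enorm_integral_le_lintegral_enorm _).trans ?_
    unfold NN
    rw [Finset.mul_sum]
    rw [Finset.sum_congr rfl (g := fun i => ∫⁻ t in Ioi (1 : ℝ),
      ENNReal.ofReal (Real.sqrt (rho2 x)) * (ENNReal.ofReal t * ‖g i j (t • x)‖ₑ)) (fun i _ => by
        rw [lintegral_const_mul _ (hE (g i j) x (hn.mg i j))])]
    rw [← lintegral_finsetSum _ (fun i _ => (hE (g i j) x (hn.mg i j)).const_mul _)]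
    apply setLIntegral_mono' measurableSet_Ioi
    intro t ht
    have ht' : (1 : ℝ) < t := ht
    rw [enorm_mul]
    have h1 : ‖∑ i, (x i : ℂ) * g i j (t • x)‖ₑ ≤
        ∑ i, ENNReal.ofReal (Real.sqrt (rho2 x)) * ‖g i j (t • x)‖ₑ :=
      (enorm_sum_le _ _).trans (Finset.sum_le_sum fun i _ => term_le (hn.zg i j) x i ht')
    have h2 : ‖(t : ℂ)‖ₑ = ENNReal.ofReal t := by
      rw [← ofReal_norm, Complex.norm_real, Real.norm_eq_abs, abs_of_pos (by linarith)]
    rw [h2]
    calc ENNReal.ofReal t * ‖∑ i, (x i : ℂ) * g i j (t • x)‖ₑ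
        ≤ ENNReal.ofReal t * ∑ i, ENNReal.ofReal (Real.sqrt (rho2 x)) * ‖g i j (t • x)‖ₑ := by gcongr
      _ = ∑ i, ENNReal.ofReal (Real.sqrt (rho2 x)) * (ENNReal.ofReal t * ‖g i j (t • x)‖ₑ) := by
          rw [Finset.mul_sum]
          refine Finset.sum_congr rfl fun i _ => ?_
          ring

theorem pLOC : S_LOC := by
  intro h hh
  unfold NN
  have hmeas : Measurable (Function.uncurry fun (x : E) (t : ℝ) => ENNReal.ofReal t * h (t • x)) := by
    apply Measurable.mul
    · exact ENNReal.measurable_ofReal.comp measurable_snd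
    · exact hh.comp (measurable_snd.smul measurable_fst)
  rw [lintegral_lintegral_swap hmeas.aemeasurable]
  have hin : ∀ t ∈ Ioi (1 : ℝ), ∫⁻ x : E, ENNReal.ofReal t * h (t • x) =
      ENNReal.ofReal (t ^ (-3 : ℝ)) * ∫⁻ x, h x := by
    intro t ht
    have ht' : (1 : ℝ) < t := ht
    have ht0 : (0 : ℝ) < t := by linarith
    have hm : Measurable (fun x : E => h (t • x)) := hh.comp (by fun_prop)
    rw [lintegral_const_mul _ hm]
    have h1 := Measure.map_addHaar_smul (volume : Measure E) ht0.ne'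
    have h2 : ∫⁻ x : E, h (t • x) = ∫⁻ x, h x ∂(Measure.map (fun x : E => t • x) volume) :=
      (lintegral_map hh (by fun_prop)).symm
    rw [h2, h1, lintegral_smul_measure, smul_eq_mul, ← mul_assoc,
      ← ENNReal.ofReal_mul ht0.le]
    congr 2
    have hd : Module.finrank ℝ E = 4 := by simp [E]
    rw [hd, abs_of_pos (by positivity), show (-3 : ℝ) = -((3 : ℕ) : ℝ) by norm_num,
      Real.rpow_neg ht0.le, Real.rpow_natCast]
    field_simp
  rw [setLIntegral_congr_fun measurableSet_Ioi hin, lintegral_mul_const _ (by fun_prop)]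
  have h3 : ∫⁻ t in Ioi (1 : ℝ), ENNReal.ofReal (t ^ (-3 : ℝ)) = ENNReal.ofReal (1 / 2) := by
    rw [← ofReal_integral_eq_lintegral_ofReal (integrableOn_Ioi_rpow_of_lt (by norm_num) one_pos)
      ((ae_restrict_iff' measurableSet_Ioi).2 (Eventually.of_forall fun t ht => by
        have : (0 : ℝ) < t := lt_trans one_pos ht
        positivity))]
    rw [integral_Ioi_rpow_of_lt (by norm_num) one_pos]
    norm_num
  rw [h3]
  calc ENNReal.ofReal (1 / 2) * ∫⁻ x, h x ≤ 1 * ∫⁻ x, h x := by
        gcongr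
        rw [ENNReal.ofReal_le_one]
        norm_num
    _ = ∫⁻ x, h x := one_mul _

end Pool.Agent.R435.HT
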