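import Pool.Agent.R435.HT.Defs

open MeasureTheory Set Filter Topology
open scoped ContDiff ENNReal

namespace Pool.Agent.R435.HT

/-- complexified partial derivative of a real function is smooth -/
lemma contDiff_pd {F : Type} [NormedAddCommGroup F] [NormedSpace ℝ F] {φ : E → F}
    (h : ContDiff ℝ ∞ φ) (i : Fin 4) : ContDiff ℝ ∞ (pd i φ) := by
  have h1 : ContDiff ℝ ∞ (fderiv ℝ φ) := h.fderiv_right (by norm_num)
  exact h1.clm_apply contDiff_const

lemma hcs_pd {F : Type} [NormedAddCommGroup F] [NormedSpace ℝ F] {φ : E → F}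
    (h : HasCompactSupport φ) (i : Fin 4) : HasCompactSupport (pd i φ) := by
  exact (h.fderiv_apply (𝕜 := ℝ) (Pi.single i 1))

lemma tsupport_pd_subset {F : Type} [NormedAddCommGroup F] [NormedSpace ℝ F] {φ : E → F}
    (i : Fin 4) : tsupport (pd i φ) ⊆ tsupport φ := by
  refine closure_minimal ?_ (isClosed_tsupport φ)
  intro x hx
  by_contra hn
  apply hx
  have h0 : φ =ᶠ[𝓝 x] 0 := notMem_tsupport_iff_eventuallyEq.mp hn
  have : fderiv ℝ φ x = fderiv ℝ (0 : E → F) x := h0.fderiv_eq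
  simp only [pd, this]
  simp

lemma pd_mul {a b : E → ℝ} (ha : ContDiff ℝ ∞ a) (hb : ContDiff ℝ ∞ b) (i : Fin 4) (x : E) :
    pd i (fun y => a y * b y) x = a x * pd i b x + b x * pd i a x := by
  have h1 : DifferentiableAt ℝ a x := (ha.differentiable (by simp)).differentiableAt
  have h2 : DifferentiableAt ℝ b x := (hb.differentiable (by simp)).differentiableAt
  simp only [pd]
  rw [fderiv_fun_mul h1 h2]
  simp

lemma pd_comm {a : E → ℝ} (ha : ContDiff ℝ ∞ a) (i j : Fin 4) (x : E) :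
    pd i (pd j a) x = pd j (pd i a) x := by
  have hs : IsSymmSndFDerivAt ℝ a x := by
    apply ContDiffAt.isSymmSndFDerivAt (n := ∞) ha.contDiffAt
    simp only [minSmoothness_of_isRCLikeNormedField]
    have h : ((2 : ℕ∞) : WithTop ℕ∞) ≤ ((⊤ : ℕ∞) : WithTop ℕ∞) := WithTop.coe_le_coe.2 le_top
    exact h
  have hd : DifferentiableAt ℝ (fderiv ℝ a) x :=
    ((ha.fderiv_right (m := ∞) (by norm_num)).differentiable (by simp)).differentiableAt
  have h1 : ∀ k l : Fin 4, pd k (pd l a) x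
      = fderiv ℝ (fderiv ℝ a) x (Pi.single k 1) (Pi.single l 1) := by
    intro k l
    have : pd l a = fun y => (fderiv ℝ a y) (Pi.single l 1) := rfl
    rw [pd, this, fderiv_clm_apply hd (differentiableAt_const _)]
    simp
  rw [h1, h1]
  exact hs.eq _ _

/-- the functional `a ↦ ∫ a h` -/
noncomputable def T (h : E → ℂ) (a : E → ℝ) : ℂ := ∫ x, (a x : ℂ) * h x

lemma integrable_mul_of {h : E → ℂ} (hh : Integrable h) {a : E → ℝ} (ha : Continuous a)
    (hc : HasCompactSupport a) : Integrable (fun x => (a x : ℂ) * h x) := by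
  obtain ⟨C, hC⟩ := ha.bounded_above_of_compact_support hc
  refine hh.bdd_mul (c := C) ?_ ?_
  · exact (Complex.continuous_ofReal.comp ha).aestronglyMeasurable
  · filter_upwards with x
    simpa using hC x

lemma T_add {h : E → ℂ} (hh : Integrable h) {a b : E → ℝ} (ha : Continuous a)
    (hca : HasCompactSupport a) (hb : Continuous b) (hcb : HasCompactSupport b) :
    T h (fun x => a x + b x) = T h a + T h b := by
  simp only [T]
  rw [← integral_add (integrable_mul_of hh ha hca) (integrable_mul_of hh hb hcb)]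
  congr 1; ext x; push_cast; ring

lemma eLp2 {F : Type} [NormedAddCommGroup F] (h : E → F) (μ : Measure E) :
    eLpNorm h 2 μ = (∫⁻ x, ‖h x‖ₑ ^ 2 ∂μ) ^ (1 / 2 : ℝ) := by
  rw [eLpNorm_eq_lintegral_rpow_enorm_toReal (by simp) (by simp)]
  simp

lemma eLp2_le {F : Type} [NormedAddCommGroup F] {h : E → F} {μ : Measure E} {ε : ℝ} (hε : 0 ≤ ε)
    (hle : ∫⁻ x, ‖h x‖ₑ ^ 2 ∂μ ≤ ENNReal.ofReal (ε ^ 2)) :
    eLpNorm h 2 μ ≤ ENNReal.ofReal ε := by
  rw [eLp2]
  calc (∫⁻ x, ‖h x‖ₑ ^ 2 ∂μ) ^ (1 / 2 : ℝ) ≤ (ENNReal.ofReal (ε ^ 2)) ^ (1 / 2 : ℝ) :=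
        ENNReal.rpow_le_rpow hle (by norm_num)
    _ = ENNReal.ofReal ε := by
        rw [ENNReal.ofReal_pow hε, ← ENNReal.rpow_natCast, ← ENNReal.rpow_mul]
        norm_num

lemma lintegral_sq_lt_top {F : Type} [NormedAddCommGroup F] {h : E → F} {μ : Measure E}
    (hh : MemLp h 2 μ) : ∫⁻ x, ‖h x‖ₑ ^ 2 ∂μ < ⊤ := by
  have h1 := hh.2
  rw [eLp2] at h1
  by_contra hn
  push Not at hn
  rw [top_le_iff.mp hn] at h1
  simp at h1

end Pool.Agent.R435.HT
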