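import Pool.Agent.R435.HT.Defs

/-!
# HT-CUT: logarithmic cut off functions (helper699)
-/

set_option autoImplicit false

open MeasureTheory Set Filter Topology
open scoped ContDiff ENNReal

namespace Pool.Agent.R435.HT

namespace CutP

/-- the derivative of the smooth transition is bounded -/
theorem theta_bound : ∃ C : ℝ, 0 < C ∧ ∀ t, |deriv Real.smoothTransition t| ≤ C := by
  have hc : Continuous (deriv Real.smoothTransition) :=
    (Real.smoothTransition.contDiff (n := 1)).continuous_deriv le_rfl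
  obtain ⟨C, hC⟩ := (isCompact_Icc (a := (0 : ℝ)) (b := 1)).exists_bound_of_continuousOn hc.continuousOn
  refine ⟨|C| + 1, by positivity, fun t => ?_⟩
  have h0 : (0 : ℝ) ≤ |C| + 1 := by positivity
  rcases lt_or_ge t 0 with ht | ht
  · have : Real.smoothTransition =ᶠ[𝓝 t] fun _ => 0 := by
      filter_upwards [Iio_mem_nhds ht] with s hs
      exact Real.smoothTransition.zero_of_nonpos (le_of_lt hs)
    rw [this.deriv_eq, deriv_const, abs_zero]
    exact h0
  · rcases lt_or_ge 1 t with ht1 | ht1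
    · have : Real.smoothTransition =ᶠ[𝓝 t] fun _ => 1 := by
        filter_upwards [Ioi_mem_nhds ht1] with s hs
        exact Real.smoothTransition.one_of_one_le (le_of_lt hs)
      rw [this.deriv_eq, deriv_const, abs_zero]
      exact h0
    · have h1 := hC t ⟨ht, ht1⟩
      rw [Real.norm_eq_abs] at h1
      have := le_abs_self C
      linarith

/-- the inner function -/
noncomputable def hh (S L r : ℝ) : ℝ := (Real.log S + L - Real.log (-(1 / 2) * Real.log r)) / L

theorem sg_pos {r : ℝ} (h0 : 0 < r) (h1 : r < 1) : 0 < -(1 / 2) * Real.log r := by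
  have := Real.log_neg h0 h1
  linarith

theorem hh_nonpos {S L r : ℝ} (hS : 1 ≤ S) (hL : 1 ≤ L) (h0 : 0 < r) (h1 : r < 1)
    (hr : r ≤ Real.exp (-2 * (S * Real.exp L))) : hh S L r ≤ 0 := by
  unfold hh
  apply div_nonpos_of_nonpos_of_nonneg _ (by linarith)
  have h2 : Real.log r ≤ -2 * (S * Real.exp L) := by
    have := Real.log_le_log h0 hr
    rwa [Real.log_exp] at this
  have h3 : S * Real.exp L ≤ -(1 / 2) * Real.log r := by linarith
  have h4 := Real.log_le_log (by positivity) h3
  rw [Real.log_mul (by linarith) (Real.exp_ne_zero _), Real.log_exp] at h4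
  linarith

theorem one_le_hh {S L r : ℝ} (hS : 1 ≤ S) (hL : 1 ≤ L) (h0 : 0 < r) (h1 : r < 1)
    (hr : Real.exp (-2 * S) ≤ r) : 1 ≤ hh S L r := by
  unfold hh
  rw [le_div_iff₀ (by linarith), one_mul]
  have h2 : -2 * S ≤ Real.log r := by
    have := Real.log_le_log (Real.exp_pos _) hr
    rwa [Real.log_exp] at this
  have h3 : -(1 / 2) * Real.log r ≤ S := by linarith
  have h4 := Real.log_le_log (sg_pos h0 h1) h3
  linarith

theorem hh_deriv {S L r : ℝ} (hL : 1 ≤ L) (h0 : 0 < r) (h1 : r < 1) :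
    HasDerivAt (hh S L) (1 / (2 * L * (-(1 / 2) * Real.log r) * r)) r := by
  have hs := sg_pos h0 h1
  have d1 : HasDerivAt (fun r => -(1 / 2) * Real.log r) (-(1 / 2) * r⁻¹) r :=
    (Real.hasDerivAt_log h0.ne').const_mul _
  have d2 := d1.log hs.ne'
  have d3 := ((d2.const_sub (Real.log S + L)).div_const L)
  have e : -(-(1 / 2) * r⁻¹ / (-(1 / 2) * Real.log r)) / L =
      1 / (2 * L * (-(1 / 2) * Real.log r) * r) := by
    have hl : Real.log r ≠ 0 := by
      intro h
      rw [h] at hs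
      simp at hs
    have hr : r ≠ 0 := h0.ne'
    have hL' : L ≠ 0 := by linarith
    field_simp
  rw [← e]
  exact d3

theorem hh_contDiffAt {S L r : ℝ} (h0 : 0 < r) (h1 : r < 1) :
    ContDiffAt ℝ ∞ (hh S L) r := by
  unfold hh
  have hs := sg_pos h0 h1
  have d1 : ContDiffAt ℝ ∞ (fun r : ℝ => -(1 / 2) * Real.log r) r :=
    contDiffAt_const.mul (Real.contDiffAt_log.2 h0.ne')
  have d2 : ContDiffAt ℝ ∞ (fun r : ℝ => Real.log (-(1 / 2) * Real.log r)) r := d1.log hs.ne'
  exact (contDiffAt_const.sub d2).div_const L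

open Classical in
/-- the cut off function of one variable -/
noncomputable def psi (S L r : ℝ) : ℝ :=
  if r ≤ Real.exp (-2 * (S * Real.exp L)) then 0
  else if Real.exp (-2 * S) ≤ r then 1 else Real.smoothTransition (hh S L r)

theorem r0_lt_r1 {S L : ℝ} (hS : 1 ≤ S) (hL : 1 ≤ L) :
    Real.exp (-2 * (S * Real.exp L)) < Real.exp (-2 * S) := by
  apply Real.exp_lt_exp.2
  have h1 : 1 < Real.exp L := Real.one_lt_exp_iff.2 (by linarith)
  nlinarith

theorem r1_lt {S : ℝ} (hS : 1 ≤ S) : Real.exp (-2 * S) < 1 := by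
  rw [Real.exp_lt_one_iff]
  linarith

theorem psi_eq {S L r : ℝ} (hS : 1 ≤ S) (hL : 1 ≤ L) (h0 : 0 < r) (h1 : r < 1) :
    psi S L r = Real.smoothTransition (hh S L r) := by
  unfold psi
  split_ifs with h2 h3
  · rw [Real.smoothTransition.zero_of_nonpos (hh_nonpos hS hL h0 h1 h2)]
  · rw [Real.smoothTransition.one_of_one_le (one_le_hh hS hL h0 h1 h3)]
  · rfl

theorem psi_zero {S L r : ℝ} (hr : r ≤ Real.exp (-2 * (S * Real.exp L))) : psi S L r = 0 := by
  unfold psi
  rw [if_pos hr]

theorem psi_one {S L r : ℝ} (hS : 1 ≤ S) (hL : 1 ≤ L) (hr : Real.exp (-2 * S) ≤ r) :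
    psi S L r = 1 := by
  unfold psi
  rw [if_neg (not_le.2 ((r0_lt_r1 hS hL).trans_le hr)), if_pos hr]

theorem psi_nonneg (S L r : ℝ) : 0 ≤ psi S L r := by
  unfold psi
  split_ifs
  · exact le_rfl
  · exact zero_le_one
  · exact Real.smoothTransition.nonneg _

theorem psi_le_one (S L r : ℝ) : psi S L r ≤ 1 := by
  unfold psi
  split_ifs
  · exact zero_le_one
  · exact le_rfl
  · exact Real.smoothTransition.le_one _

theorem psi_contDiff {S L : ℝ} (hS : 1 ≤ S) (hL : 1 ≤ L) : ContDiff ℝ ∞ (psi S L) := by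
  rw [contDiff_iff_contDiffAt]
  intro r
  by_cases hr0 : r < Real.exp (-2 * (S * Real.exp L))
  · have : psi S L =ᶠ[𝓝 r] fun _ => 0 := by
      filter_upwards [Iio_mem_nhds hr0] with s hs
      exact psi_zero (le_of_lt hs)
    exact contDiffAt_const.congr_of_eventuallyEq this
  · rw [not_lt] at hr0
    have h0 : 0 < r := (Real.exp_pos _).trans_le hr0
    by_cases h1 : r < 1
    · have : psi S L =ᶠ[𝓝 r] fun s => Real.smoothTransition (hh S L s) := by
        filter_upwards [Ioo_mem_nhds h0 h1] with s hs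
        exact psi_eq hS hL hs.1 hs.2
      exact ((Real.smoothTransition.contDiffAt).comp r (hh_contDiffAt h0 h1)).congr_of_eventuallyEq this
    · rw [not_lt] at h1
      have : psi S L =ᶠ[𝓝 r] fun _ => 1 := by
        filter_upwards [Ioi_mem_nhds ((r1_lt hS).trans_le h1)] with s hs
        exact psi_one hS hL (le_of_lt hs)
      exact contDiffAt_const.congr_of_eventuallyEq this

theorem psi_deriv_zero {S L r : ℝ} (hS : 1 ≤ S) (hL : 1 ≤ L)
    (hr : r ≤ Real.exp (-2 * (S * Real.exp L)) ∨ Real.exp (-2 * S) ≤ r) : deriv (psi S L) r = 0 := by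
  rcases hr with hr | hr
  · apply IsLocalMin.deriv_eq_zero
    apply Filter.Eventually.of_forall
    intro s
    rw [psi_zero hr]
    exact psi_nonneg S L s
  · apply IsLocalMax.deriv_eq_zero
    apply Filter.Eventually.of_forall
    intro s
    rw [psi_one hS hL hr]
    exact psi_le_one S L s

theorem psi_deriv_bound {S L r C : ℝ} (hS : 1 ≤ S) (hL : 1 ≤ L) (h0 : 0 < r) (h1 : r < 1)
    (hC : ∀ t, |deriv Real.smoothTransition t| ≤ C) :
    |deriv (psi S L) r| ≤ C * (1 / (2 * L * (-(1 / 2) * Real.log r) * r)) := by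
  have hs := sg_pos h0 h1
  have h2 : psi S L =ᶠ[𝓝 r] fun s => Real.smoothTransition (hh S L s) := by
    filter_upwards [Ioo_mem_nhds h0 h1] with s hs
    exact psi_eq hS hL hs.1 hs.2
  have hd : DifferentiableAt ℝ Real.smoothTransition (hh S L r) :=
    (Real.smoothTransition.contDiff (n := 1)).differentiable (by norm_num) _
  have h3 : HasDerivAt (fun s => Real.smoothTransition (hh S L s))
      (deriv Real.smoothTransition (hh S L r) * (1 / (2 * L * (-(1 / 2) * Real.log r) * r))) r :=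
    hd.hasDerivAt.comp r (hh_deriv hL h0 h1)
  have hpos : 0 ≤ 1 / (2 * L * (-(1 / 2) * Real.log r) * r) := by positivity
  rw [h2.deriv_eq, h3.deriv, abs_mul, abs_of_nonneg hpos]
  exact mul_le_mul_of_nonneg_right (hC _) hpos

theorem rho2_hasFDerivAt (x : E) :
    HasFDerivAt rho2 ((2 * x 2) • (ContinuousLinearMap.proj (R := ℝ) (φ := fun _ : Fin 4 => ℝ) 2) +
      (2 * x 3) • (ContinuousLinearMap.proj (R := ℝ) (φ := fun _ : Fin 4 => ℝ) 3)) x := by
  have h2 : HasFDerivAt (fun x : E => x 2) (ContinuousLinearMap.proj (R := ℝ) (φ := fun _ : Fin 4 => ℝ) 2) x :=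
    hasFDerivAt_apply 2 x
  have h3 : HasFDerivAt (fun x : E => x 3) (ContinuousLinearMap.proj (R := ℝ) (φ := fun _ : Fin 4 => ℝ) 3) x :=
    hasFDerivAt_apply 3 x
  have h := (h2.pow 2).add (h3.pow 2)
  refine HasFDerivAt.congr_fderiv h ?_
  norm_num

theorem rho2_contDiff : ContDiff ℝ ∞ rho2 := by
  unfold rho2
  fun_prop

end CutP

open CutP in
theorem pCUT : S_CUT := by
  obtain ⟨C, hC0, hC⟩ := theta_bound
  refine ⟨C, hC0, fun S L hS hL => ⟨fun x => psi S L (rho2 x), ?_, ?_, ?_, ?_, ?_, ?_⟩⟩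
  · exact (psi_contDiff hS hL).comp rho2_contDiff
  · exact fun x => ⟨psi_nonneg _ _ _, psi_le_one _ _ _⟩
  · exact fun x hx => psi_one hS hL hx
  · exact fun x hx => psi_zero hx
  all_goals
    have hpd : ∀ (i : Fin 4) (x : E), pd i (fun x => psi S L (rho2 x)) x =
        deriv (psi S L) (rho2 x) * (2 * x 2 * (Pi.single i 1 : Fin 4 → ℝ) 2 +
          2 * x 3 * (Pi.single i 1 : Fin 4 → ℝ) 3) := by
      intro i x
      have hd : DifferentiableAt ℝ (psi S L) (rho2 x) :=
        (psi_contDiff hS hL).differentiable (by simp) _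
      have h1 := hd.hasDerivAt.comp_hasFDerivAt x (rho2_hasFDerivAt x)
      unfold pd
      have h2 : fderiv ℝ (fun x => psi S L (rho2 x)) x = _ := h1.fderiv
      rw [h2]
      simp
      ring
  · intro i x hx
    rw [hpd, psi_deriv_zero hS hL hx, zero_mul]
  · intro i x hx
    obtain ⟨hx1, hx2⟩ := hx
    have h0 : 0 < rho2 x := (Real.exp_pos _).trans hx1
    have h1 : rho2 x < 1 := hx2.trans (r1_lt hS)
    have hs : 0 < sig x := sg_pos h0 h1
    have hb := psi_deriv_bound hS hL h0 h1 hC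
    have hsq : 0 < Real.sqrt (rho2 x) := Real.sqrt_pos.2 h0
    have hss : Real.sqrt (rho2 x) * Real.sqrt (rho2 x) = rho2 x := Real.mul_self_sqrt h0.le
    have hfac : |2 * x 2 * (Pi.single i 1 : Fin 4 → ℝ) 2 + 2 * x 3 * (Pi.single i 1 : Fin 4 → ℝ) 3| ≤
        2 * Real.sqrt (rho2 x) := by
      have e2 : |x 2| ≤ Real.sqrt (rho2 x) := by
        apply Real.abs_le_sqrt
        unfold rho2
        nlinarith [sq_nonneg (x 3)]
      have e3 : |x 3| ≤ Real.sqrt (rho2 x) := by
        apply Real.abs_le_sqrt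
        unfold rho2
        nlinarith [sq_nonneg (x 2)]
      fin_cases i
      · simp
      · simp
      · simp only [Fin.reduceFinMk, Pi.single_eq_same, mul_one]
        rw [Pi.single_eq_of_ne (by decide), mul_zero, add_zero, abs_mul, abs_two]
        linarith
      · simp only [Fin.reduceFinMk, Pi.single_eq_same, mul_one]
        rw [Pi.single_eq_of_ne (by decide), mul_zero, zero_add, abs_mul, abs_two]
        linarith
    rw [hpd, abs_mul]
    calc |deriv (psi S L) (rho2 x)| * |2 * x 2 * (Pi.single i 1 : Fin 4 → ℝ) 2 +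
          2 * x 3 * (Pi.single i 1 : Fin 4 → ℝ) 3|
        ≤ (C * (1 / (2 * L * sig x * rho2 x))) * (2 * Real.sqrt (rho2 x)) :=
          mul_le_mul hb hfac (abs_nonneg _) (by positivity)
      _ = C / (L * sig x * Real.sqrt (rho2 x)) := by
          nth_rewrite 1 [← hss]
          field_simp

end Pool.Agent.R435.HT
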