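import Pool.Agent.R435.HT.Defs

/-!
# Project HT (MP_f65596_an), piece DALL: `S_DALL` from `S_NZ` and `S_REGD`.
-/

open MeasureTheory Set Filter Topology
open scoped ContDiff ENNReal

namespace Pool.Agent.R435.HT

private lemma measurable_pd {F : E → ℂ} (hF : ContDiff ℝ ∞ F) (i : Fin 4) :
    Measurable (fun x => pd i F x) := by
  have h1 : Continuous (fderiv ℝ F) := hF.continuous_fderiv (by simp)
  exact (h1.clm_apply continuous_const).measurable

theorem pDALL (hN : S_NZ) (hR : S_REGD) : S_DALL := by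
  intro f g hfg hW ε hε
  set U : Set E := {x | 0 < rho2 x} with hU
  have hcont : Continuous rho2 := by unfold rho2; fun_prop
  have hUo : IsOpen U := isOpen_lt continuous_const hcont
  have hUc : ∀ x ∈ U, ∀ t : ℝ, 0 < t → t • x ∈ U := by
    intro x hx t ht
    have h1 : rho2 (t • x) = t ^ 2 * rho2 x := by
      simp only [rho2, Pi.smul_apply, smul_eq_mul]; ring
    show 0 < rho2 (t • x)
    rw [h1]
    exact mul_pos (by positivity) hx
  have hWU : WeakCurl U f g := fun i j φ h1 h2 _ => hW i j φ h1 h2 (subset_univ _)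
  obtain ⟨r, hr, f', g', hfg', hzf, hzg, hcf, hcg, hw⟩ :=
    hN U hUo hUc (fun x hx => hx) f g hfg hWU (ε / 2) (by positivity)
  have hW' : WeakCurl univ f' g' := fun i j φ h1 h2 _ =>
    hw i j φ h1 h2 (fun x hx => lt_of_lt_of_le hr hx.2)
  obtain ⟨F, hF1, hF2, hF3, hF4, hF5⟩ := hR f' g' hfg' hW' r hr hzf hzg (ε / 2) (by positivity)
  have hadd : ENNReal.ofReal (ε / 2) + ENNReal.ofReal (ε / 2) = ENNReal.ofReal ε := by
    rw [← ENNReal.ofReal_add (by positivity) (by positivity)]
    congr 1; ring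
  refine ⟨F, hF1, hF2, hF3, fun i => ?_, fun i j => ?_⟩
  · have h1 : F i - f i = (F i - f' i) + (f' i - f i) := by
      rw [sub_add_sub_cancel]
    rw [h1, ← hadd]
    refine (eLpNorm_add_le ?_ ?_ (by norm_num)).trans (add_le_add (hF4 i) (hcf i))
    · exact ((hF1 i).continuous.measurable.sub (hfg'.mf i)).aestronglyMeasurable
    · exact ((hfg'.mf i).sub (hfg.mf i)).aestronglyMeasurable
  · have h1 : (fun x => pd i (F j) x - pd j (F i) x - g i j x) =
        (fun x => pd i (F j) x - pd j (F i) x - g' i j x) + (g' i j - g i j) := by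
      funext x
      simp only [Pi.add_apply, Pi.sub_apply]
      ring
    rw [h1, ← hadd]
    refine (eLpNorm_add_le ?_ ?_ (by norm_num)).trans (add_le_add (hF5 i j) (hcg i j))
    · exact (((measurable_pd (hF1 j) i).sub (measurable_pd (hF1 i) j)).sub
        (hfg'.mg i j)).aestronglyMeasurable
    · exact ((hfg'.mg i j).sub (hfg.mg i j)).aestronglyMeasurable

end Pool.Agent.R435.HT
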