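import Pool.Agent.R435.HT.Defs

open MeasureTheory Set Filter Topology
open scoped ContDiff ENNReal InnerProductSpace ComplexConjugate

namespace Pool.Agent.R435.HT

namespace DualAux

variable {ι : Type} [Fintype ι] {μ : Measure E}

/-- the family as an element of the Hilbert space -/
noncomputable def T (F : ι → E → ℂ) (hF : ∀ i, MemLp (F i) 2 μ) :
    PiLp 2 (fun _ : ι => Lp ℂ 2 μ) := WithLp.toLp 2 (fun i => (hF i).toLp (F i))

theorem T_apply (F : ι → E → ℂ) (hF : ∀ i, MemLp (F i) 2 μ) (i : ι) :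
    (T F hF) i = (hF i).toLp (F i) := rfl

theorem inner_T (w : PiLp 2 (fun _ : ι => Lp ℂ 2 μ)) (F : ι → E → ℂ)
    (hF : ∀ i, MemLp (F i) 2 μ) :
    ⟪w, T F hF⟫_ℂ = ∑ i, ∫ x, conj (w i x) * F i x ∂μ := by
  rw [PiLp.inner_apply]
  refine Finset.sum_congr rfl fun i _ => ?_
  rw [L2.inner_def, T_apply]
  refine integral_congr_ae ?_
  filter_upwards [(hF i).coeFn_toLp] with x hx
  rw [hx, RCLike.inner_apply, mul_comm]

end DualAux

open DualAux in
theorem pDUAL : S_DUAL := by
  intro ι _ μ W hne hadd hsmul hW v hv hb ε hε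
  let K0 : Submodule ℂ (PiLp 2 (fun _ : ι => Lp ℂ 2 μ)) :=
    { carrier := {u | ∃ (F : ι → E → ℂ) (hF : F ∈ W), u = T F (hW F hF)}
      zero_mem' := by
        obtain ⟨F, hF⟩ := hne
        refine ⟨_, hsmul 0 F hF, ?_⟩
        ext1 i
        rw [T_apply]
        symm
        rw [PiLp.zero_apply]
        have h1 : (fun x => (0 : ℂ) * F i x) = 0 := by ext x; simp
        have h2 : MemLp (0 : E → ℂ) 2 μ := MemLp.zero
        calc _ = h2.toLp 0 := by congr 1
          _ = 0 := MemLp.toLp_zero h2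
      add_mem' := by
        rintro _ _ ⟨F, hF, rfl⟩ ⟨G, hG, rfl⟩
        refine ⟨F + G, hadd F hF G hG, ?_⟩
        ext1 i
        rw [PiLp.add_apply, T_apply, T_apply, T_apply, ← MemLp.toLp_add]
        rfl
      smul_mem' := by
        rintro c _ ⟨F, hF, rfl⟩
        refine ⟨_, hsmul c F hF, ?_⟩
        ext1 i
        rw [PiLp.smul_apply, T_apply, T_apply, ← MemLp.toLp_const_smul]
        rfl }
  have hmem : T v hv ∈ K0.topologicalClosure := by
    rw [← Submodule.orthogonal_orthogonal_eq_closure, Submodule.mem_orthogonal]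
    intro w hw
    rw [inner_T]
    refine hb (fun i x => conj (w i x)) (fun i => ?_) fun F hF => ?_
    · exact (Lp.memLp (w i)).star
    · rw [← inner_T w F (hW F hF)]
      rw [Submodule.mem_orthogonal'] at hw
      exact hw _ ⟨F, hF, rfl⟩
  rw [← SetLike.mem_coe, Submodule.topologicalClosure_coe, Metric.mem_closure_iff] at hmem
  obtain ⟨_, ⟨F, hF, rfl⟩, hlt⟩ := hmem ε hε
  refine ⟨F, hF, fun i => ?_⟩
  have h1 : ‖(T F (hW F hF) - T v hv) i‖ ≤ ε := by
    refine (PiLp.norm_apply_le _ i).trans ?_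
    rw [← dist_eq_norm, dist_comm]
    exact hlt.le
  rw [PiLp.sub_apply, T_apply, T_apply, ← MemLp.toLp_sub, Lp.norm_toLp] at h1
  have h2 : eLpNorm (F i - v i) 2 μ ≠ ⊤ := ((hW F hF i).sub (hv i)).eLpNorm_ne_top
  exact (ENNReal.le_ofReal_iff_toReal_le h2 hε.le).2 h1

end Pool.Agent.R435.HT
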