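import Mathlib

/-!
# Weak and strong extensions of `d` on the Hartogs triangle: definitions and internal statements

Project HT (MP_f65596_an).  `E = ℝ⁴ = ℂ²` with `z₁ = x 0 + i x 1`, `z₂ = x 2 + i x 3`.
-/

open MeasureTheory Set Filter Topology
open scoped ContDiff ENNReal

namespace Pool.Agent.R435.HT

/-- The space `ℝ⁴ = ℂ²`. -/
abbrev E := Fin 4 → ℝ

/-- `|z₂|²`. -/
def rho2 (x : E) : ℝ := x 2 ^ 2 + x 3 ^ 2

/-- The Hartogs triangle `|z₁| < |z₂| < 1`. -/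
def hartogs : Set E := {x | x 0 ^ 2 + x 1 ^ 2 < x 2 ^ 2 + x 3 ^ 2 ∧ x 2 ^ 2 + x 3 ^ 2 < 1}

/-- The cone `|z₁| < |z₂|`. -/
def cone : Set E := {x | x 0 ^ 2 + x 1 ^ 2 < x 2 ^ 2 + x 3 ^ 2}

/-- The partial derivative `∂φ/∂xᵢ`. -/
noncomputable def pd {F : Type} [NormedAddCommGroup F] [NormedSpace ℝ F]
    (i : Fin 4) (φ : E → F) (x : E) : F :=
  fderiv ℝ φ x (Pi.single i 1)

/-- `g i j = ∂ᵢ f j - ∂ⱼ f i` weakly on `U` (real test functions suffice). -/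
def WeakCurl (U : Set E) (f : Fin 4 → E → ℂ) (g : Fin 4 → Fin 4 → E → ℂ) : Prop :=
  ∀ i j, ∀ φ : E → ℝ, ContDiff ℝ ∞ φ → HasCompactSupport φ → tsupport φ ⊆ U →
    ∫ x, (φ x : ℂ) * g i j x
      = -(∫ x, ((pd i φ x : ℝ) : ℂ) * f j x) + ∫ x, ((pd j φ x : ℝ) : ℂ) * f i x

/-- A pair of measurable square integrable coefficient families vanishing outside the Hartogs
triangle. -/
structure Nice (f : Fin 4 → E → ℂ) (g : Fin 4 → Fin 4 → E → ℂ) : Prop where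
  mf : ∀ i, Measurable (f i)
  mg : ∀ i j, Measurable (g i j)
  lf : ∀ i, MemLp (f i) 2 (volume : Measure E)
  lg : ∀ i j, MemLp (g i j) 2 (volume : Measure E)
  zf : ∀ i x, x ∉ hartogs → f i x = 0
  zg : ∀ i j x, x ∉ hartogs → g i j x = 0

/-- `-log |z₂|`. -/
noncomputable def sig (x : E) : ℝ := -(1 / 2) * Real.log (rho2 x)

/-- the annulus where the cut off function varies. -/
def ann (S L : ℝ) : Set E :=
  {x | Real.exp (-2 * (S * Real.exp L)) < rho2 x ∧ rho2 x < Real.exp (-2 * S)}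

/-- `∫₁^∞ t h(t x) dt`. -/
noncomputable def NN (h : E → ℝ≥0∞) (x : E) : ℝ≥0∞ :=
  ∫⁻ t in Ioi (1 : ℝ), ENNReal.ofReal t * h (t • x)

/-- outward radial homotopy operator on one-forms. -/
noncomputable def uu (f : Fin 4 → E → ℂ) (x : E) : ℂ :=
  -∫ t in Ioi (1 : ℝ), ∑ i, (x i : ℂ) * f i (t • x)

/-- outward radial homotopy operator on two-forms. -/
noncomputable def KK (g : Fin 4 → Fin 4 → E → ℂ) (j : Fin 4) (x : E) : ℂ :=
  -∫ t in Ioi (1 : ℝ), (t : ℂ) * ∑ i, (x i : ℂ) * g i j (t • x)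

/-- mollification. -/
noncomputable def moll (η : E → ℝ) (h : E → ℂ) (x : E) : ℂ :=
  ∫ y, (η (x - y) : ℂ) * h y

/-- a mollifier supported in the ball of radius `δ`. -/
structure IsMoll (η : E → ℝ) (δ : ℝ) : Prop where
  smooth : ContDiff ℝ ∞ η
  nonneg : ∀ y, 0 ≤ η y
  supp : ∀ y, δ ≤ ‖y‖ → η y = 0
  int1 : ∫ y, η y = 1

/-! ## statements of the pieces -/

/-- CUT: logarithmic cut off functions. -/
def S_CUT : Prop := ∃ C : ℝ, 0 < C ∧ ∀ S L : ℝ, 1 ≤ S → 1 ≤ L → ∃ χ : E → ℝ,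
  ContDiff ℝ ∞ χ ∧ (∀ x, 0 ≤ χ x ∧ χ x ≤ 1) ∧
  (∀ x, Real.exp (-2 * S) ≤ rho2 x → χ x = 1) ∧
  (∀ x, rho2 x ≤ Real.exp (-2 * (S * Real.exp L)) → χ x = 0) ∧
  (∀ i x, (rho2 x ≤ Real.exp (-2 * (S * Real.exp L)) ∨ Real.exp (-2 * S) ≤ rho2 x) →
    pd i χ x = 0) ∧
  (∀ i x, x ∈ ann S L → |pd i χ x| ≤ C / (L * sig x * Real.sqrt (rho2 x)))

/-- EST: the weighted `L²` bound of `NN`. -/
def S_EST : Prop := ∀ h : E → ℝ≥0∞, Measurable h → (∀ x, 1 ≤ rho2 x → h x = 0) →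
  ∀ S L : ℝ, 1 ≤ S → 1 ≤ L →
    ∫⁻ x in ann S L, ENNReal.ofReal (1 / (L * sig x) ^ 2) * NN h x ^ 2
      ≤ ENNReal.ofReal (1 / L) * ∫⁻ x, h x ^ 2

/-- LOC: the `L¹` bound of `NN`. -/
def S_LOC : Prop := ∀ h : E → ℝ≥0∞, Measurable h → ∫⁻ x, NN h x ≤ ∫⁻ x, h x

/-- BND: measurability and pointwise bounds of the homotopy operators. -/
def S_BND : Prop := ∀ f g, Nice f g → Measurable (uu f) ∧ (∀ j, Measurable (KK g j)) ∧
  (∀ x, ‖uu f x‖ₑ ≤ ENNReal.ofReal (Real.sqrt (rho2 x)) * ∑ i, NN (fun y => ‖f i y‖ₑ) x) ∧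
  (∀ j x, ‖KK g j x‖ₑ ≤
    ENNReal.ofReal (Real.sqrt (rho2 x)) * ∑ i, NN (fun y => ‖g i j y‖ₑ) x)

/-- HOM: the weak homotopy formula `∂ⱼ(uu f) + KK g j = f j` on an open cone. -/
def S_HOM : Prop := ∀ U : Set E, IsOpen U → (∀ x ∈ U, ∀ t : ℝ, 0 < t → t • x ∈ U) →
  (∀ x ∈ U, 0 < rho2 x) → ∀ f g, Nice f g → WeakCurl U f g →
    ∀ j, ∀ ψ : E → ℝ, ContDiff ℝ ∞ ψ → HasCompactSupport ψ → tsupport ψ ⊆ U →
      ∫ x, ((pd j ψ x : ℝ) : ℂ) * uu f x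
        = -(∫ x, (ψ x : ℂ) * f j x) + ∫ x, (ψ x : ℂ) * KK g j x

/-- NZ: approximation by pairs vanishing near `z₂ = 0`. -/
def S_NZ : Prop := ∀ U : Set E, IsOpen U → (∀ x ∈ U, ∀ t : ℝ, 0 < t → t • x ∈ U) →
  (∀ x ∈ U, 0 < rho2 x) → ∀ f g, Nice f g → WeakCurl U f g → ∀ ε : ℝ, 0 < ε →
    ∃ r : ℝ, 0 < r ∧ ∃ f' g', Nice f' g' ∧ (∀ i x, rho2 x < r → f' i x = 0) ∧
      (∀ i j x, rho2 x < r → g' i j x = 0) ∧
      (∀ i, eLpNorm (f' i - f i) 2 (volume : Measure E) ≤ ENNReal.ofReal ε) ∧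
      (∀ i j, eLpNorm (g' i j - g i j) 2 (volume : Measure E) ≤ ENNReal.ofReal ε) ∧
      ∀ i j, ∀ φ : E → ℝ, ContDiff ℝ ∞ φ → HasCompactSupport φ →
        tsupport φ ∩ {x | r ≤ rho2 x} ⊆ U →
        ∫ x, (φ x : ℂ) * g' i j x
          = -(∫ x, ((pd i φ x : ℝ) : ℂ) * f' j x) + ∫ x, ((pd j φ x : ℝ) : ℂ) * f' i x

/-- MOL: mollification in `L²`. -/
def S_MOL : Prop := ∀ h : E → ℂ, MemLp h 2 (volume : Measure E) → ∀ ε : ℝ, 0 < ε →
  ∃ δ₀ : ℝ, 0 < δ₀ ∧ ∀ η δ, δ ≤ δ₀ → IsMoll η δ →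
    eLpNorm (moll η h - h) 2 (volume : Measure E) ≤ ENNReal.ofReal ε

/-- EXM: mollifiers exist. -/
def S_EXM : Prop := ∀ δ : ℝ, 0 < δ → ∃ η, IsMoll η δ

/-- SCL: continuity of (anisotropic) scalings in `L²`. -/
def S_SCL : Prop := ∀ h : E → ℂ, MemLp h 2 (volume : Measure E) → ∀ ε : ℝ, 0 < ε →
  ∃ δ : ℝ, 0 < δ ∧ ∀ (k : ℝ) (c : Fin 4 → ℝ), |k - 1| < δ → (∀ i, |c i - 1| < δ) →
    eLpNorm (fun x : E => (k : ℂ) * h (fun i => c i * x i) - h x) 2 (volume : Measure E)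
      ≤ ENNReal.ofReal ε

/-- WSC: the weak equation under diagonal linear maps. -/
def S_WSC : Prop := ∀ (U : Set E) (f : Fin 4 → E → ℂ) (g : Fin 4 → Fin 4 → E → ℂ)
  (c : Fin 4 → ℝ), (∀ i, 0 < c i) → WeakCurl U f g →
    WeakCurl {x | (fun i => c i * x i) ∈ U} (fun j x => (c j : ℂ) * f j (fun i => c i * x i))
      (fun i j x => ((c i * c j : ℝ) : ℂ) * g i j (fun i => c i * x i))

/-- WMO: the weak equation and mollification. -/
def S_WMO : Prop := ∀ (η : E → ℝ) (δ : ℝ), 0 < δ → IsMoll η δ →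
  (∀ h : E → ℂ, MemLp h 2 (volume : Measure E) → ContDiff ℝ ∞ (moll η h)) ∧
  (∀ h : E → ℂ, MemLp h 2 (volume : Measure E) → ∀ x, (∀ y, ‖x - y‖ ≤ δ → h y = 0) →
    moll η h x = 0 ∧ ∀ i, pd i (moll η h) x = 0) ∧
  (∀ (U : Set E) (f : Fin 4 → E → ℂ) (g : Fin 4 → Fin 4 → E → ℂ),
    (∀ i, MemLp (f i) 2 (volume : Measure E)) → WeakCurl U f g →
    ∀ x, (∀ y, ‖x - y‖ ≤ δ → y ∈ U) → ∀ i j,
      pd i (moll η (f j)) x - pd j (moll η (f i)) x = moll η (g i j) x)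

/-- REGP: regularisation of a pair vanishing near `z₂ = 0`, up to the boundary. -/
def S_REGP : Prop := ∀ f g, Nice f g → WeakCurl hartogs f g → ∀ r : ℝ, 0 < r →
  (∀ i x, rho2 x < r → f i x = 0) → (∀ i j x, rho2 x < r → g i j x = 0) →
  ∀ ε : ℝ, 0 < ε → ∃ F : Fin 4 → E → ℂ, (∀ i, ContDiff ℝ ∞ (F i)) ∧
    (∀ i, eLpNorm (F i - f i) 2 ((volume : Measure E).restrict hartogs) ≤ ENNReal.ofReal ε) ∧
    ∀ i j, eLpNorm (fun x => pd i (F j) x - pd j (F i) x - g i j x) 2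
      ((volume : Measure E).restrict hartogs) ≤ ENNReal.ofReal ε

/-- REGD: regularisation with compact support inside the Hartogs triangle. -/
def S_REGD : Prop := ∀ f g, Nice f g → WeakCurl univ f g → ∀ r : ℝ, 0 < r →
  (∀ i x, rho2 x < r → f i x = 0) → (∀ i j x, rho2 x < r → g i j x = 0) →
  ∀ ε : ℝ, 0 < ε → ∃ F : Fin 4 → E → ℂ, (∀ i, ContDiff ℝ ∞ (F i)) ∧
    (∀ i, HasCompactSupport (F i)) ∧ (∀ i, tsupport (F i) ⊆ hartogs) ∧
    (∀ i, eLpNorm (F i - f i) 2 (volume : Measure E) ≤ ENNReal.ofReal ε) ∧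
    ∀ i j, eLpNorm (fun x => pd i (F j) x - pd j (F i) x - g i j x) 2 (volume : Measure E)
      ≤ ENNReal.ofReal ε

/-- PALL: `d = d_s` for one-forms, internal form. -/
def S_PALL : Prop := ∀ f g, Nice f g → WeakCurl hartogs f g →
  ∀ ε : ℝ, 0 < ε → ∃ F : Fin 4 → E → ℂ, (∀ i, ContDiff ℝ ∞ (F i)) ∧
    (∀ i, eLpNorm (F i - f i) 2 ((volume : Measure E).restrict hartogs) ≤ ENNReal.ofReal ε) ∧
    ∀ i j, eLpNorm (fun x => pd i (F j) x - pd j (F i) x - g i j x) 2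
      ((volume : Measure E).restrict hartogs) ≤ ENNReal.ofReal ε

/-- DALL: one-forms on `ℝ⁴` supported in the closure are limits of test forms. -/
def S_DALL : Prop := ∀ f g, Nice f g → WeakCurl univ f g →
  ∀ ε : ℝ, 0 < ε → ∃ F : Fin 4 → E → ℂ, (∀ i, ContDiff ℝ ∞ (F i)) ∧
    (∀ i, HasCompactSupport (F i)) ∧ (∀ i, tsupport (F i) ⊆ hartogs) ∧
    (∀ i, eLpNorm (F i - f i) 2 (volume : Measure E) ≤ ENNReal.ofReal ε) ∧
    ∀ i j, eLpNorm (fun x => pd i (F j) x - pd j (F i) x - g i j x) 2 (volume : Measure E)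
      ≤ ENNReal.ofReal ε

/-- DUAL: Hilbert space duality for finite tuples of `L²` functions. -/
def S_DUAL : Prop := ∀ (ι : Type) [Fintype ι] (μ : Measure E) (W : Set (ι → E → ℂ)),
  (∃ F, F ∈ W) → (∀ F ∈ W, ∀ G ∈ W, F + G ∈ W) →
  (∀ (c : ℂ), ∀ F ∈ W, (fun i x => c * F i x) ∈ W) →
  (∀ F ∈ W, ∀ i, MemLp (F i) 2 μ) →
  ∀ v : ι → E → ℂ, (∀ i, MemLp (v i) 2 μ) →
  (∀ b : ι → E → ℂ, (∀ i, MemLp (b i) 2 μ) →
    (∀ F ∈ W, ∑ i, ∫ x, b i x * F i x ∂μ = 0) → ∑ i, ∫ x, b i x * v i x ∂μ = 0) →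
  ∀ ε : ℝ, 0 < ε → ∃ F ∈ W, ∀ i, eLpNorm (F i - v i) 2 μ ≤ ENNReal.ofReal ε

/-! ## differential forms -/

/-- A differential form of degree `q` is given by its coefficient functions `f I`,
`I ⊆ {0,1,2,3}` with `|I| = q` (the coefficient of `dx_I`); the values at other `I` are ignored. -/
abbrev Form := Finset (Fin 4) → E → ℂ

/-- the sign of `dxᵢ ∧ dx_{J ∖ i}` with respect to `dx_J`. -/
def sgn (J : Finset (Fin 4)) (i : Fin 4) : ℂ := (-1) ^ (J.filter (fun j => j < i)).card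

/-- The coefficient of `dx_J` in the exterior derivative of a smooth form. -/
noncomputable def dC (F : Form) (J : Finset (Fin 4)) (x : E) : ℂ :=
  ∑ i ∈ J, sgn J i * pd i (F (J.erase i)) x

/-- square integrable `q`-forms on the Hartogs triangle. -/
def L2Form (q : ℕ) (f : Form) : Prop :=
  ∀ I : Finset (Fin 4), I.card = q → MemLp (f I) 2 ((volume : Measure E).restrict hartogs)

/-- `d f = g` in the sense of distributions on the Hartogs triangle, `f` a `q`-form. -/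
def WeakD (q : ℕ) (f g : Form) : Prop :=
  ∀ J : Finset (Fin 4), J.card = q + 1 → ∀ φ : E → ℝ, ContDiff ℝ ∞ φ → HasCompactSupport φ →
    tsupport φ ⊆ hartogs →
    ∫ x in hartogs, (φ x : ℂ) * g J x
      = -∑ i ∈ J, sgn J i * ∫ x in hartogs, ((pd i φ x : ℝ) : ℂ) * f (J.erase i) x

/-- `d_s f = g`: there are forms `F ν`, smooth on `ℝ⁴`, with `F ν → f` and `d (F ν) → g` in
`L²` of the Hartogs triangle. -/
def StrongD (q : ℕ) (f g : Form) : Prop :=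
  ∃ F : ℕ → Form, (∀ ν, ∀ I : Finset (Fin 4), I.card = q → ContDiff ℝ ∞ (F ν I)) ∧
    (∀ I : Finset (Fin 4), I.card = q → Tendsto (fun ν => eLpNorm (F ν I - f I) 2
      ((volume : Measure E).restrict hartogs)) atTop (𝓝 0)) ∧
    (∀ J : Finset (Fin 4), J.card = q + 1 → Tendsto (fun ν => eLpNorm (dC (F ν) J - g J) 2
      ((volume : Measure E).restrict hartogs)) atTop (𝓝 0))

/-- IX1: from the internal form to one-forms. -/
def S_IX1 : Prop := S_PALL → ∀ f g : Form, L2Form 1 f → L2Form 2 g → WeakD 1 f g →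
  StrongD 1 f g

/-- IX2: from the internal form to two-forms. -/
def S_IX2 : Prop := S_DALL → S_DUAL → ∀ f g : Form, L2Form 2 f → L2Form 3 g → WeakD 2 f g →
  StrongD 2 f g

/-- SW: the strong extension is contained in the weak one. -/
def S_SW : Prop := ∀ (q : ℕ) (f g : Form), L2Form q f → L2Form (q + 1) g → StrongD q f g →
  WeakD q f g

end Pool.Agent.R435.HT
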