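import Pool.Agent.R435.HT.Defs

/-! HT-EST: the weighted `L²` bound of `NN`. -/

set_option autoImplicit false

open MeasureTheory Set Filter Topology
open scoped ContDiff ENNReal

namespace Pool.Agent.R435.HT

namespace EstAux

theorem cs_sq {α : Type} [MeasurableSpace α] (μ : Measure α) {F G : α → ℝ≥0∞}
    (hF : AEMeasurable F μ) (hG : AEMeasurable G μ) :
    (∫⁻ a, F a * G a ∂μ) ^ 2 ≤ (∫⁻ a, F a ^ 2 ∂μ) * ∫⁻ a, G a ^ 2 ∂μ := by
  have hpq : (2 : ℝ).HolderConjugate 2 := by
    rw [Real.holderConjugate_iff]; norm_num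
  have h := ENNReal.lintegral_mul_le_Lp_mul_Lq μ hpq hF hG
  simp only [Pi.mul_apply] at h
  have h3 : ∀ f : α → ℝ≥0∞, ∫⁻ a, f a ^ (2 : ℝ) ∂μ = ∫⁻ a, f a ^ 2 ∂μ := fun f => by
    refine lintegral_congr fun a => ?_
    rw [← ENNReal.rpow_natCast]; norm_num
  rw [h3, h3] at h
  have h2 : ∀ x : ℝ≥0∞, (x ^ (1 / 2 : ℝ)) ^ 2 = x := fun x => by
    rw [← ENNReal.rpow_natCast, ← ENNReal.rpow_mul]; norm_num
  calc (∫⁻ a, F a * G a ∂μ) ^ 2
      ≤ ((∫⁻ a, F a ^ 2 ∂μ) ^ (1 / 2 : ℝ) * (∫⁻ a, G a ^ 2 ∂μ) ^ (1 / 2 : ℝ)) ^ 2 := by gcongr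
    _ = _ := by rw [mul_pow, h2, h2]

theorem lint_ftc {a b : ℝ} (hab : a ≤ b) {F F' : ℝ → ℝ}
    (hd : ∀ x ∈ Icc a b, HasDerivAt F (F' x) x) (hc : ContinuousOn F' (Icc a b))
    (h0 : ∀ x ∈ Icc a b, 0 ≤ F' x) :
    ∫⁻ t in Ioo a b, ENNReal.ofReal (F' t) = ENNReal.ofReal (F b - F a) := by
  have hint : IntervalIntegrable F' volume a b :=
    ContinuousOn.intervalIntegrable (by rw [uIcc_of_le hab]; exact hc)
  have h1 := intervalIntegral.integral_eq_sub_of_hasDerivAt
    (fun x hx => hd x (by rwa [uIcc_of_le hab] at hx)) hint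
  rw [intervalIntegral.integral_of_le hab] at h1
  rw [← h1, ofReal_integral_eq_lintegral_ofReal]
  · rw [restrict_Ioo_eq_restrict_Ioc]
  · exact (intervalIntegrable_iff_integrableOn_Ioc_of_le hab).1 hint
  · refine (ae_restrict_iff' measurableSet_Ioc).2 (Eventually.of_forall fun x hx => ?_)
    exact h0 x (Ioc_subset_Icc_self hx)

theorem rho2_smul (t : ℝ) (x : E) : rho2 (t • x) = t ^ 2 * rho2 x := by
  simp only [rho2, Pi.smul_apply, smul_eq_mul]; ring

theorem rho2_nonneg (x : E) : 0 ≤ rho2 x := by
  unfold rho2; positivity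

theorem meas_rho2 : Measurable rho2 := by
  unfold rho2; fun_prop

theorem meas_sig : Measurable sig := by
  unfold sig
  exact (Real.measurable_log.comp meas_rho2).const_mul _

theorem meas_ann (S L : ℝ) : MeasurableSet (ann S L) :=
  (measurableSet_lt measurable_const meas_rho2).inter (measurableSet_lt meas_rho2 measurable_const)

theorem est_pt {h : E → ℝ≥0∞} (hm : Measurable h) (hz : ∀ x, 1 ≤ rho2 x → h x = 0) {x : E}
    (hx0 : 0 < rho2 x) (hx1 : rho2 x < 1) :
    NN h x ^ 2 ≤ ENNReal.ofReal (sig x) *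
      ∫⁻ t in Ioi (1 : ℝ), ENNReal.ofReal (t ^ 3) * h (t • x) ^ 2 := by
  obtain ⟨b, hb⟩ : ∃ b, b = Real.exp (sig x) := ⟨_, rfl⟩
  have hb2 : b ^ 2 * rho2 x = 1 := by
    rw [hb, ← Real.exp_nat_mul]
    have : ((2 : ℕ) : ℝ) * sig x = - Real.log (rho2 x) := by unfold sig; push_cast; ring
    rw [this, Real.exp_neg, Real.exp_log hx0, inv_mul_cancel₀ hx0.ne']
  have hb0 : 0 < b := by rw [hb]; exact Real.exp_pos _
  have hsig0 : 0 ≤ sig x := by
    unfold sig
    have := Real.log_nonpos hx0.le hx1.le
    linarith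
  have hb1 : 1 ≤ b := by rw [hb]; exact Real.one_le_exp hsig0
  have hbz : ∀ t, b ≤ t → h (t • x) = 0 := by
    intro t ht
    apply hz
    rw [rho2_smul, ← hb2]
    gcongr
  have hG : Measurable fun t : ℝ => ENNReal.ofReal (Real.sqrt (t ^ 3)) * h (t • x) := by
    have h1 : Measurable fun t : ℝ => t • x := by fun_prop
    exact (by fun_prop : Measurable fun t : ℝ => ENNReal.ofReal (Real.sqrt (t ^ 3))).mul
      (hm.comp h1)
  have hF : Measurable ((Ioo 1 b).indicator fun t : ℝ => ENNReal.ofReal (Real.sqrt (1 / t))) :=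
    Measurable.indicator (by fun_prop) measurableSet_Ioo
  have h1 : NN h x = ∫⁻ t in Ioi (1 : ℝ),
      (Ioo 1 b).indicator (fun t : ℝ => ENNReal.ofReal (Real.sqrt (1 / t))) t *
        (ENNReal.ofReal (Real.sqrt (t ^ 3)) * h (t • x)) := by
    unfold NN
    refine setLIntegral_congr_fun measurableSet_Ioi fun t ht => ?_
    have ht1 : 1 < t := ht
    by_cases htb : t < b
    · simp only [indicator_of_mem (show t ∈ Ioo 1 b from ⟨ht1, htb⟩)]
      rw [← mul_assoc, ← ENNReal.ofReal_mul (Real.sqrt_nonneg _),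
        ← Real.sqrt_mul (by positivity)]
      have : (1 / t) * t ^ 3 = t ^ 2 := by field_simp
      rw [this, Real.sqrt_sq (by linarith)]
    · simp only [hbz t (not_lt.1 htb), mul_zero]
  rw [h1]
  refine (cs_sq _ hF.aemeasurable hG.aemeasurable).trans ?_
  have h2 : ∫⁻ t in Ioi (1 : ℝ),
      (Ioo 1 b).indicator (fun t : ℝ => ENNReal.ofReal (Real.sqrt (1 / t))) t ^ 2 =
      ENNReal.ofReal (sig x) := by
    have e1 : ∀ t : ℝ, (Ioo 1 b).indicator (fun t : ℝ => ENNReal.ofReal (Real.sqrt (1 / t))) t ^ 2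
        = (Ioo 1 b).indicator (fun t : ℝ => ENNReal.ofReal (1 / t)) t := by
      intro t
      by_cases ht : t ∈ Ioo 1 b
      · rw [indicator_of_mem ht, indicator_of_mem ht, ← ENNReal.ofReal_pow (Real.sqrt_nonneg _),
          Real.sq_sqrt]
        have := ht.1
        positivity
      · rw [indicator_of_notMem ht, indicator_of_notMem ht]; simp
    simp only [e1]
    rw [lintegral_indicator measurableSet_Ioo, Measure.restrict_restrict measurableSet_Ioo,
      inter_eq_left.2 (show Ioo 1 b ⊆ Ioi (1 : ℝ) from fun t ht => ht.1)]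
    rw [lint_ftc (F := Real.log) (F' := fun t => 1 / t) hb1]
    · rw [Real.log_one, sub_zero, hb, Real.log_exp]
    · intro t ht
      have ht0 : t ≠ 0 := by have := ht.1; positivity
      simpa [one_div] using Real.hasDerivAt_log ht0
    · refine ContinuousOn.div continuousOn_const continuousOn_id fun t ht => ?_
      have := ht.1
      change t ≠ 0
      positivity
    · intro t ht
      have := ht.1
      positivity
  have h3 : ∀ t : ℝ, 0 < t → (ENNReal.ofReal (Real.sqrt (t ^ 3)) * h (t • x)) ^ 2 =
      ENNReal.ofReal (t ^ 3) * h (t • x) ^ 2 := by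
    intro t ht
    rw [mul_pow, ← ENNReal.ofReal_pow (Real.sqrt_nonneg _), Real.sq_sqrt (by positivity)]
  have h4 : ∫⁻ t in Ioi (1 : ℝ), (ENNReal.ofReal (Real.sqrt (t ^ 3)) * h (t • x)) ^ 2 =
      ∫⁻ t in Ioi (1 : ℝ), ENNReal.ofReal (t ^ 3) * h (t • x) ^ 2 :=
    setLIntegral_congr_fun measurableSet_Ioi fun t ht => h3 t (lt_trans one_pos ht)
  rw [h2, h4]

/-- the kernel -/
noncomputable def KE (S L : ℝ) : E → ℝ≥0∞ :=
  (ann S L).indicator fun x => ENNReal.ofReal (1 / (L ^ 2 * sig x))

theorem meas_KE (S L : ℝ) : Measurable (KE S L) := by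
  unfold KE
  refine Measurable.indicator ?_ (meas_ann S L)
  have := meas_sig
  fun_prop

theorem est_inner {S L : ℝ} (hS : 1 ≤ S) (hL : 1 ≤ L) (y : E) :
    ∫⁻ t in Ioi (1 : ℝ), ENNReal.ofReal (1 / t) * KE S L (t⁻¹ • y) ≤ ENNReal.ofReal (1 / L) := by
  rcases (rho2_nonneg y).eq_or_lt with hy | hy
  · have h0 : ∀ t : ℝ, KE S L (t⁻¹ • y) = 0 := by
      intro t
      refine indicator_of_notMem (fun hmem => ?_) _
      have := hmem.1
      rw [rho2_smul, ← hy, mul_zero] at this
      exact absurd this (not_lt.2 (Real.exp_pos _).le)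
    simp [h0]
  · obtain ⟨s, hs⟩ : ∃ s, s = sig y := ⟨_, rfl⟩
    obtain ⟨a, ha⟩ : ∃ a, a = Real.exp (S - s) := ⟨_, rfl⟩
    obtain ⟨b, hb⟩ : ∃ b, b = Real.exp (S * Real.exp L - s) := ⟨_, rfl⟩
    have hSL : S ≤ S * Real.exp L := by
      have : 1 ≤ Real.exp L := Real.one_le_exp (by linarith)
      nlinarith
    have hab : a ≤ b := by rw [ha, hb]; exact Real.exp_le_exp.2 (by linarith)
    have ha0 : 0 < a := by rw [ha]; exact Real.exp_pos _
    have hlog : ∀ t ∈ Icc a b, S ≤ s + Real.log t := by
      intro t ht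
      have := Real.log_le_log ha0 ht.1
      rw [ha, Real.log_exp] at this
      linarith
    have hbd : ∀ t ∈ Ioi (1 : ℝ), ENNReal.ofReal (1 / t) * KE S L (t⁻¹ • y) ≤
        (Ioo a b).indicator (fun t => ENNReal.ofReal ((1 / L ^ 2) * (1 / (t * (s + Real.log t))))) t
        := by
      intro t ht
      have ht1 : 1 < t := ht
      have ht0 : 0 < t := by linarith
      by_cases hm : t⁻¹ • y ∈ ann S L
      · have hsig : sig (t⁻¹ • y) = s + Real.log t := by
          rw [hs]
          unfold sig
          rw [rho2_smul, Real.log_mul (by positivity) hy.ne', Real.log_pow, Real.log_inv]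
          push_cast
          ring
        have hpos : 0 < rho2 (t⁻¹ • y) := lt_trans (Real.exp_pos _) hm.1
        have h1 : S < s + Real.log t := by
          have := Real.log_lt_log hpos hm.2
          rw [Real.log_exp] at this
          rw [← hsig]; unfold sig; linarith
        have h2 : s + Real.log t < S * Real.exp L := by
          have := Real.log_lt_log (Real.exp_pos _) hm.1
          rw [Real.log_exp] at this
          rw [← hsig]; unfold sig; linarith
        have hmem : t ∈ Ioo a b := by
          constructor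
          · rw [ha, ← Real.exp_log ht0]
            exact Real.exp_lt_exp.2 (by linarith)
          · rw [hb, ← Real.exp_log ht0]
            exact Real.exp_lt_exp.2 (by linarith)
        rw [indicator_of_mem hmem]
        unfold KE
        rw [indicator_of_mem hm, hsig, ← ENNReal.ofReal_mul (by positivity)]
        apply le_of_eq
        congr 1
        have : s + Real.log t ≠ 0 := by linarith
        field_simp
      · unfold KE
        rw [indicator_of_notMem hm, mul_zero]
        exact bot_le
    calc ∫⁻ t in Ioi (1 : ℝ), ENNReal.ofReal (1 / t) * KE S L (t⁻¹ • y)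
        ≤ ∫⁻ t in Ioi (1 : ℝ), (Ioo a b).indicator
          (fun t => ENNReal.ofReal ((1 / L ^ 2) * (1 / (t * (s + Real.log t))))) t :=
          setLIntegral_mono' measurableSet_Ioi hbd
      _ ≤ ∫⁻ t, (Ioo a b).indicator
          (fun t => ENNReal.ofReal ((1 / L ^ 2) * (1 / (t * (s + Real.log t))))) t :=
          setLIntegral_le_lintegral _ _
      _ = ∫⁻ t in Ioo a b, ENNReal.ofReal ((1 / L ^ 2) * (1 / (t * (s + Real.log t)))) :=
          lintegral_indicator measurableSet_Ioo _
      _ = ENNReal.ofReal ((1 / L ^ 2) * Real.log (s + Real.log b) -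
          (1 / L ^ 2) * Real.log (s + Real.log a)) := by
          refine lint_ftc (F := fun t => (1 / L ^ 2) * Real.log (s + Real.log t))
            (F' := fun t => (1 / L ^ 2) * (1 / (t * (s + Real.log t)))) hab ?_ ?_ ?_
          · intro t ht
            have ht0 : 0 < t := lt_of_lt_of_le ha0 ht.1
            have h1 : s + Real.log t ≠ 0 := by have := hlog t ht; linarith
            have h2 := ((Real.hasDerivAt_log ht0.ne').const_add s).log h1
            have h3 := h2.const_mul (1 / L ^ 2)
            refine h3.congr_deriv ?_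
            field_simp
          · refine ContinuousOn.mul continuousOn_const (ContinuousOn.div continuousOn_const ?_ ?_)
            · refine ContinuousOn.mul continuousOn_id (ContinuousOn.add continuousOn_const ?_)
              exact Real.continuousOn_log.mono fun t ht =>
                (lt_of_lt_of_le ha0 ht.1).ne'
            · intro t ht
              have ht0 : 0 < t := lt_of_lt_of_le ha0 ht.1
              have h1 : s + Real.log t ≠ 0 := by have := hlog t ht; linarith
              exact mul_ne_zero ht0.ne' h1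
          · intro t ht
            have ht0 : 0 < t := lt_of_lt_of_le ha0 ht.1
            have h1 : 0 < s + Real.log t := by have := hlog t ht; linarith
            positivity
      _ = ENNReal.ofReal (1 / L) := by
          congr 1
          rw [hb, ha, Real.log_exp, Real.log_exp]
          have e1 : s + (S * Real.exp L - s) = S * Real.exp L := by ring
          have e2 : s + (S - s) = S := by ring
          rw [e1, e2, Real.log_mul (by linarith) (Real.exp_pos _).ne', Real.log_exp]
          field_simp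
          ring

theorem subst (t : ℝ) (ht : 0 < t) {Φ : E → ℝ≥0∞} (hΦ : Measurable Φ) :
    ∫⁻ x, Φ (t • x) = ENNReal.ofReal (1 / t ^ 4) * ∫⁻ y, Φ y := by
  have h1 : Measurable fun x : E => t • x := by fun_prop
  rw [← lintegral_map hΦ h1, Measure.map_addHaar_smul volume ht.ne', lintegral_smul_measure]
  have h2 : |(t ^ Module.finrank ℝ E)⁻¹| = 1 / t ^ 4 := by
    have : Module.finrank ℝ E = 4 := by simp [E]
    rw [this, abs_of_pos (by positivity), one_div]
  rw [h2]
  rfl

end EstAux

open EstAux

theorem pEST : S_EST := by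
  intro h hm hz S L hS hL
  have hmsm : Measurable fun p : E × ℝ => p.2 • p.1 := by fun_prop
  have hms : Measurable fun p : E × ℝ => p.2⁻¹ • p.1 := by fun_prop
  have hL0 : 0 < L := by linarith
  calc ∫⁻ x in ann S L, ENNReal.ofReal (1 / (L * sig x) ^ 2) * NN h x ^ 2
      ≤ ∫⁻ x in ann S L, KE S L x *
        ∫⁻ t in Ioi (1 : ℝ), ENNReal.ofReal (t ^ 3) * h (t • x) ^ 2 := by
        refine setLIntegral_mono' (meas_ann S L) fun x hx => ?_
        have hx0 : 0 < rho2 x := lt_trans (Real.exp_pos _) hx.1
        have hx1 : rho2 x < 1 := by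
          refine lt_of_lt_of_le hx.2 ?_
          rw [← Real.exp_zero]
          exact Real.exp_le_exp.2 (by linarith)
        have hsig : 0 < sig x := by
          unfold sig
          have := Real.log_neg hx0 hx1
          linarith
        have h1 := est_pt hm hz hx0 hx1
        calc ENNReal.ofReal (1 / (L * sig x) ^ 2) * NN h x ^ 2
            ≤ ENNReal.ofReal (1 / (L * sig x) ^ 2) * (ENNReal.ofReal (sig x) *
              ∫⁻ t in Ioi (1 : ℝ), ENNReal.ofReal (t ^ 3) * h (t • x) ^ 2) := by gcongr
          _ = _ := by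
            rw [← mul_assoc, ← ENNReal.ofReal_mul (by positivity)]
            unfold KE
            rw [indicator_of_mem hx]
            congr 2
            field_simp
    _ ≤ ∫⁻ x, KE S L x * ∫⁻ t in Ioi (1 : ℝ), ENNReal.ofReal (t ^ 3) * h (t • x) ^ 2 :=
        setLIntegral_le_lintegral _ _
    _ = ∫⁻ x, ∫⁻ t in Ioi (1 : ℝ), KE S L x * (ENNReal.ofReal (t ^ 3) * h (t • x) ^ 2) := by
        refine lintegral_congr fun x => ?_
        rw [lintegral_const_mul]
        have h1 : Measurable fun t : ℝ => t • x := by fun_prop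
        exact (by fun_prop : Measurable fun t : ℝ => ENNReal.ofReal (t ^ 3)).mul
          ((hm.comp h1).pow_const 2)
    _ = ∫⁻ t in Ioi (1 : ℝ), ∫⁻ x, KE S L x * (ENNReal.ofReal (t ^ 3) * h (t • x) ^ 2) := by
        refine lintegral_lintegral_swap ?_
        refine Measurable.aemeasurable ?_
        exact ((meas_KE S L).comp measurable_fst).mul
          ((by fun_prop : Measurable fun p : E × ℝ => ENNReal.ofReal (p.2 ^ 3)).mul
            ((hm.comp hmsm).pow_const 2))
    _ = ∫⁻ t in Ioi (1 : ℝ), ∫⁻ y, h y ^ 2 * (ENNReal.ofReal (1 / t) * KE S L (t⁻¹ • y)) := by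
        refine setLIntegral_congr_fun measurableSet_Ioi fun t ht => ?_
        have ht0 : 0 < t := lt_trans one_pos ht
        have hm1 : Measurable fun x : E => t⁻¹ • x := by fun_prop
        have hΦ : Measurable fun y : E => KE S L (t⁻¹ • y) * (ENNReal.ofReal (t ^ 3) * h y ^ 2) :=
          ((meas_KE S L).comp hm1).mul ((hm.pow_const 2).const_mul _)
        have h1 := subst t ht0 hΦ
        simp only [smul_smul, inv_mul_cancel₀ ht0.ne', one_smul] at h1
        rw [h1, ← lintegral_const_mul _ hΦ]
        refine lintegral_congr fun y => ?_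
        have e1 : ENNReal.ofReal (1 / t) = ENNReal.ofReal (1 / t ^ 4) * ENNReal.ofReal (t ^ 3) := by
          rw [← ENNReal.ofReal_mul (by positivity)]
          congr 1
          field_simp
        rw [e1]
        ring
    _ = ∫⁻ y, ∫⁻ t in Ioi (1 : ℝ), h y ^ 2 * (ENNReal.ofReal (1 / t) * KE S L (t⁻¹ • y)) := by
        refine (lintegral_lintegral_swap ?_).symm
        refine Measurable.aemeasurable ?_
        exact ((hm.comp measurable_fst).pow_const 2).mul
          ((by fun_prop : Measurable fun p : E × ℝ => ENNReal.ofReal (1 / p.2)).mul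
            ((meas_KE S L).comp hms))
    _ ≤ ∫⁻ y, h y ^ 2 * ENNReal.ofReal (1 / L) := by
        refine lintegral_mono fun y => ?_
        simp only
        rw [lintegral_const_mul]
        · gcongr
          exact est_inner hS hL y
        · have hm1 : Measurable fun t : ℝ => t⁻¹ • y := by fun_prop
          exact (by fun_prop : Measurable fun t : ℝ => ENNReal.ofReal (1 / t)).mul
            ((meas_KE S L).comp hm1)
    _ = ENNReal.ofReal (1 / L) * ∫⁻ x, h x ^ 2 := by
        rw [lintegral_mul_const _ (hm.pow_const 2), mul_comm]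

end Pool.Agent.R435.HT

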