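import Pool.Agent.R435.HT.Defs

open MeasureTheory Set Filter Topology
open scoped ContDiff ENNReal

namespace Pool.Agent.R435.HT

namespace HomAux

theorem hartogs_fin : (volume : Measure E) hartogs < ⊤ := by
  have h : hartogs ⊆ Metric.closedBall (0 : E) 1 := by
    intro x hx
    rw [mem_closedBall_zero_iff, pi_norm_le_iff_of_nonneg zero_le_one]
    intro i
    obtain ⟨h1, h2⟩ := hx
    rw [Real.norm_eq_abs]
    refine abs_le_one_iff_mul_self_le_one.2 ?_
    fin_cases i <;> simp <;>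
      nlinarith [sq_nonneg (x 0), sq_nonneg (x 1), sq_nonneg (x 2), sq_nonneg (x 3)]
  exact (measure_mono h).trans_lt measure_closedBall_lt_top

theorem int_of_nice {h : E → ℂ} (hL : MemLp h 2 (volume : Measure E))
    (hz : ∀ x, x ∉ hartogs → h x = 0) : Integrable h := by
  have : IsFiniteMeasure ((volume : Measure E).restrict hartogs) :=
    ⟨by rw [Measure.restrict_apply_univ]; exact hartogs_fin⟩
  have h1 : IntegrableOn h hartogs := (hL.restrict hartogs).integrable (by norm_num)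
  exact h1.integrable_of_forall_notMem_eq_zero hz

theorem cov (F : E → ℂ) {t : ℝ} (ht : 0 < t) :
    ∫ x, F (t • x) = ((t ^ 4)⁻¹ : ℝ) • ∫ x, F x := by
  rw [Measure.integral_comp_smul, Module.finrank_fin_fun, abs_of_pos (by positivity)]

theorem covR (F : E → ℝ) {t : ℝ} (ht : 0 < t) :
    ∫ x, F (t • x) = ((t ^ 4)⁻¹ : ℝ) • ∫ x, F x := by
  rw [Measure.integral_comp_smul, Module.finrank_fin_fun, abs_of_pos (by positivity)]

theorem int_pow (m : ℕ) (hm : 2 ≤ m) : IntegrableOn (fun t : ℝ => (t ^ m)⁻¹) (Ioi 1) := by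
  have h := integrableOn_Ioi_rpow_of_lt (a := -(m : ℝ)) (c := 1)
    (by have : (2 : ℝ) ≤ m := by exact_mod_cast hm
        linarith) one_pos
  refine h.congr_fun (fun t ht => ?_) measurableSet_Ioi
  have ht0 : (0 : ℝ) < t := zero_lt_one.trans ht
  change t ^ (-(m : ℝ)) = (t ^ m)⁻¹
  rw [Real.rpow_neg ht0.le, Real.rpow_natCast]

theorem base_int {h : E → ℂ} (hm : Measurable h) (hi : Integrable h) :
    Integrable (fun p : ℝ × E => (p.1 : ℂ) * h (p.1 • p.2))
      (((volume : Measure ℝ).restrict (Ioi 1)).prod (volume : Measure E)) := by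
  rw [integrable_prod_iff]
  · constructor
    · filter_upwards [ae_restrict_mem measurableSet_Ioi] with t ht
      have ht0 : (0 : ℝ) < t := zero_lt_one.trans ht
      exact (hi.comp_smul ht0.ne').const_mul _
    · have h1 : IntegrableOn (fun t : ℝ => (t ^ 3)⁻¹ * ∫ y, ‖h y‖) (Ioi 1) :=
        (int_pow 3 (by norm_num)).mul_const _
      refine h1.congr_fun (fun t ht => ?_) measurableSet_Ioi
      have ht0 : (0 : ℝ) < t := zero_lt_one.trans ht
      simp only [norm_mul]
      rw [integral_const_mul, covR (fun x => ‖h x‖) ht0, Complex.norm_real, Real.norm_of_nonneg ht0.le,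
        smul_eq_mul]
      field_simp
  · exact ((Complex.measurable_ofReal.comp measurable_fst).mul
      (hm.comp (measurable_fst.smul measurable_snd))).aestronglyMeasurable

theorem prod_int {h : E → ℂ} (hm : Measurable h) (hi : Integrable h) {b : ℝ × E → ℂ}
    (hb : Measurable b) (C : ℝ) (hC : ∀ t x, 1 < t → ‖b (t, x)‖ ≤ C * t) :
    Integrable (fun p : ℝ × E => b p * h (p.1 • p.2))
      (((volume : Measure ℝ).restrict (Ioi 1)).prod (volume : Measure E)) := by
  refine ((base_int hm hi).norm.const_mul C).mono' ?_ ?_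
  · exact (hb.mul (hm.comp (measurable_fst.smul measurable_snd))).aestronglyMeasurable
  · have h1 : ∀ᵐ t ∂((volume : Measure ℝ).restrict (Ioi 1)), t ∈ Ioi (1 : ℝ) :=
      ae_restrict_mem measurableSet_Ioi
    have h2 := (Measure.quasiMeasurePreserving_fst
      (μ := (volume : Measure ℝ).restrict (Ioi 1)) (ν := (volume : Measure E))).ae h1
    filter_upwards [h2] with p hp
    have ht0 : (0 : ℝ) < p.1 := zero_lt_one.trans hp
    rw [norm_mul, norm_mul, Complex.norm_real, Real.norm_of_nonneg ht0.le, ← mul_assoc]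
    exact mul_le_mul_of_nonneg_right (hC p.1 p.2 hp) (norm_nonneg _)

theorem bint {h : E → ℂ} (hi : Integrable h) {b : E → ℝ} (hb : Continuous b)
    (hbc : HasCompactSupport b) {t : ℝ} (ht : t ≠ 0) :
    Integrable (fun x => (b x : ℂ) * h (t • x)) := by
  obtain ⟨C, hC⟩ := hbc.exists_bound_of_continuous hb
  refine ((hi.comp_smul ht).norm.const_mul C).mono' ?_ ?_
  · exact (Complex.continuous_ofReal.comp hb).aestronglyMeasurable.mul (hi.comp_smul ht).1
  · refine Eventually.of_forall fun x => ?_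
    rw [norm_mul, Complex.norm_real]
    exact mul_le_mul_of_nonneg_right (hC x) (norm_nonneg _)

/-- the test functions -/
noncomputable def tst (ψ : E → ℝ) (t : ℝ) (i : Fin 4) : E → ℝ := fun y => y i * ψ (t⁻¹ • y)

theorem tst_contDiff {ψ : E → ℝ} (h : ContDiff ℝ ∞ ψ) (t : ℝ) (i : Fin 4) :
    ContDiff ℝ ∞ (tst ψ t i) := by
  unfold tst
  exact (contDiff_apply ℝ ℝ i).mul (h.comp (contDiff_const_smul _))

theorem tst_pd {ψ : E → ℝ} (h : ContDiff ℝ ∞ ψ) (t : ℝ) (i l : Fin 4) (y : E) :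
    pd l (tst ψ t i) y = (if l = i then ψ (t⁻¹ • y) else 0) + y i * (t⁻¹ * pd l ψ (t⁻¹ • y)) := by
  have h1 : HasFDerivAt ψ (fderiv ℝ ψ (t⁻¹ • y)) (t⁻¹ • y) :=
    (h.differentiable (by simp) _).hasFDerivAt
  have h2 : HasFDerivAt (fun y : E => t⁻¹ • y) (t⁻¹ • ContinuousLinearMap.id ℝ E) y :=
    (hasFDerivAt_id y).const_smul t⁻¹
  have h3 := h1.comp y h2
  have h4 : HasFDerivAt (fun y : E => y i) (ContinuousLinearMap.proj (R := ℝ) i) y :=
    (ContinuousLinearMap.proj (R := ℝ) (φ := fun _ : Fin 4 => ℝ) i).hasFDerivAt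
  have h5 := h4.mul h3
  rw [pd, show tst ψ t i = (fun y : E => y i) * (ψ ∘ fun y : E => t⁻¹ • y) from rfl, h5.fderiv]
  simp only [ContinuousLinearMap.add_apply, ContinuousLinearMap.smul_apply,
    ContinuousLinearMap.comp_apply, ContinuousLinearMap.proj_apply, smul_eq_mul,
    ContinuousLinearMap.id_apply, map_smul, Function.comp_apply, pd, Pi.single_apply]
  rw [add_comm]
  congr 1
  by_cases hl : l = i
  · rw [if_pos hl, if_pos hl.symm, mul_one]
  · rw [if_neg hl, if_neg (fun hh => hl hh.symm), mul_zero]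

theorem tst_tsupport {ψ : E → ℝ} {U : Set E} (hU : ∀ x ∈ U, ∀ t : ℝ, 0 < t → t • x ∈ U)
    (hs : tsupport ψ ⊆ U) {t : ℝ} (ht : 0 < t) (i : Fin 4) : tsupport (tst ψ t i) ⊆ U := by
  have h1 : tsupport (tst ψ t i) ⊆ {y | t⁻¹ • y ∈ tsupport ψ} := by
    refine closure_minimal ?_ ((isClosed_tsupport ψ).preimage (continuous_const_smul t⁻¹))
    intro y hy
    refine subset_tsupport ψ ?_
    intro h0
    apply hy
    change y i * ψ (t⁻¹ • y) = 0
    rw [h0, mul_zero]
  intro y hy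
  have h2 := hU _ (hs (h1 hy)) t ht
  rwa [smul_smul, mul_inv_cancel₀ ht.ne', one_smul] at h2

theorem tst_compact {ψ : E → ℝ} (hc : HasCompactSupport ψ) {t : ℝ} (ht : 0 < t) (i : Fin 4) :
    HasCompactSupport (tst ψ t i) := by
  have h1 : HasCompactSupport fun y : E => ψ (t⁻¹ • y) := hc.comp_smul (inv_ne_zero ht.ne')
  exact h1.mul_left (f := fun y : E => y i)

theorem pd_cont {ψ : E → ℝ} (h : ContDiff ℝ ∞ ψ) (i : Fin 4) : Continuous (pd i ψ) := by
  have h1 : Continuous (fderiv ℝ ψ) := h.continuous_fderiv (by simp)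
  exact h1.clm_apply continuous_const

theorem pd_supp {ψ : E → ℝ} (h : HasCompactSupport ψ) (i : Fin 4) :
    HasCompactSupport (pd i ψ) := by
  have h1 : HasCompactSupport (fderiv ℝ ψ) := h.fderiv (𝕜 := ℝ)
  exact h1.comp_left (g := fun L : E →L[ℝ] ℝ => L (Pi.single i 1)) (by simp)

/-- `3 ψ + x · ∇ψ` -/
noncomputable def kk (ψ : E → ℝ) (x : E) : ℝ := 3 * ψ x + fderiv ℝ ψ x x

theorem clm_sum (L : E →L[ℝ] ℝ) (x : E) : L x = ∑ i, x i * L (Pi.single i 1) := by
  have hx : x = ∑ i, x i • (Pi.single i (1 : ℝ) : E) := by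
    ext k
    rw [Finset.sum_apply]
    simp [Pi.single_apply]
  conv_lhs => rw [hx]
  rw [map_sum]
  refine Finset.sum_congr rfl fun i _ => ?_
  rw [map_smul, smul_eq_mul]

theorem kk_eq (ψ : E → ℝ) (x : E) : kk ψ x = 3 * ψ x + ∑ i, x i * pd i ψ x := by
  rw [kk, clm_sum (fderiv ℝ ψ x) x]
  rfl

theorem kk_cont {ψ : E → ℝ} (h : ContDiff ℝ ∞ ψ) : Continuous (kk ψ) := by
  have h1 : Continuous (fderiv ℝ ψ) := h.continuous_fderiv (by simp)
  exact (continuous_const.mul h.continuous).add (h1.clm_apply continuous_id)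

theorem kk_supp {ψ : E → ℝ} (h : HasCompactSupport ψ) : HasCompactSupport (kk ψ) := by
  refine HasCompactSupport.intro (K := tsupport ψ) h fun x hx => ?_
  have h1 : ψ x = 0 := image_eq_zero_of_notMem_tsupport hx
  have h2 : fderiv ℝ ψ x = 0 :=
    image_eq_zero_of_notMem_tsupport fun hh => hx (tsupport_fderiv_subset ℝ hh)
  rw [kk, h1, h2]
  simp

/-- the weak equation in the scaled variables -/
theorem weak_t {U : Set E} (hU : ∀ x ∈ U, ∀ t : ℝ, 0 < t → t • x ∈ U)
    {f : Fin 4 → E → ℂ} {g : Fin 4 → Fin 4 → E → ℂ} (hW : WeakCurl U f g)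
    {ψ : E → ℝ} (h1 : ContDiff ℝ ∞ ψ) (h2 : HasCompactSupport ψ) (h3 : tsupport ψ ⊆ U)
    {t : ℝ} (ht : 0 < t) (i j : Fin 4) :
    ∫ x, ((t * x i * ψ x : ℝ) : ℂ) * g i j (t • x)
      = -(∫ x, ((ψ x + x i * pd i ψ x : ℝ) : ℂ) * f j (t • x))
        + ∫ x, (((if j = i then ψ x else 0) + x i * pd j ψ x : ℝ) : ℂ) * f i (t • x) := by
  have key := hW i j (tst ψ t i) (tst_contDiff h1 t i) (tst_compact h2 ht i)
    (tst_tsupport hU h3 ht i)
  have hinv : ∀ x : E, t⁻¹ • t • x = x := fun x => inv_smul_smul₀ ht.ne' x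
  have e1 := cov (fun y => (tst ψ t i y : ℂ) * g i j y) ht
  have e2 := cov (fun y => ((pd i (tst ψ t i) y : ℝ) : ℂ) * f j y) ht
  have e3 := cov (fun y => ((pd j (tst ψ t i) y : ℝ) : ℂ) * f i y) ht
  have k1 : ∀ x : E, tst ψ t i (t • x) = t * x i * ψ x := by
    intro x
    change (t • x) i * ψ (t⁻¹ • t • x) = _
    rw [hinv]
    rfl
  have k2 : ∀ x : E, pd i (tst ψ t i) (t • x) = ψ x + x i * pd i ψ x := by
    intro x
    rw [tst_pd h1, if_pos rfl, hinv]
    change ψ x + t * x i * (t⁻¹ * pd i ψ x) = _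
    field_simp
  have k3 : ∀ x : E, pd j (tst ψ t i) (t • x) = (if j = i then ψ x else 0) + x i * pd j ψ x := by
    intro x
    rw [tst_pd h1, hinv]
    change (if j = i then ψ x else 0) + t * x i * (t⁻¹ * pd j ψ x) = _
    field_simp
  simp only [k1] at e1
  simp only [k2] at e2
  simp only [k3] at e3
  rw [e1, e2, e3, key, smul_add, smul_neg]

theorem xpd_cont {ψ : E → ℝ} (h : ContDiff ℝ ∞ ψ) (i j : Fin 4) :
    Continuous fun x : E => x i * pd j ψ x := (continuous_apply i).mul (pd_cont h j)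

theorem xpd_supp {ψ : E → ℝ} (h : HasCompactSupport ψ) (i j : Fin 4) :
    HasCompactSupport fun x : E => x i * pd j ψ x :=
  (pd_supp h j).mul_left (f := fun y : E => y i)

/-- the summed weak equation in the scaled variables -/
theorem weak_sum {U : Set E} (hU : ∀ x ∈ U, ∀ t : ℝ, 0 < t → t • x ∈ U)
    {f : Fin 4 → E → ℂ} {g : Fin 4 → Fin 4 → E → ℂ} (hf : ∀ i, Integrable (f i))
    (hg : ∀ i j, Integrable (g i j)) (hW : WeakCurl U f g)
    {ψ : E → ℝ} (h1 : ContDiff ℝ ∞ ψ) (h2 : HasCompactSupport ψ) (h3 : tsupport ψ ⊆ U)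
    {t : ℝ} (ht : 0 < t) (j : Fin 4) :
    (∫ x, ((pd j ψ x : ℝ) : ℂ) * ∑ i, (x i : ℂ) * f i (t • x))
      - ∫ x, (ψ x : ℂ) * ((t : ℂ) * ∑ i, (x i : ℂ) * g i j (t • x))
      = ∫ x, (kk ψ x : ℂ) * f j (t • x) := by
  have hP := bint (hf j) h1.continuous h2 ht.ne'
  have hQ := fun i => bint (hf j) (xpd_cont h1 i i) (xpd_supp h2 i i) ht.ne'
  have hR := fun i => bint (hf i) (xpd_cont h1 i j) (xpd_supp h2 i j) ht.ne'
  have hG := fun i => bint (b := fun x => t * x i * ψ x) (hg i j)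
    ((continuous_const.mul (continuous_apply i)).mul h1.continuous)
    (h2.mul_left (f := fun y : E => t * y i)) ht.ne'
  have e1 : ∫ x, ((pd j ψ x : ℝ) : ℂ) * ∑ i, (x i : ℂ) * f i (t • x)
      = ∑ i, ∫ x, ((x i * pd j ψ x : ℝ) : ℂ) * f i (t • x) := by
    rw [← integral_finsetSum _ fun i _ => hR i]
    refine integral_congr_ae (Eventually.of_forall fun x => ?_)
    change _ * _ = _
    rw [Finset.mul_sum]
    refine Finset.sum_congr rfl fun i _ => ?_
    push_cast
    ring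
  have e2 : ∫ x, (ψ x : ℂ) * ((t : ℂ) * ∑ i, (x i : ℂ) * g i j (t • x))
      = ∑ i, ∫ x, ((t * x i * ψ x : ℝ) : ℂ) * g i j (t • x) := by
    rw [← integral_finsetSum _ fun i _ => hG i]
    refine integral_congr_ae (Eventually.of_forall fun x => ?_)
    change _ * _ = _
    rw [Finset.mul_sum, Finset.mul_sum]
    refine Finset.sum_congr rfl fun i _ => ?_
    push_cast
    ring
  have e3 : ∫ x, (kk ψ x : ℂ) * f j (t • x) = 3 * (∫ x, (ψ x : ℂ) * f j (t • x))
      + ∑ i, ∫ x, ((x i * pd i ψ x : ℝ) : ℂ) * f j (t • x) := by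
    rw [← integral_finsetSum _ fun i _ => hQ i, ← integral_const_mul, ← integral_add
      (hP.const_mul _) (integrable_finsetSum _ fun i _ => hQ i)]
    refine integral_congr_ae (Eventually.of_forall fun x => ?_)
    change _ * _ = _ + _
    rw [kk_eq, ← Finset.sum_mul]
    push_cast
    ring
  have e4 : ∀ i, ∫ x, ((t * x i * ψ x : ℝ) : ℂ) * g i j (t • x)
      = -((∫ x, (ψ x : ℂ) * f j (t • x)) + ∫ x, ((x i * pd i ψ x : ℝ) : ℂ) * f j (t • x))
        + ((if j = i then (∫ x, (ψ x : ℂ) * f j (t • x)) else 0)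
          + ∫ x, ((x i * pd j ψ x : ℝ) : ℂ) * f i (t • x)) := by
    intro i
    rw [weak_t hU hW h1 h2 h3 ht i j]
    congr 1
    · congr 1
      rw [← integral_add hP (hQ i)]
      refine integral_congr_ae (Eventually.of_forall fun x => ?_)
      change _ * _ = _ + _
      push_cast
      ring
    · by_cases hij : j = i
      · subst hij
        simp only [if_true]
        rw [← integral_add hP (hR j)]
        refine integral_congr_ae (Eventually.of_forall fun x => ?_)
        change _ * _ = _ + _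
        push_cast
        ring
      · simp only [if_neg hij, zero_add]
  rw [e1, e2, e3]
  simp only [e4]
  rw [Finset.sum_add_distrib, Finset.sum_add_distrib, Finset.sum_neg_distrib,
    Finset.sum_add_distrib, Finset.sum_ite_eq, if_pos (Finset.mem_univ _), Finset.sum_const,
    Finset.card_univ, Fintype.card_fin, nsmul_eq_mul]
  push_cast
  ring

/-- the radial integral of the kernel -/
theorem radial {ψ : E → ℝ} (h1 : ContDiff ℝ ∞ ψ) (h2 : HasCompactSupport ψ) (y : E) :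
    ∫ t in Ioi (1 : ℝ), (t ^ 4)⁻¹ * kk ψ (t⁻¹ • y) = ψ y := by
  obtain ⟨C, hC⟩ := (kk_supp h2).exists_bound_of_continuous (kk_cont h1)
  obtain ⟨C', hC'⟩ := h2.exists_bound_of_continuous h1.continuous
  have hd : ∀ t ∈ Ioi (0 : ℝ), HasDerivAt (fun t : ℝ => -((t ^ 3)⁻¹ * ψ (t⁻¹ • y)))
      ((t ^ 4)⁻¹ * kk ψ (t⁻¹ • y)) t := by
    intro t ht
    have ht0 : (0 : ℝ) < t := ht
    have a1 : HasDerivAt (fun t : ℝ => t⁻¹ • y) ((-(t ^ 2)⁻¹) • y) t :=
      (hasDerivAt_inv ht0.ne').smul_const y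
    have a2 : HasFDerivAt ψ (fderiv ℝ ψ (t⁻¹ • y)) (t⁻¹ • y) :=
      (h1.differentiable (by simp) _).hasFDerivAt
    have a3 : HasDerivAt (fun t : ℝ => ψ (t⁻¹ • y)) (fderiv ℝ ψ (t⁻¹ • y) ((-(t ^ 2)⁻¹) • y)) t :=
      a2.comp_hasDerivAt t a1
    have a4 : HasDerivAt (fun t : ℝ => (t ^ 3)⁻¹) (-(((3 : ℕ) : ℝ) * t ^ (3 - 1)) / (t ^ 3) ^ 2) t :=
      (hasDerivAt_pow 3 t).fun_inv (pow_ne_zero 3 ht0.ne')
    have a5 := (a4.mul a3).neg
    have a6 : (fun t : ℝ => -((t ^ 3)⁻¹ * ψ (t⁻¹ • y)))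
        = -((fun t : ℝ => (t ^ 3)⁻¹) * fun t : ℝ => ψ (t⁻¹ • y)) := rfl
    rw [a6]
    refine a5.congr_deriv ?_
    have a7 : fderiv ℝ ψ (t⁻¹ • y) ((-(t ^ 2)⁻¹) • y)
        = -(t⁻¹) * fderiv ℝ ψ (t⁻¹ • y) (t⁻¹ • y) := by
      rw [map_smul, map_smul, smul_eq_mul, smul_eq_mul]
      field_simp
    rw [a7, kk]
    generalize fderiv ℝ ψ (t⁻¹ • y) (t⁻¹ • y) = A
    generalize ψ (t⁻¹ • y) = B
    field_simp
    ring
  have hint : IntegrableOn (fun t : ℝ => (t ^ 4)⁻¹ * kk ψ (t⁻¹ • y)) (Ioi 1) := by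
    refine ((int_pow 4 (by norm_num)).mul_const C).mono' ?_ ?_
    · have : Measurable fun t : ℝ => (t ^ 4)⁻¹ * kk ψ (t⁻¹ • y) :=
        ((measurable_id.pow_const 4).inv).mul
          ((kk_cont h1).measurable.comp ((measurable_id.inv).smul_const y))
      exact this.aestronglyMeasurable
    · filter_upwards [ae_restrict_mem measurableSet_Ioi] with t ht
      have ht0 : (0 : ℝ) < t := zero_lt_one.trans ht
      rw [norm_mul, Real.norm_of_nonneg (by positivity : (0 : ℝ) ≤ (t ^ 4)⁻¹)]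
      exact mul_le_mul_of_nonneg_left (hC _) (by positivity)
  have hlim : Tendsto (fun t : ℝ => -((t ^ 3)⁻¹ * ψ (t⁻¹ • y))) atTop (𝓝 0) := by
    have b1 : Tendsto (fun t : ℝ => (t ^ 3)⁻¹ * C') atTop (𝓝 0) := by
      have := (tendsto_inv_atTop_zero.comp (tendsto_pow_atTop (α := ℝ) (n := 3) (by norm_num))).mul_const C'
      rwa [zero_mul] at this
    refine squeeze_zero_norm' ?_ b1
    filter_upwards [eventually_gt_atTop 0] with t ht
    rw [norm_neg, norm_mul, Real.norm_of_nonneg (by positivity : (0 : ℝ) ≤ (t ^ 3)⁻¹)]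
    exact mul_le_mul_of_nonneg_left (hC' _) (by positivity)
  have := integral_Ioi_of_hasDerivAt_of_tendsto (a := 1)
    (hd 1 (by norm_num : (0 : ℝ) < 1)).continuousAt.continuousWithinAt
    (fun t ht => hd t (zero_lt_one.trans ht : (0 : ℝ) < t)) hint hlim
  rw [this]
  simp

theorem kernel_swap {ψ : E → ℝ} (h1 : ContDiff ℝ ∞ ψ) (h2 : HasCompactSupport ψ) {h : E → ℂ}
    (hi : Integrable h) :
    ∫ t in Ioi (1 : ℝ), ∫ x, (kk ψ x : ℂ) * h (t • x) = ∫ y, (ψ y : ℂ) * h y := by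
  obtain ⟨C, hC⟩ := (kk_supp h2).exists_bound_of_continuous (kk_cont h1)
  have e1 : ∀ t ∈ Ioi (1 : ℝ), ∫ x, (kk ψ x : ℂ) * h (t • x)
      = ∫ y, (((t ^ 4)⁻¹ * kk ψ (t⁻¹ • y) : ℝ) : ℂ) * h y := by
    intro t ht
    have ht0 : (0 : ℝ) < t := zero_lt_one.trans ht
    have := cov (fun y => ((kk ψ (t⁻¹ • y) : ℝ) : ℂ) * h y) ht0
    simp only [inv_smul_smul₀ ht0.ne'] at this
    rw [this, ← integral_smul]
    refine integral_congr_ae (Eventually.of_forall fun x => ?_)
    change _ • _ = _ * _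
    rw [Complex.real_smul]
    push_cast
    ring
  rw [setIntegral_congr_fun measurableSet_Ioi e1]
  have hint : Integrable (Function.uncurry fun (t : ℝ) (y : E) =>
      (((t ^ 4)⁻¹ * kk ψ (t⁻¹ • y) : ℝ) : ℂ) * h y)
      (((volume : Measure ℝ).restrict (Ioi 1)).prod (volume : Measure E)) := by
    have b0 : Integrable (fun t : ℝ => (((t ^ 4)⁻¹ * C : ℝ) : ℂ))
        ((volume : Measure ℝ).restrict (Ioi 1)) :=
      ((int_pow 4 (by norm_num)).mul_const C).ofReal
    have b1 := b0.mul_prod hi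
    refine b1.norm.mono' ?_ ?_
    · refine AEStronglyMeasurable.mul ?_ hi.1.comp_snd
      have : Measurable fun z : ℝ × E => (((z.1 ^ 4)⁻¹ * kk ψ (z.1⁻¹ • z.2) : ℝ) : ℂ) :=
        Complex.measurable_ofReal.comp (((measurable_fst.pow_const 4).inv).mul
          ((kk_cont h1).measurable.comp (measurable_fst.inv.smul measurable_snd)))
      exact this.aestronglyMeasurable
    · have c1 : ∀ᵐ t ∂((volume : Measure ℝ).restrict (Ioi 1)), t ∈ Ioi (1 : ℝ) :=
        ae_restrict_mem measurableSet_Ioi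
      have c2 := (Measure.quasiMeasurePreserving_fst
        (μ := (volume : Measure ℝ).restrict (Ioi 1)) (ν := (volume : Measure E))).ae c1
      filter_upwards [c2] with p hp
      have ht0 : (0 : ℝ) < p.1 := zero_lt_one.trans hp
      change ‖(((p.1 ^ 4)⁻¹ * kk ψ (p.1⁻¹ • p.2) : ℝ) : ℂ) * h p.2‖ ≤ ‖_ * h p.2‖
      rw [norm_mul, norm_mul, Complex.norm_real, Complex.norm_real]
      refine mul_le_mul_of_nonneg_right ?_ (norm_nonneg _)
      rw [norm_mul, norm_mul]
      refine mul_le_mul_of_nonneg_left ?_ (norm_nonneg _)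
      exact (hC _).trans (le_abs_self C)
  rw [integral_integral_swap hint]
  refine integral_congr_ae (Eventually.of_forall fun y => ?_)
  change ∫ t in Ioi (1 : ℝ), (((t ^ 4)⁻¹ * kk ψ (t⁻¹ • y) : ℝ) : ℂ) * h y = (ψ y : ℂ) * h y
  rw [integral_mul_const, integral_complex_ofReal, radial h1 h2 y]

end HomAux

open HomAux in
theorem pHOM : S_HOM := by
  intro U _ hU _ f g hN hW j ψ h1 h2 h3
  have hf : ∀ i, Integrable (f i) := fun i => int_of_nice (hN.lf i) (hN.zf i)
  have hg : ∀ i j, Integrable (g i j) := fun i j => int_of_nice (hN.lg i j) (hN.zg i j)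
  -- integrability on the product
  have IA : Integrable (Function.uncurry fun (t : ℝ) (x : E) =>
      ((pd j ψ x : ℝ) : ℂ) * ∑ i, (x i : ℂ) * f i (t • x))
      (((volume : Measure ℝ).restrict (Ioi 1)).prod (volume : Measure E)) := by
    have : (Function.uncurry fun (t : ℝ) (x : E) =>
        ((pd j ψ x : ℝ) : ℂ) * ∑ i, (x i : ℂ) * f i (t • x))
        = fun p : ℝ × E => ∑ i, ((p.2 i * pd j ψ p.2 : ℝ) : ℂ) * f i (p.1 • p.2) := by
      ext p
      change _ * ∑ i, _ = _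
      rw [Finset.mul_sum]
      refine Finset.sum_congr rfl fun i _ => ?_
      push_cast
      ring
    rw [this]
    refine integrable_finsetSum _ fun i _ => ?_
    obtain ⟨C, hC⟩ := (xpd_supp h2 i j).exists_bound_of_continuous (xpd_cont h1 i j)
    refine prod_int (hN.mf i) (hf i) (b := fun p => ((p.2 i * pd j ψ p.2 : ℝ) : ℂ)) ?_ |C| ?_
    · exact Complex.measurable_ofReal.comp ((xpd_cont h1 i j).measurable.comp measurable_snd)
    · intro t x ht
      change ‖((x i * pd j ψ x : ℝ) : ℂ)‖ ≤ _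
      rw [Complex.norm_real]
      refine (hC x).trans ((le_abs_self C).trans ?_)
      exact le_mul_of_one_le_right (abs_nonneg C) ht.le
  have IB : Integrable (Function.uncurry fun (t : ℝ) (x : E) =>
      (ψ x : ℂ) * ((t : ℂ) * ∑ i, (x i : ℂ) * g i j (t • x)))
      (((volume : Measure ℝ).restrict (Ioi 1)).prod (volume : Measure E)) := by
    have : (Function.uncurry fun (t : ℝ) (x : E) =>
        (ψ x : ℂ) * ((t : ℂ) * ∑ i, (x i : ℂ) * g i j (t • x)))
        = fun p : ℝ × E => ∑ i, ((p.1 * (p.2 i * ψ p.2) : ℝ) : ℂ) * g i j (p.1 • p.2) := by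
      ext p
      change _ * (_ * ∑ i, _) = _
      rw [Finset.mul_sum, Finset.mul_sum]
      refine Finset.sum_congr rfl fun i _ => ?_
      push_cast
      ring
    rw [this]
    refine integrable_finsetSum _ fun i _ => ?_
    have hxc : Continuous fun x : E => x i * ψ x := (continuous_apply i).mul h1.continuous
    obtain ⟨C, hC⟩ := (h2.mul_left (f := fun y : E => y i)).exists_bound_of_continuous hxc
    refine prod_int (hN.mg i j) (hg i j) (b := fun p => ((p.1 * (p.2 i * ψ p.2) : ℝ) : ℂ)) ?_ C ?_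
    · exact Complex.measurable_ofReal.comp (measurable_fst.mul (hxc.measurable.comp measurable_snd))
    · intro t x ht
      change ‖((t * (x i * ψ x) : ℝ) : ℂ)‖ ≤ _
      rw [Complex.norm_real, norm_mul, mul_comm, Real.norm_of_nonneg (zero_lt_one.trans ht).le]
      exact mul_le_mul_of_nonneg_right (hC x) (zero_lt_one.trans ht).le
  have eA : ∫ x, ((pd j ψ x : ℝ) : ℂ) * uu f x
      = -∫ t in Ioi (1 : ℝ), ∫ x, ((pd j ψ x : ℝ) : ℂ) * ∑ i, (x i : ℂ) * f i (t • x) := by
    rw [integral_integral_swap IA, ← integral_neg]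
    refine integral_congr_ae (Eventually.of_forall fun x => ?_)
    change _ * -_ = -_
    rw [mul_neg, ← integral_const_mul]
  have eB : ∫ x, (ψ x : ℂ) * KK g j x
      = -∫ t in Ioi (1 : ℝ), ∫ x, (ψ x : ℂ) * ((t : ℂ) * ∑ i, (x i : ℂ) * g i j (t • x)) := by
    rw [integral_integral_swap IB, ← integral_neg]
    refine integral_congr_ae (Eventually.of_forall fun x => ?_)
    change _ * -_ = -_
    rw [mul_neg, ← integral_const_mul]
  have eC : (∫ t in Ioi (1 : ℝ), ∫ x, ((pd j ψ x : ℝ) : ℂ) * ∑ i, (x i : ℂ) * f i (t • x))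
      - ∫ t in Ioi (1 : ℝ), ∫ x, (ψ x : ℂ) * ((t : ℂ) * ∑ i, (x i : ℂ) * g i j (t • x))
      = ∫ y, (ψ y : ℂ) * f j y := by
    rw [← kernel_swap h1 h2 (hf j)]
    refine (integral_sub IA.integral_prod_left IB.integral_prod_left).symm.trans ?_
    refine setIntegral_congr_fun measurableSet_Ioi fun t ht => ?_
    exact weak_sum hU hf hg hW h1 h2 h3 (zero_lt_one.trans ht) j
  rw [eA, eB, ← eC]
  ring

end Pool.Agent.R435.HT
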