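import Pool.Agent.R435.HT.Defs

open MeasureTheory Set Filter Topology
open scoped ContDiff ENNReal

namespace Pool.Agent.R435.HT

namespace Ix1Aux

theorem measurableSet_hartogs : MeasurableSet hartogs := by
  have h1 : IsOpen hartogs := by
    refine IsOpen.and (isOpen_lt ?_ ?_) (isOpen_lt ?_ ?_) <;> fun_prop
  exact h1.measurableSet

theorem card_aux : ∀ i j : Fin 4, i < j →
    ((({i, j} : Finset (Fin 4)).filter (fun k => k < i)).card = 0 ∧
    (({i, j} : Finset (Fin 4)).filter (fun k => k < j)).card = 1) ∧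
    (({i, j} : Finset (Fin 4)).erase i = {j} ∧ ({i, j} : Finset (Fin 4)).erase j = {i}) := by
  decide

theorem sgn_left {i j : Fin 4} (h : i < j) : sgn {i, j} i = 1 := by
  rw [sgn, (card_aux i j h).1.1, pow_zero]

theorem sgn_right {i j : Fin 4} (h : i < j) : sgn {i, j} j = -1 := by
  rw [sgn, (card_aux i j h).1.2, pow_one]

theorem erase_left {i j : Fin 4} (h : i < j) : ({i, j} : Finset (Fin 4)).erase i = {j} :=
  (card_aux i j h).2.1

theorem erase_right {i j : Fin 4} (h : i < j) : ({i, j} : Finset (Fin 4)).erase j = {i} :=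
  (card_aux i j h).2.2

theorem repr_exists (q : ℕ) (f : Form) (hf : L2Form q f) (I : Finset (Fin 4)) :
    ∃ G : E → ℂ, Measurable G ∧ MemLp G 2 (volume : Measure E) ∧ (∀ x, x ∉ hartogs → G x = 0) ∧
      (I.card = q → G =ᵐ[(volume : Measure E).restrict hartogs] f I) := by
  by_cases hI : I.card = q
  · have h := hf I hI
    obtain ⟨G0, hG0, hG1⟩ := h.1
    refine ⟨hartogs.indicator G0, hG0.measurable.indicator measurableSet_hartogs, ?_, ?_, ?_⟩
    · rw [memLp_indicator_iff_restrict measurableSet_hartogs]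
      exact (memLp_congr_ae hG1).1 h
    · intro x hx
      exact indicator_of_notMem hx _
    · intro _
      refine Filter.EventuallyEq.trans ?_ hG1.symm
      filter_upwards [ae_restrict_mem measurableSet_hartogs] with x hx
      exact indicator_of_mem hx _
  · exact ⟨0, measurable_zero, MemLp.zero, fun x _ => rfl, fun h => absurd h hI⟩

theorem int_eq (G g : E → ℂ) (φ : E → ℝ) (hz : ∀ x, x ∉ hartogs → G x = 0)
    (hG : G =ᵐ[(volume : Measure E).restrict hartogs] g) :
    ∫ x, (φ x : ℂ) * G x = ∫ x in hartogs, (φ x : ℂ) * g x := by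
  rw [← setIntegral_eq_integral_of_forall_compl_eq_zero (s := hartogs)
    (fun x hx => by rw [hz x hx, mul_zero])]
  refine integral_congr_ae ?_
  filter_upwards [hG] with x hx
  rw [hx]

end Ix1Aux

open Ix1Aux in
theorem pIX1 : S_IX1 := by
  intro hP f g hf hg hW
  choose A hA1 hA2 hA3 hA4 using repr_exists 1 f hf
  choose B hB1 hB2 hB3 hB4 using repr_exists 2 g hg
  let f1 : Fin 4 → E → ℂ := fun i => A {i}
  let g1 : Fin 4 → Fin 4 → E → ℂ := fun i j =>
    if i < j then B {i, j} else if j < i then -B {j, i} else 0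
  have hg1lt : ∀ i j, i < j → g1 i j = B {i, j} := fun i j h => if_pos h
  have hg1gt : ∀ i j, j < i → g1 i j = -B {j, i} := fun i j h => by
    change (if i < j then B {i, j} else if j < i then -B {j, i} else 0) = _
    rw [if_neg (lt_asymm h), if_pos h]
  have hg1eq : ∀ i, g1 i i = 0 := fun i => by
    change (if i < i then B {i, i} else if i < i then -B {i, i} else 0) = _
    rw [if_neg (lt_irrefl i), if_neg (lt_irrefl i)]
  have hnice : Nice f1 g1 := by
    refine ⟨fun i => hA1 _, fun i j => ?_, fun i => hA2 _, fun i j => ?_, fun i => hA3 _,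
      fun i j x hx => ?_⟩
    · rcases lt_trichotomy i j with h | h | h
      · rw [hg1lt i j h]; exact hB1 _
      · rw [h, hg1eq]; exact measurable_zero
      · rw [hg1gt i j h]; exact (hB1 _).neg
    · rcases lt_trichotomy i j with h | h | h
      · rw [hg1lt i j h]; exact hB2 _
      · rw [h, hg1eq]; exact MemLp.zero
      · rw [hg1gt i j h]; exact (hB2 _).neg
    · rcases lt_trichotomy i j with h | h | h
      · rw [hg1lt i j h]; exact hB3 _ x hx
      · rw [h, hg1eq]; rfl
      · rw [hg1gt i j h, Pi.neg_apply, hB3 _ x hx, neg_zero]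
  have hcurl_lt : ∀ i j, i < j → ∀ φ : E → ℝ, ContDiff ℝ ∞ φ → HasCompactSupport φ →
      tsupport φ ⊆ hartogs → ∫ x, (φ x : ℂ) * B {i, j} x
      = -(∫ x, ((pd i φ x : ℝ) : ℂ) * f1 j x) + ∫ x, ((pd j φ x : ℝ) : ℂ) * f1 i x := by
    intro i j hij φ h1 h2 h3
    have hc : ({i, j} : Finset (Fin 4)).card = 2 := Finset.card_pair hij.ne
    have := hW {i, j} hc φ h1 h2 h3
    rw [Finset.sum_pair hij.ne, sgn_left hij, sgn_right hij, erase_left hij, erase_right hij] at this
    rw [int_eq _ _ φ (hB3 _) (hB4 _ hc), this,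
      int_eq _ _ (pd i φ) (hA3 _) (hA4 {j} (Finset.card_singleton _)),
      int_eq _ _ (pd j φ) (hA3 _) (hA4 {i} (Finset.card_singleton _))]
    ring
  have hcurl : WeakCurl hartogs f1 g1 := by
    intro i j φ h1 h2 h3
    rcases lt_trichotomy i j with h | h | h
    · rw [hg1lt i j h]
      exact hcurl_lt i j h φ h1 h2 h3
    · subst h
      rw [hg1eq]
      simp
    · rw [hg1gt i j h]
      have := hcurl_lt j i h φ h1 h2 h3
      simp only [Pi.neg_apply, mul_neg]
      rw [integral_neg, this]
      ring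
  have hex := fun ν : ℕ => hP f1 g1 hnice hcurl (1 / ((ν : ℝ) + 1)) (by positivity)
  choose F1 hF1 hF2 hF3 using hex
  have hlim : Tendsto (fun ν : ℕ => ENNReal.ofReal (1 / ((ν : ℝ) + 1))) atTop (𝓝 0) := by
    rw [← ENNReal.ofReal_zero]
    exact ENNReal.tendsto_ofReal tendsto_one_div_add_atTop_nhds_zero_nat
  let F : ℕ → Form := fun ν I x => ∑ i, if I = {i} then F1 ν i x else 0
  have hFs : ∀ ν i, F ν {i} = F1 ν i := by
    intro ν i
    ext x
    change (∑ k, if ({i} : Finset (Fin 4)) = {k} then F1 ν k x else 0) = F1 ν i x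
    rw [Finset.sum_eq_single i]
    · rw [if_pos rfl]
    · intro k _ hk
      rw [if_neg]
      intro h
      exact hk (Finset.singleton_injective h).symm
    · intro h
      exact absurd (Finset.mem_univ i) h
  refine ⟨F, ?_, ?_, ?_⟩
  · intro ν I hI
    obtain ⟨i, rfl⟩ := Finset.card_eq_one.1 hI
    rw [hFs]
    exact hF1 ν i
  · intro I hI
    obtain ⟨i, rfl⟩ := Finset.card_eq_one.1 hI
    refine tendsto_of_tendsto_of_tendsto_of_le_of_le tendsto_const_nhds hlim
      (fun ν => bot_le) fun ν => ?_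
    refine le_trans (le_of_eq ?_) (hF2 ν i)
    refine eLpNorm_congr_ae ?_
    filter_upwards [hA4 {i} hI] with x hx
    rw [Pi.sub_apply, Pi.sub_apply, hFs, ← hx]
  · intro J hJ
    obtain ⟨a, b, hab, rfl⟩ := Finset.card_eq_two.1 hJ
    have key : ∀ i j : Fin 4, i < j → Tendsto (fun ν => eLpNorm (dC (F ν) {i, j} - g {i, j}) 2
      ((volume : Measure E).restrict hartogs)) atTop (𝓝 0) := by
      intro i j hij
      have hc : ({i, j} : Finset (Fin 4)).card = 2 := Finset.card_pair hij.ne
      refine tendsto_of_tendsto_of_tendsto_of_le_of_le tendsto_const_nhds hlim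
        (fun ν => bot_le) fun ν => ?_
      refine le_trans (le_of_eq ?_) (hF3 ν i j)
      refine eLpNorm_congr_ae ?_
      filter_upwards [hB4 {i, j} hc] with x hx
      rw [Pi.sub_apply, hg1lt i j hij, ← hx, dC, Finset.sum_pair hij.ne, sgn_left hij,
        sgn_right hij, erase_left hij, erase_right hij, hFs, hFs]
      ring
    rcases lt_or_gt_of_ne hab with h | h
    · exact key a b h
    · rw [Finset.pair_comm]
      exact key b a h

end Pool.Agent.R435.HT
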