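import Pool.Agent.R435.HT.Defs

/-!
# HT-IX2: from the internal form to two-forms (helper662, for project HT of helper435)
-/

set_option autoImplicit false

open MeasureTheory Set Filter Topology
open scoped ContDiff ENNReal

namespace Pool.Agent.R435.HT.IX2

open Pool.Agent.R435.HT

/-- the measure on the Hartogs triangle -/
noncomputable abbrev mu : Measure E := (volume : Measure E).restrict hartogs

theorem isOpen_hartogs : IsOpen hartogs := by
  have h1 : IsOpen {x : E | x 0 ^ 2 + x 1 ^ 2 < x 2 ^ 2 + x 3 ^ 2} :=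
    isOpen_lt (by fun_prop) (by fun_prop)
  have h2 : IsOpen {x : E | x 2 ^ 2 + x 3 ^ 2 < 1} := isOpen_lt (by fun_prop) (by fun_prop)
  exact h1.inter h2

theorem meas_hartogs : MeasurableSet hartogs := isOpen_hartogs.measurableSet

theorem hartogs_sub : hartogs ⊆ Metric.closedBall (0 : E) 1 := by
  intro x hx
  rw [mem_closedBall_zero_iff, pi_norm_le_iff_of_nonneg zero_le_one]
  obtain ⟨h1, h2⟩ := hx
  have h : ∀ i : Fin 4, x i ^ 2 ≤ 1 := by
    intro i
    have e0 := sq_nonneg (x 0)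
    have e1 := sq_nonneg (x 1)
    have e2 := sq_nonneg (x 2)
    have e3 := sq_nonneg (x 3)
    fin_cases i
    · show x 0 ^ 2 ≤ 1
      linarith
    · show x 1 ^ 2 ≤ 1
      linarith
    · show x 2 ^ 2 ≤ 1
      linarith
    · show x 3 ^ 2 ≤ 1
      linarith
  intro i
  rw [Real.norm_eq_abs]
  exact (sq_le_one_iff_abs_le_one _).1 (h i)

instance : IsFiniteMeasure mu := ⟨by
  rw [Measure.restrict_apply_univ]
  exact (measure_mono hartogs_sub).trans_lt (isCompact_closedBall _ _).measure_lt_top⟩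

theorem memLp_cont {h : E → ℂ} (hh : Continuous h) : MemLp h 2 mu := by
  obtain ⟨C, hC⟩ := (isCompact_closedBall (0 : E) 1).exists_bound_of_continuousOn hh.continuousOn
  exact MemLp.of_bound hh.aestronglyMeasurable C ((ae_restrict_iff' meas_hartogs).2
    (Eventually.of_forall fun x hx => hC x (hartogs_sub hx)))

theorem pd_cont {F : Type} [NormedAddCommGroup F] [NormedSpace ℝ F] {h : E → F}
    (hh : ContDiff ℝ ∞ h) (i : Fin 4) : Continuous (pd i h) := by
  unfold pd
  exact (hh.continuous_fderiv (by simp)).clm_apply continuous_const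

theorem pd_ofReal {φ : E → ℝ} (hφ : ContDiff ℝ ∞ φ) (i : Fin 4) (x : E) :
    pd i (fun x => (φ x : ℂ)) x = ((pd i φ x : ℝ) : ℂ) := by
  unfold pd
  have h1 : HasFDerivAt φ (fderiv ℝ φ x) x := (hφ.differentiable (by simp) x).hasFDerivAt
  have h2 : HasFDerivAt (fun x => (φ x : ℂ)) (Complex.ofRealCLM.comp (fderiv ℝ φ x)) x :=
    Complex.ofRealCLM.hasFDerivAt.comp x h1
  rw [h2.fderiv]
  rfl

theorem pd_re {ψ : E → ℂ} (hψ : ContDiff ℝ ∞ ψ) (i : Fin 4) (x : E) :
    pd i (fun x => (ψ x).re) x = (pd i ψ x).re := by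
  unfold pd
  have h1 : HasFDerivAt ψ (fderiv ℝ ψ x) x := (hψ.differentiable (by simp) x).hasFDerivAt
  have h2 : HasFDerivAt (fun x => (ψ x).re) (Complex.reCLM.comp (fderiv ℝ ψ x)) x :=
    Complex.reCLM.hasFDerivAt.comp x h1
  rw [h2.fderiv]
  rfl

theorem pd_im {ψ : E → ℂ} (hψ : ContDiff ℝ ∞ ψ) (i : Fin 4) (x : E) :
    pd i (fun x => (ψ x).im) x = (pd i ψ x).im := by
  unfold pd
  have h1 : HasFDerivAt ψ (fderiv ℝ ψ x) x := (hψ.differentiable (by simp) x).hasFDerivAt
  have h2 : HasFDerivAt (fun x => (ψ x).im) (Complex.imCLM.comp (fderiv ℝ ψ x)) x :=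
    Complex.imCLM.hasFDerivAt.comp x h1
  rw [h2.fderiv]
  rfl

theorem pd_add {u v : E → ℂ} (hu : ContDiff ℝ ∞ u) (hv : ContDiff ℝ ∞ v) (i : Fin 4) (x : E) :
    pd i (u + v) x = pd i u x + pd i v x := by
  unfold pd
  rw [fderiv_add (hu.differentiable (by simp) x) (hv.differentiable (by simp) x)]
  rfl

theorem pd_mul {u : E → ℂ} (hu : ContDiff ℝ ∞ u) (c : ℂ) (i : Fin 4) (x : E) :
    pd i (fun x => c * u x) x = c * pd i u x := by
  unfold pd
  rw [fderiv_const_mul (hu.differentiable (by simp) x)]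
  rfl

theorem pd_zero (i : Fin 4) (x : E) : pd i (0 : E → ℂ) x = 0 := by
  unfold pd
  rw [fderiv_zero]
  rfl

/-! ### sums over index sets -/

/-- the index sets of cardinality two and three -/
def S10 : Finset (Finset (Fin 4)) := {{2, 3}, {1, 3}, {1, 2}, {0, 3}, {0, 2}, {0, 1}, {1, 2, 3}, {0, 2, 3}, {0, 1, 3}, {0, 1, 2}}

theorem sum10 (T : Finset (Fin 4) → ℂ) (hT : ∀ I, I.card ≠ 2 → I.card ≠ 3 → T I = 0) :
    ∑ I, T I = T {2, 3} + T {1, 3} + T {1, 2} + T {0, 3} + T {0, 2} +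
      T {0, 1} + T {1, 2, 3} + T {0, 2, 3} + T {0, 1, 3} + T {0, 1, 2} := by
  have h1 : ∑ I, T I = ∑ I ∈ S10, T I := by
    symm
    apply Finset.sum_subset (Finset.subset_univ _)
    intro I _ hI
    have h2 : ∀ I : Finset (Fin 4), I ∉ S10 → I.card ≠ 2 ∧ I.card ≠ 3 := by decide
    exact hT I (h2 I hI).1 (h2 I hI).2
  rw [h1, S10, Finset.sum_insert (by decide), Finset.sum_insert (by decide),
    Finset.sum_insert (by decide), Finset.sum_insert (by decide), Finset.sum_insert (by decide),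
    Finset.sum_insert (by decide), Finset.sum_insert (by decide), Finset.sum_insert (by decide),
    Finset.sum_insert (by decide), Finset.sum_singleton]
  ring

theorem sum3 (p q r : Fin 4) (hpq : p < q) (hqr : q < r) (X : Fin 4 → Finset (Fin 4) → ℂ) :
    ∑ i ∈ ({p, q, r} : Finset (Fin 4)), sgn {p, q, r} i *
      X i (({p, q, r} : Finset (Fin 4)).erase i) = X p {q, r} - X q {p, r} + X r {p, q} := by
  have h : ∀ p q r : Fin 4, p < q → q < r →
      (({p, q, r} : Finset (Fin 4)).filter (fun j => j < p)).card = 0 ∧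
      (({p, q, r} : Finset (Fin 4)).filter (fun j => j < q)).card = 1 ∧
      (({p, q, r} : Finset (Fin 4)).filter (fun j => j < r)).card = 2 ∧
      ({p, q, r} : Finset (Fin 4)).erase p = {q, r} ∧
      ({p, q, r} : Finset (Fin 4)).erase q = {p, r} ∧
      ({p, q, r} : Finset (Fin 4)).erase r = {p, q} ∧
      p ∉ ({q, r} : Finset (Fin 4)) ∧ q ∉ ({r} : Finset (Fin 4)) := by decide
  obtain ⟨h1, h2, h3, h4, h5, h6, h7, h8⟩ := h p q r hpq hqr
  rw [Finset.sum_insert h7, Finset.sum_insert h8, Finset.sum_singleton, h4, h5, h6]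
  unfold sgn
  rw [h1, h2, h3]
  ring

/-! ### the space of test forms -/

/-- the family of a smooth form -/
noncomputable def fam (F : Form) : Finset (Fin 4) → E → ℂ := fun I =>
  if I.card = 2 then F I else if I.card = 3 then dC F I else 0

/-- the families of the smooth forms -/
def WW : Set (Finset (Fin 4) → E → ℂ) := {G | ∃ F : Form, (∀ I, ContDiff ℝ ∞ (F I)) ∧ G = fam F}

theorem dC_cont {F : Form} (hF : ∀ I, ContDiff ℝ ∞ (F I)) (J : Finset (Fin 4)) :
    Continuous (dC F J) := by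
  unfold dC
  exact continuous_finsetSum _ fun i _ => continuous_const.mul (pd_cont (hF _) i)

theorem fam_cont {F : Form} (hF : ∀ I, ContDiff ℝ ∞ (F I)) (I : Finset (Fin 4)) :
    Continuous (fam F I) := by
  unfold fam
  split_ifs
  · exact (hF I).continuous
  · exact dC_cont hF I
  · exact continuous_const

theorem fam_add {F G : Form} (hF : ∀ I, ContDiff ℝ ∞ (F I)) (hG : ∀ I, ContDiff ℝ ∞ (G I)) :
    fam F + fam G = fam (F + G) := by
  funext I
  have h1 : (fam F + fam G) I = fam F I + fam G I := rfl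
  rw [h1]
  unfold fam
  split_ifs
  · rfl
  · funext x
    simp only [Pi.add_apply]
    unfold dC
    rw [← Finset.sum_add_distrib]
    refine Finset.sum_congr rfl fun i _ => ?_
    rw [show (F + G) (I.erase i) = F (I.erase i) + G (I.erase i) from rfl,
      pd_add (hF _) (hG _)]
    ring
  · simp

theorem fam_mul {F : Form} (hF : ∀ I, ContDiff ℝ ∞ (F I)) (c : ℂ) :
    (fun I x => c * fam F I x) = fam (fun I x => c * F I x) := by
  funext I
  unfold fam
  split_ifs
  · rfl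
  · funext x
    unfold dC
    rw [Finset.mul_sum]
    refine Finset.sum_congr rfl fun i _ => ?_
    rw [pd_mul (hF _)]
    ring
  · funext x
    simp

theorem ww_mem {G : Finset (Fin 4) → E → ℂ} (hG : G ∈ WW) (I : Finset (Fin 4)) :
    MemLp (G I) 2 mu := by
  obtain ⟨F, hF, rfl⟩ := hG
  exact memLp_cont (fam_cont hF I)

/-! ### the weak equation with complex test functions -/

theorem weakC {f g : Form} (hf : L2Form 2 f) (hg : L2Form 3 g) (h : WeakD 2 f g)
    (J : Finset (Fin 4)) (hJ : J.card = 3) (ψ : E → ℂ) (hψ : ContDiff ℝ ∞ ψ)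
    (hc : HasCompactSupport ψ) (hs : tsupport ψ ⊆ hartogs) :
    ∫ x, ψ x * g J x ∂mu = -∑ i ∈ J, sgn J i * ∫ x, pd i ψ x * f (J.erase i) x ∂mu := by
  have r1 : ContDiff ℝ ∞ (fun x => (ψ x).re) := Complex.reCLM.contDiff.comp hψ
  have r2 : ContDiff ℝ ∞ (fun x => (ψ x).im) := Complex.imCLM.contDiff.comp hψ
  have c1 : HasCompactSupport (fun x => (ψ x).re) :=
    hc.comp_left (g := Complex.re) Complex.zero_re
  have c2 : HasCompactSupport (fun x => (ψ x).im) :=
    hc.comp_left (g := Complex.im) Complex.zero_im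
  have t1 : tsupport (fun x => (ψ x).re) ⊆ hartogs :=
    (tsupport_comp_subset (g := Complex.re) Complex.zero_re ψ).trans hs
  have t2 : tsupport (fun x => (ψ x).im) ⊆ hartogs :=
    (tsupport_comp_subset (g := Complex.im) Complex.zero_im ψ).trans hs
  have h1 := h J (by rw [hJ]) _ r1 c1 t1
  have h2 := h J (by rw [hJ]) _ r2 c2 t2
  have int1 : ∀ (φ : E → ℝ) (u : E → ℂ), Continuous φ → MemLp u 2 mu →
      Integrable (fun x => (φ x : ℂ) * u x) mu := by
    intro φ u hφ hu
    exact (memLp_cont (Complex.continuous_ofReal.comp hφ)).integrable_mul hu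
  have e0 : ∫ x, ψ x * g J x ∂mu = (∫ x, (((ψ x).re : ℝ) : ℂ) * g J x ∂mu) +
      Complex.I * ∫ x, (((ψ x).im : ℝ) : ℂ) * g J x ∂mu := by
    rw [← integral_const_mul, ← integral_add (int1 _ _ r1.continuous (hg J hJ))
      ((int1 _ _ r2.continuous (hg J hJ)).const_mul _)]
    refine integral_congr_ae (Eventually.of_forall fun x => ?_)
    show ψ x * g J x = (((ψ x).re : ℝ) : ℂ) * g J x +
      Complex.I * ((((ψ x).im : ℝ) : ℂ) * g J x)
    conv_lhs => rw [← Complex.re_add_im (ψ x)]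
    ring
  have ei : ∀ i ∈ J, ∫ x, pd i ψ x * f (J.erase i) x ∂mu =
      (∫ x, ((pd i (fun x => (ψ x).re) x : ℝ) : ℂ) * f (J.erase i) x ∂mu) +
      Complex.I * ∫ x, ((pd i (fun x => (ψ x).im) x : ℝ) : ℂ) * f (J.erase i) x ∂mu := by
    intro i hi
    have hcard : (J.erase i).card = 2 := by rw [Finset.card_erase_of_mem hi, hJ]
    rw [← integral_const_mul, ← integral_add (int1 _ _ (pd_cont r1 i) (hf _ hcard))
      ((int1 _ _ (pd_cont r2 i) (hf _ hcard)).const_mul _)]
    refine integral_congr_ae (Eventually.of_forall fun x => ?_)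
    show pd i ψ x * f (J.erase i) x = ((pd i (fun x => (ψ x).re) x : ℝ) : ℂ) * f (J.erase i) x +
      Complex.I * (((pd i (fun x => (ψ x).im) x : ℝ) : ℂ) * f (J.erase i) x)
    rw [pd_re hψ, pd_im hψ]
    conv_lhs => rw [← Complex.re_add_im (pd i ψ x)]
    ring
  have hsum : ∑ i ∈ J, sgn J i * ∫ x, pd i ψ x * f (J.erase i) x ∂mu = ∑ i ∈ J, (sgn J i *
      (∫ x, ((pd i (fun x => (ψ x).re) x : ℝ) : ℂ) * f (J.erase i) x ∂mu) +
      Complex.I * (sgn J i *
        ∫ x, ((pd i (fun x => (ψ x).im) x : ℝ) : ℂ) * f (J.erase i) x ∂mu)) :=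
    Finset.sum_congr rfl fun i hi => by rw [ei i hi]; ring
  rw [e0, h1, h2, hsum, Finset.sum_add_distrib, ← Finset.mul_sum]
  ring

/-- the Cauchy-Schwarz inequality -/
theorem cs {u v : E → ℂ} (hu : MemLp u 2 mu) (hv : MemLp v 2 mu) :
    ‖∫ x, u x * v x ∂mu‖ ≤ (eLpNorm u 2 mu).toReal * (eLpNorm v 2 mu).toReal := by
  rw [← ENNReal.toReal_mul]
  have h1 : ‖∫ x, u x * v x ∂mu‖ₑ ≤ eLpNorm u 2 mu * eLpNorm v 2 mu := by
    refine (enorm_integral_le_lintegral_enorm _).trans ?_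
    have h2 := eLpNorm_smul_le_mul_eLpNorm (p := 2) (q := 2) (r := 1) hv.1 hu.1
    rw [eLpNorm_one_eq_lintegral_enorm] at h2
    exact h2
  rw [← toReal_enorm]
  exact ENNReal.toReal_mono (ENNReal.mul_ne_top hu.2.ne hv.2.ne) h1

/-- the family of a one-form and its exterior derivative -/
noncomputable def fb (B : Fin 4 → E → ℂ) (A : Fin 4 → Fin 4 → E → ℂ) : Finset (Fin 4) → E → ℂ :=
  fun I =>
    if I = {1, 2, 3} then B 0
    else if I = {0, 2, 3} then -B 1
    else if I = {0, 1, 3} then B 2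
    else if I = {0, 1, 2} then -B 3
    else if I = {2, 3} then -A 0 1
    else if I = {1, 3} then A 0 2
    else if I = {1, 2} then -A 0 3
    else if I = {0, 3} then -A 1 2
    else if I = {0, 2} then A 1 3
    else if I = {0, 1} then -A 2 3
    else 0

theorem fb_123 (B : Fin 4 → E → ℂ) (A : Fin 4 → Fin 4 → E → ℂ) :
    fb B A {1, 2, 3} = B 0 := by
  unfold fb
  rw [if_pos rfl]

theorem fb_023 (B : Fin 4 → E → ℂ) (A : Fin 4 → Fin 4 → E → ℂ) :
    fb B A {0, 2, 3} = -B 1 := by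
  unfold fb
  rw [if_neg (by decide), if_pos rfl]

theorem fb_013 (B : Fin 4 → E → ℂ) (A : Fin 4 → Fin 4 → E → ℂ) :
    fb B A {0, 1, 3} = B 2 := by
  unfold fb
  rw [if_neg (by decide), if_neg (by decide), if_pos rfl]

theorem fb_012 (B : Fin 4 → E → ℂ) (A : Fin 4 → Fin 4 → E → ℂ) :
    fb B A {0, 1, 2} = -B 3 := by
  unfold fb
  rw [if_neg (by decide), if_neg (by decide), if_neg (by decide), if_pos rfl]

theorem fb_23 (B : Fin 4 → E → ℂ) (A : Fin 4 → Fin 4 → E → ℂ) :
    fb B A {2, 3} = -A 0 1 := by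
  unfold fb
  rw [if_neg (by decide), if_neg (by decide), if_neg (by decide), if_neg (by decide), if_pos rfl]

theorem fb_13 (B : Fin 4 → E → ℂ) (A : Fin 4 → Fin 4 → E → ℂ) :
    fb B A {1, 3} = A 0 2 := by
  unfold fb
  rw [if_neg (by decide), if_neg (by decide), if_neg (by decide), if_neg (by decide), if_neg (by decide), if_pos rfl]

theorem fb_12 (B : Fin 4 → E → ℂ) (A : Fin 4 → Fin 4 → E → ℂ) :
    fb B A {1, 2} = -A 0 3 := by
  unfold fb
  rw [if_neg (by decide), if_neg (by decide), if_neg (by decide), if_neg (by decide), if_neg (by decide), if_neg (by decide), if_pos rfl]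

theorem fb_03 (B : Fin 4 → E → ℂ) (A : Fin 4 → Fin 4 → E → ℂ) :
    fb B A {0, 3} = -A 1 2 := by
  unfold fb
  rw [if_neg (by decide), if_neg (by decide), if_neg (by decide), if_neg (by decide), if_neg (by decide), if_neg (by decide), if_neg (by decide), if_pos rfl]

theorem fb_02 (B : Fin 4 → E → ℂ) (A : Fin 4 → Fin 4 → E → ℂ) :
    fb B A {0, 2} = A 1 3 := by
  unfold fb
  rw [if_neg (by decide), if_neg (by decide), if_neg (by decide), if_neg (by decide), if_neg (by decide), if_neg (by decide), if_neg (by decide), if_neg (by decide), if_pos rfl]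

theorem fb_01 (B : Fin 4 → E → ℂ) (A : Fin 4 → Fin 4 → E → ℂ) :
    fb B A {0, 1} = -A 2 3 := by
  unfold fb
  rw [if_neg (by decide), if_neg (by decide), if_neg (by decide), if_neg (by decide), if_neg (by decide), if_neg (by decide), if_neg (by decide), if_neg (by decide), if_neg (by decide), if_pos rfl]

theorem fb_close {B B' : Fin 4 → E → ℂ} {A A' : Fin 4 → Fin 4 → E → ℂ} {e : ℝ≥0∞}
    (hB : ∀ i, eLpNorm (B' i - B i) 2 mu ≤ e)
    (hA : ∀ i j, eLpNorm (A' i j - A i j) 2 mu ≤ e) (I : Finset (Fin 4)) :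
    eLpNorm (fb B A I - fb B' A' I) 2 mu ≤ e := by
  have s1 : ∀ u v : E → ℂ, eLpNorm (v - u) 2 mu ≤ e → eLpNorm (u - v) 2 mu ≤ e := by
    intro u v h
    rwa [← neg_sub, eLpNorm_neg]
  have s2 : ∀ u v : E → ℂ, eLpNorm (v - u) 2 mu ≤ e → eLpNorm (-u - -v) 2 mu ≤ e := by
    intro u v h
    rwa [show -u - -v = v - u by ring]
  unfold fb
  by_cases h0 : I = {1, 2, 3}
  · rw [if_pos h0, if_pos h0]
    exact s1 _ _ (hB 0)
  rw [if_neg h0, if_neg h0]
  by_cases h1 : I = {0, 2, 3}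
  · rw [if_pos h1, if_pos h1]
    exact s2 _ _ (hB 1)
  rw [if_neg h1, if_neg h1]
  by_cases h2 : I = {0, 1, 3}
  · rw [if_pos h2, if_pos h2]
    exact s1 _ _ (hB 2)
  rw [if_neg h2, if_neg h2]
  by_cases h3 : I = {0, 1, 2}
  · rw [if_pos h3, if_pos h3]
    exact s2 _ _ (hB 3)
  rw [if_neg h3, if_neg h3]
  by_cases h4 : I = {2, 3}
  · rw [if_pos h4, if_pos h4]
    exact s2 _ _ (hA 0 1)
  rw [if_neg h4, if_neg h4]
  by_cases h5 : I = {1, 3}
  · rw [if_pos h5, if_pos h5]
    exact s1 _ _ (hA 0 2)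
  rw [if_neg h5, if_neg h5]
  by_cases h6 : I = {1, 2}
  · rw [if_pos h6, if_pos h6]
    exact s2 _ _ (hA 0 3)
  rw [if_neg h6, if_neg h6]
  by_cases h7 : I = {0, 3}
  · rw [if_pos h7, if_pos h7]
    exact s2 _ _ (hA 1 2)
  rw [if_neg h7, if_neg h7]
  by_cases h8 : I = {0, 2}
  · rw [if_pos h8, if_pos h8]
    exact s1 _ _ (hA 1 3)
  rw [if_neg h8, if_neg h8]
  by_cases h9 : I = {0, 1}
  · rw [if_pos h9, if_pos h9]
    exact s2 _ _ (hA 2 3)
  rw [if_neg h9, if_neg h9]
  simp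

theorem fb_memLp {B : Fin 4 → E → ℂ} {A : Fin 4 → Fin 4 → E → ℂ} (hB : ∀ i, MemLp (B i) 2 mu)
    (hA : ∀ i j, MemLp (A i j) 2 mu) (I : Finset (Fin 4)) : MemLp (fb B A I) 2 mu := by
  unfold fb
  split_ifs
  · exact hB 0
  · exact (hB 1).neg
  · exact hB 2
  · exact (hB 3).neg
  · exact (hA 0 1).neg
  · exact hA 0 2
  · exact (hA 0 3).neg
  · exact (hA 1 2).neg
  · exact hA 1 3
  · exact (hA 2 3).neg
  · exact MemLp.zero

theorem dC_123 (F : Form) (x : E) : dC F {1, 2, 3} x =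
    pd 1 (F {2, 3}) x - pd 2 (F {1, 3}) x + pd 3 (F {1, 2}) x :=
  sum3 1 2 3 (by decide) (by decide) fun i I => pd i (F I) x

theorem dC_023 (F : Form) (x : E) : dC F {0, 2, 3} x =
    pd 0 (F {2, 3}) x - pd 2 (F {0, 3}) x + pd 3 (F {0, 2}) x :=
  sum3 0 2 3 (by decide) (by decide) fun i I => pd i (F I) x

theorem dC_013 (F : Form) (x : E) : dC F {0, 1, 3} x =
    pd 0 (F {1, 3}) x - pd 1 (F {0, 3}) x + pd 3 (F {0, 1}) x :=
  sum3 0 1 3 (by decide) (by decide) fun i I => pd i (F I) x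

theorem dC_012 (F : Form) (x : E) : dC F {0, 1, 2} x =
    pd 0 (F {1, 2}) x - pd 1 (F {0, 2}) x + pd 2 (F {0, 1}) x :=
  sum3 0 1 2 (by decide) (by decide) fun i I => pd i (F I) x

theorem orth_rel {b : Finset (Fin 4) → E → ℂ}
    (hb : ∀ G ∈ WW, ∑ I, ∫ x, b I x * G I x ∂mu = 0) (F : Form) (hF : ∀ I, ContDiff ℝ ∞ (F I)) :
    (∫ x, b {2, 3} x * F {2, 3} x ∂mu) +
    (∫ x, b {1, 3} x * F {1, 3} x ∂mu) +
    (∫ x, b {1, 2} x * F {1, 2} x ∂mu) +
    (∫ x, b {0, 3} x * F {0, 3} x ∂mu) +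
    (∫ x, b {0, 2} x * F {0, 2} x ∂mu) +
    (∫ x, b {0, 1} x * F {0, 1} x ∂mu) +
    (∫ x, b {1, 2, 3} x * (pd 1 (F {2, 3}) x - pd 2 (F {1, 3}) x + pd 3 (F {1, 2}) x) ∂mu) +
    (∫ x, b {0, 2, 3} x * (pd 0 (F {2, 3}) x - pd 2 (F {0, 3}) x + pd 3 (F {0, 2}) x) ∂mu) +
    (∫ x, b {0, 1, 3} x * (pd 0 (F {1, 3}) x - pd 1 (F {0, 3}) x + pd 3 (F {0, 1}) x) ∂mu) +
    (∫ x, b {0, 1, 2} x * (pd 0 (F {1, 2}) x - pd 1 (F {0, 2}) x + pd 2 (F {0, 1}) x) ∂mu) = 0 := by
  have h := hb _ ⟨F, hF, rfl⟩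
  rw [sum10 _ (by
    intro I h2 h3
    unfold fam
    rw [if_neg h2, if_neg h3]
    simp)] at h
  have e23 : fam F {2, 3} = F {2, 3} := by
    unfold fam
    rw [if_pos (by decide)]
  have e13 : fam F {1, 3} = F {1, 3} := by
    unfold fam
    rw [if_pos (by decide)]
  have e12 : fam F {1, 2} = F {1, 2} := by
    unfold fam
    rw [if_pos (by decide)]
  have e03 : fam F {0, 3} = F {0, 3} := by
    unfold fam
    rw [if_pos (by decide)]
  have e02 : fam F {0, 2} = F {0, 2} := by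
    unfold fam
    rw [if_pos (by decide)]
  have e01 : fam F {0, 1} = F {0, 1} := by
    unfold fam
    rw [if_pos (by decide)]
  have e123 : fam F {1, 2, 3} = dC F {1, 2, 3} := by
    unfold fam
    rw [if_neg (by decide), if_pos (by decide)]
  have e023 : fam F {0, 2, 3} = dC F {0, 2, 3} := by
    unfold fam
    rw [if_neg (by decide), if_pos (by decide)]
  have e013 : fam F {0, 1, 3} = dC F {0, 1, 3} := by
    unfold fam
    rw [if_neg (by decide), if_pos (by decide)]
  have e012 : fam F {0, 1, 2} = dC F {0, 1, 2} := by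
    unfold fam
    rw [if_neg (by decide), if_pos (by decide)]
  rw [e23, e13, e12, e03, e02, e01, e123, e023, e013, e012] at h
  simp only [dC_123, dC_023, dC_013, dC_012] at h
  exact h

theorem rels {b : Finset (Fin 4) → E → ℂ}
    (hb : ∀ G ∈ WW, ∑ I, ∫ x, b I x * G I x ∂mu = 0) {φ : E → ℝ} (hφ : ContDiff ℝ ∞ φ) :
    ((∫ x, b {2, 3} x * (φ x : ℂ) ∂mu) + ∫ x, b {0, 2, 3} x * ((pd 0 φ x : ℝ) : ℂ) ∂mu + ∫ x, b {1, 2, 3} x * ((pd 1 φ x : ℝ) : ℂ) ∂mu = 0) ∧
    ((∫ x, b {1, 3} x * (φ x : ℂ) ∂mu) + ∫ x, b {0, 1, 3} x * ((pd 0 φ x : ℝ) : ℂ) ∂mu - ∫ x, b {1, 2, 3} x * ((pd 2 φ x : ℝ) : ℂ) ∂mu = 0) ∧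
    ((∫ x, b {1, 2} x * (φ x : ℂ) ∂mu) + ∫ x, b {0, 1, 2} x * ((pd 0 φ x : ℝ) : ℂ) ∂mu + ∫ x, b {1, 2, 3} x * ((pd 3 φ x : ℝ) : ℂ) ∂mu = 0) ∧
    ((∫ x, b {0, 3} x * (φ x : ℂ) ∂mu) - ∫ x, b {0, 1, 3} x * ((pd 1 φ x : ℝ) : ℂ) ∂mu - ∫ x, b {0, 2, 3} x * ((pd 2 φ x : ℝ) : ℂ) ∂mu = 0) ∧
    ((∫ x, b {0, 2} x * (φ x : ℂ) ∂mu) - ∫ x, b {0, 1, 2} x * ((pd 1 φ x : ℝ) : ℂ) ∂mu + ∫ x, b {0, 2, 3} x * ((pd 3 φ x : ℝ) : ℂ) ∂mu = 0) ∧
    ((∫ x, b {0, 1} x * (φ x : ℂ) ∂mu) + ∫ x, b {0, 1, 2} x * ((pd 2 φ x : ℝ) : ℂ) ∂mu + ∫ x, b {0, 1, 3} x * ((pd 3 φ x : ℝ) : ℂ) ∂mu = 0) := by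
  have key : ∀ I0 : Finset (Fin 4), ∃ F : Form, (∀ I, ContDiff ℝ ∞ (F I)) ∧
      F I0 = (fun x => (φ x : ℂ)) ∧ ∀ I, I ≠ I0 → F I = 0 := by
    intro I0
    classical
    refine ⟨fun I => if I = I0 then (fun x => (φ x : ℂ)) else 0, ?_, if_pos rfl,
      fun I hI => if_neg hI⟩
    intro I
    by_cases h : I = I0
    · simp only [h, if_true]
      exact Complex.ofRealCLM.contDiff.comp hφ
    · simp only [h, if_false]
      exact contDiff_const
  refine ⟨?_, ?_, ?_, ?_, ?_, ?_⟩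
  · obtain ⟨F, hF, h1, h2⟩ := key {2, 3}
    have h := orth_rel hb F hF
    rw [h1, h2 {1, 3} (by decide), h2 {1, 2} (by decide), h2 {0, 3} (by decide), h2 {0, 2} (by decide), h2 {0, 1} (by decide)] at h
    simp only [pd_zero, pd_ofReal hφ, Pi.zero_apply, mul_zero, integral_zero, zero_add, add_zero,
      sub_zero, zero_sub, sub_self, mul_neg, integral_neg] at h
    linear_combination h
  · obtain ⟨F, hF, h1, h2⟩ := key {1, 3}
    have h := orth_rel hb F hF
    rw [h1, h2 {2, 3} (by decide), h2 {1, 2} (by decide), h2 {0, 3} (by decide), h2 {0, 2} (by decide), h2 {0, 1} (by decide)] at h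
    simp only [pd_zero, pd_ofReal hφ, Pi.zero_apply, mul_zero, integral_zero, zero_add, add_zero,
      sub_zero, zero_sub, sub_self, mul_neg, integral_neg] at h
    linear_combination h
  · obtain ⟨F, hF, h1, h2⟩ := key {1, 2}
    have h := orth_rel hb F hF
    rw [h1, h2 {2, 3} (by decide), h2 {1, 3} (by decide), h2 {0, 3} (by decide), h2 {0, 2} (by decide), h2 {0, 1} (by decide)] at h
    simp only [pd_zero, pd_ofReal hφ, Pi.zero_apply, mul_zero, integral_zero, zero_add, add_zero,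
      sub_zero, zero_sub, sub_self, mul_neg, integral_neg] at h
    linear_combination h
  · obtain ⟨F, hF, h1, h2⟩ := key {0, 3}
    have h := orth_rel hb F hF
    rw [h1, h2 {2, 3} (by decide), h2 {1, 3} (by decide), h2 {1, 2} (by decide), h2 {0, 2} (by decide), h2 {0, 1} (by decide)] at h
    simp only [pd_zero, pd_ofReal hφ, Pi.zero_apply, mul_zero, integral_zero, zero_add, add_zero,
      sub_zero, zero_sub, sub_self, mul_neg, integral_neg] at h
    linear_combination h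
  · obtain ⟨F, hF, h1, h2⟩ := key {0, 2}
    have h := orth_rel hb F hF
    rw [h1, h2 {2, 3} (by decide), h2 {1, 3} (by decide), h2 {1, 2} (by decide), h2 {0, 3} (by decide), h2 {0, 1} (by decide)] at h
    simp only [pd_zero, pd_ofReal hφ, Pi.zero_apply, mul_zero, integral_zero, zero_add, add_zero,
      sub_zero, zero_sub, sub_self, mul_neg, integral_neg] at h
    linear_combination h
  · obtain ⟨F, hF, h1, h2⟩ := key {0, 1}
    have h := orth_rel hb F hF
    rw [h1, h2 {2, 3} (by decide), h2 {1, 3} (by decide), h2 {1, 2} (by decide), h2 {0, 3} (by decide), h2 {0, 2} (by decide)] at h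
    simp only [pd_zero, pd_ofReal hφ, Pi.zero_apply, mul_zero, integral_zero, zero_add, add_zero,
      sub_zero, zero_sub, sub_self, mul_neg, integral_neg] at h
    linear_combination h

/-- the main step: the annihilator of the test forms annihilates the pair -/
theorem pairing (hD : S_DALL) {f g : Form} (hf : L2Form 2 f) (hg : L2Form 3 g)
    (h : WeakD 2 f g) (b : Finset (Fin 4) → E → ℂ) (hbL : ∀ I, MemLp (b I) 2 mu)
    (hb : ∀ G ∈ WW, ∑ I, ∫ x, b I x * G I x ∂mu = 0) (v : Finset (Fin 4) → E → ℂ)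
    (hv2 : ∀ I, I.card = 2 → v I = f I) (hv3 : ∀ I, I.card = 3 → v I = g I)
    (hv0 : ∀ I, I.card ≠ 2 → I.card ≠ 3 → v I = 0) :
    ∑ I, ∫ x, b I x * v I x ∂mu = 0 := by
  -- measurable representatives, vanishing outside
  set c : Finset (Fin 4) → E → ℂ := fun I => hartogs.indicator ((hbL I).1.mk (b I)) with hc
  have hcm : ∀ I, Measurable (c I) := fun I =>
    ((hbL I).1.stronglyMeasurable_mk.measurable).indicator meas_hartogs
  have hcb : ∀ I, c I =ᵐ[mu] b I := by
    intro I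
    have h1 : c I =ᵐ[mu] (hbL I).1.mk (b I) :=
      (ae_restrict_iff' meas_hartogs).2 (Eventually.of_forall fun x hx => indicator_of_mem hx _)
    exact h1.trans (hbL I).1.ae_eq_mk.symm
  have hcL : ∀ I, MemLp (c I) 2 (volume : Measure E) := by
    intro I
    rw [hc]
    exact (memLp_indicator_iff_restrict meas_hartogs).2
      ((memLp_congr_ae (hbL I).1.ae_eq_mk).1 (hbL I))
  have hcz : ∀ I x, x ∉ hartogs → c I x = 0 := fun I x hx => indicator_of_notMem hx _
  have conv : ∀ (φ : E → ℝ) (I : Finset (Fin 4)), ∫ x, b I x * ((φ x : ℝ) : ℂ) ∂mu =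
      ∫ x, ((φ x : ℝ) : ℂ) * c I x := by
    intro φ I
    have h1 : ∫ x, b I x * ((φ x : ℝ) : ℂ) ∂mu = ∫ x, ((φ x : ℝ) : ℂ) * c I x ∂mu := by
      refine integral_congr_ae ?_
      filter_upwards [hcb I] with x hx
      rw [hx, mul_comm]
    rw [h1]
    exact setIntegral_eq_integral_of_forall_compl_eq_zero fun x hx => by rw [hcz I x hx, mul_zero]
  -- the one-form and the two-form
  set B : Fin 4 → E → ℂ := ![c {1, 2, 3}, -c {0, 2, 3}, c {0, 1, 3}, -c {0, 1, 2}] with hB
  set A : Fin 4 → Fin 4 → E → ℂ := ![![0, -c {2, 3}, c {1, 3}, -c {1, 2}],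
    ![c {2, 3}, 0, -c {0, 3}, c {0, 2}], ![-c {1, 3}, c {0, 3}, 0, -c {0, 1}],
    ![c {1, 2}, -c {0, 2}, c {0, 1}, 0]] with hA
  have B0 : B 0 = c {1, 2, 3} := rfl
  have B1 : B 1 = -c {0, 2, 3} := rfl
  have B2 : B 2 = c {0, 1, 3} := rfl
  have B3 : B 3 = -c {0, 1, 2} := rfl
  have A01 : A 0 1 = -c {2, 3} := rfl
  have A02 : A 0 2 = c {1, 3} := rfl
  have A03 : A 0 3 = -c {1, 2} := rfl
  have A12 : A 1 2 = -c {0, 3} := rfl
  have A13 : A 1 3 = c {0, 2} := rfl
  have A23 : A 2 3 = -c {0, 1} := rfl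
  have hAs : ∀ i j, A j i = -A i j := by
    intro i j
    fin_cases i <;> fin_cases j <;>
      first
      | rfl
      | (show (0 : E → ℂ) = -0; rw [neg_zero])
      | (show c _ = - -c _; rw [neg_neg])
  have hAd : ∀ i, A i i = 0 := by
    intro i
    fin_cases i <;> rfl
  have hBprop : ∀ P : (E → ℂ) → Prop, (∀ I, P (c I)) → (∀ I, P (-c I)) → ∀ i, P (B i) := by
    intro P h1 h2 i
    fin_cases i
    · exact h1 _
    · exact h2 _
    · exact h1 _
    · exact h2 _
  have hAprop : ∀ P : (E → ℂ) → Prop, P 0 → (∀ I, P (c I)) → (∀ I, P (-c I)) →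
      ∀ i j, P (A i j) := by
    intro P h0 h1 h2 i j
    fin_cases i <;> fin_cases j
    · exact h0
    · exact h2 _
    · exact h1 _
    · exact h2 _
    · exact h1 _
    · exact h0
    · exact h2 _
    · exact h1 _
    · exact h2 _
    · exact h1 _
    · exact h0
    · exact h2 _
    · exact h1 _
    · exact h2 _
    · exact h1 _
    · exact h0
  have hnice : Nice B A := by
    refine ⟨hBprop _ hcm fun I => (hcm I).neg, fun i j => hAprop _ measurable_const hcm
      (fun I => (hcm I).neg) i j, 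
      hBprop (fun u => MemLp u 2 (volume : Measure E)) hcL fun I => (hcL I).neg,
      fun i j => hAprop (fun u => MemLp u 2 (volume : Measure E)) MemLp.zero hcL
        (fun I => (hcL I).neg) i j, ?_, ?_⟩
    · exact hBprop (fun u => ∀ x, x ∉ hartogs → u x = 0) hcz fun I x hx => by
        rw [Pi.neg_apply, hcz I x hx, neg_zero]
    · exact fun i j => hAprop (fun u => ∀ x, x ∉ hartogs → u x = 0) (fun x _ => rfl) hcz
        (fun I x hx => by rw [Pi.neg_apply, hcz I x hx, neg_zero]) i j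
  have hcurl : WeakCurl univ B A := by
    intro i j φ hφ _ _
    have hr := rels hb hφ
    have hp : ∀ k : Fin 4, ∀ I, ∫ x, b I x * ((pd k φ x : ℝ) : ℂ) ∂mu =
        ∫ x, ((pd k φ x : ℝ) : ℂ) * c I x := fun k I => conv (pd k φ) I
    simp only [hp, conv φ] at hr
    obtain ⟨r01, r02, r03, r12, r13, r23⟩ := hr
    have key : ∀ i j : Fin 4, i < j → ∫ x, (φ x : ℂ) * A i j x =
        -(∫ x, ((pd i φ x : ℝ) : ℂ) * B j x) + ∫ x, ((pd j φ x : ℝ) : ℂ) * B i x := by
      intro i j hij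
      have hall : ∀ i j : Fin 4, i < j → (i = 0 ∧ j = 1) ∨ (i = 0 ∧ j = 2) ∨ (i = 0 ∧ j = 3) ∨
          (i = 1 ∧ j = 2) ∨ (i = 1 ∧ j = 3) ∨ (i = 2 ∧ j = 3) := by decide
      rcases hall i j hij with ⟨rfl, rfl⟩ | ⟨rfl, rfl⟩ | ⟨rfl, rfl⟩ | ⟨rfl, rfl⟩ |
        ⟨rfl, rfl⟩ | ⟨rfl, rfl⟩
      · rw [A01, B1, B0]
        simp only [Pi.neg_apply, mul_neg, integral_neg]
        linear_combination -r01
      · rw [A02, B2, B0]
        linear_combination r02
      · rw [A03, B3, B0]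
        simp only [Pi.neg_apply, mul_neg, integral_neg]
        linear_combination -r03
      · rw [A12, B2, B1]
        simp only [Pi.neg_apply, mul_neg, integral_neg]
        linear_combination -r12
      · rw [A13, B3, B1]
        simp only [Pi.neg_apply, mul_neg, integral_neg]
        linear_combination r13
      · rw [A23, B3, B2]
        simp only [Pi.neg_apply, mul_neg, integral_neg]
        linear_combination -r23
    rcases lt_trichotomy i j with hij | hij | hij
    · exact key i j hij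
    · subst hij
      rw [hAd]
      simp
    · rw [hAs j i]
      simp only [Pi.neg_apply, mul_neg, integral_neg]
      rw [key j i hij]
      ring
  -- the pairing as a limit
  have hvL : ∀ I, MemLp (v I) 2 mu := by
    intro I
    by_cases h2 : I.card = 2
    · rw [hv2 I h2]
      exact hf I h2
    · by_cases h3 : I.card = 3
      · rw [hv3 I h3]
        exact hg I h3
      · rw [hv0 I h2 h3]
        exact MemLp.zero
  have hfbc : ∀ I, (I.card = 2 ∨ I.card = 3) → fb B A I = c I := by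
    intro I hI
    have hall : ∀ I : Finset (Fin 4), (I.card = 2 ∨ I.card = 3) → I ∈ S10 := by decide
    have h1 := hall I hI
    simp only [S10, Finset.mem_insert, Finset.mem_singleton] at h1
    rcases h1 with rfl | rfl | rfl | rfl | rfl | rfl | rfl | rfl | rfl | rfl
    · rw [fb_23, A01, neg_neg]
    · rw [fb_13, A02]
    · rw [fb_12, A03, neg_neg]
    · rw [fb_03, A12, neg_neg]
    · rw [fb_02, A13]
    · rw [fb_01, A23, neg_neg]
    · rw [fb_123, B0]
    · rw [fb_023, B1, neg_neg]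
    · rw [fb_013, B2]
    · rw [fb_012, B3, neg_neg]
  have hT : ∑ I, ∫ x, b I x * v I x ∂mu = ∑ I, ∫ x, fb B A I x * v I x ∂mu := by
    refine Finset.sum_congr rfl fun I _ => ?_
    by_cases hI : I.card = 2 ∨ I.card = 3
    · rw [hfbc I hI]
      refine integral_congr_ae ?_
      filter_upwards [hcb I] with x hx
      rw [hx]
    · push Not at hI
      rw [hv0 I hI.1 hI.2]
      simp
  have hBm : ∀ i, MemLp (B i) 2 mu := fun i => (hnice.lf i).restrict _
  have hAm : ∀ i j, MemLp (A i j) 2 mu := fun i j => (hnice.lg i j).restrict _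
  set Kv : ℝ := ∑ I, (eLpNorm (v I) 2 mu).toReal with hKv
  have hKv0 : 0 ≤ Kv := Finset.sum_nonneg fun I _ => ENNReal.toReal_nonneg
  have hest : ∀ ε : ℝ, 0 < ε → ‖∑ I, ∫ x, b I x * v I x ∂mu‖ ≤ ε * Kv := by
    intro ε hε
    obtain ⟨B', hs, hcs, hts, hB', hA'⟩ := hD B A hnice hcurl ε hε
    set A' : Fin 4 → Fin 4 → E → ℂ := fun i j x => pd i (B' j) x - pd j (B' i) x with hA'def
    have hB'm : ∀ i, MemLp (B' i) 2 mu := fun i => memLp_cont (hs i).continuous
    have hpm : ∀ i j, MemLp (fun x => pd i (B' j) x) 2 mu := fun i j =>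
      memLp_cont (pd_cont (hs j) i)
    have hA'm : ∀ i j, MemLp (A' i j) 2 mu := fun i j => (hpm i j).sub (hpm j i)
    have hclose : ∀ I, eLpNorm (fb B A I - fb B' A' I) 2 mu ≤ ENNReal.ofReal ε := by
      intro I
      refine fb_close (fun i => ?_) (fun i j => ?_) I
      · exact (eLpNorm_restrict_le _ _ _ _).trans (hB' i)
      · exact (eLpNorm_restrict_le _ _ _ _).trans (hA' i j)
    -- the pairing with the approximation vanishes
    have hzero : ∑ I, ∫ x, fb B' A' I x * v I x ∂mu = 0 := by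
      have w := fun (l : Fin 4) (J : Finset (Fin 4)) (hJ : J.card = 3) =>
        weakC hf hg h J hJ (B' l) (hs l) (hcs l) (hts l)
      have hX : ∀ (l p q r : Fin 4) (hpq : p < q) (hqr : q < r),
          ∫ x, B' l x * g {p, q, r} x ∂mu =
            -((∫ x, pd p (B' l) x * f {q, r} x ∂mu) - (∫ x, pd q (B' l) x * f {p, r} x ∂mu) +
              ∫ x, pd r (B' l) x * f {p, q} x ∂mu) := by
        intro l p q r hpq hqr
        rw [w l {p, q, r} (by
          have : ∀ p q r : Fin 4, p < q → q < r → ({p, q, r} : Finset (Fin 4)).card = 3 := by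
            decide
          exact this p q r hpq hqr),
          sum3 p q r hpq hqr fun i I => ∫ x, pd i (B' l) x * f I x ∂mu]
      have hsplit : ∀ (i j : Fin 4) (I : Finset (Fin 4)), I.card = 2 →
          ∫ x, A' i j x * f I x ∂mu = (∫ x, pd i (B' j) x * f I x ∂mu) -
            ∫ x, pd j (B' i) x * f I x ∂mu := by
        intro i j I hI
        rw [← integral_sub]
        · refine integral_congr_ae (Eventually.of_forall fun x => ?_)
          show (pd i (B' j) x - pd j (B' i) x) * f I x = _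
          ring
        · exact (hpm i j).integrable_mul (hf I hI)
        · exact (hpm j i).integrable_mul (hf I hI)
      rw [sum10 _ (by
        intro I h2 h3
        rw [hv0 I h2 h3]
        simp)]
      rw [fb_23, fb_13, fb_12, fb_03, fb_02, fb_01, fb_123, fb_023, fb_013, fb_012]
      rw [hv2 {2, 3} (by decide), hv2 {1, 3} (by decide), hv2 {1, 2} (by decide),
        hv2 {0, 3} (by decide), hv2 {0, 2} (by decide), hv2 {0, 1} (by decide),
        hv3 {1, 2, 3} (by decide), hv3 {0, 2, 3} (by decide), hv3 {0, 1, 3} (by decide),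
        hv3 {0, 1, 2} (by decide)]
      simp only [Pi.neg_apply, neg_mul, integral_neg]
      rw [hsplit 0 1 {2, 3} (by decide), hsplit 0 2 {1, 3} (by decide),
        hsplit 0 3 {1, 2} (by decide), hsplit 1 2 {0, 3} (by decide),
        hsplit 1 3 {0, 2} (by decide), hsplit 2 3 {0, 1} (by decide),
        hX 0 1 2 3 (by decide) (by decide), hX 1 0 2 3 (by decide) (by decide),
        hX 2 0 1 3 (by decide) (by decide), hX 3 0 1 2 (by decide) (by decide)]
      ring
    have hdiff : ∑ I, ∫ x, b I x * v I x ∂mu =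
        ∑ I, ∫ x, (fb B A I - fb B' A' I) x * v I x ∂mu := by
      rw [hT, ← sub_zero (∑ I, ∫ x, fb B A I x * v I x ∂mu), ← hzero, ← Finset.sum_sub_distrib]
      refine Finset.sum_congr rfl fun I _ => ?_
      rw [← integral_sub]
      · refine integral_congr_ae (Eventually.of_forall fun x => ?_)
        show _ = (fb B A I x - fb B' A' I x) * v I x
        ring
      · exact (fb_memLp hBm hAm I).integrable_mul (hvL I)
      · exact (fb_memLp hB'm hA'm I).integrable_mul (hvL I)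
    rw [hdiff]
    calc ‖∑ I, ∫ x, (fb B A I - fb B' A' I) x * v I x ∂mu‖
        ≤ ∑ I, ‖∫ x, (fb B A I - fb B' A' I) x * v I x ∂mu‖ := norm_sum_le _ _
      _ ≤ ∑ I, ε * (eLpNorm (v I) 2 mu).toReal := by
          refine Finset.sum_le_sum fun I _ => ?_
          refine (cs ((fb_memLp hBm hAm I).sub (fb_memLp hB'm hA'm I)) (hvL I)).trans ?_
          apply mul_le_mul_of_nonneg_right _ ENNReal.toReal_nonneg
          exact ENNReal.toReal_le_of_le_ofReal hε.le (hclose I)
      _ = ε * Kv := by rw [hKv, Finset.mul_sum]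
  have hfin : ‖∑ I, ∫ x, b I x * v I x ∂mu‖ ≤ 0 := by
    apply le_of_forall_pos_le_add
    intro δ hδ
    have h1 := hest (δ / (Kv + 1)) (by positivity)
    refine h1.trans ?_
    rw [zero_add, div_mul_eq_mul_div, div_le_iff₀ (by positivity)]
    nlinarith
  exact norm_le_zero_iff.1 hfin

theorem approx (hD : S_DALL) (hU : S_DUAL) {f g : Form} (hf : L2Form 2 f) (hg : L2Form 3 g)
    (h : WeakD 2 f g) (ε : ℝ) (hε : 0 < ε) : ∃ F : Form, (∀ I, ContDiff ℝ ∞ (F I)) ∧
      (∀ I : Finset (Fin 4), I.card = 2 → eLpNorm (F I - f I) 2 mu ≤ ENNReal.ofReal ε) ∧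
      ∀ J : Finset (Fin 4), J.card = 3 → eLpNorm (dC F J - g J) 2 mu ≤ ENNReal.ofReal ε := by
  set v : Finset (Fin 4) → E → ℂ := fun I =>
    if I.card = 2 then f I else if I.card = 3 then g I else 0 with hv
  have hv2 : ∀ I, I.card = 2 → v I = f I := fun I hI => if_pos hI
  have hv3 : ∀ I, I.card = 3 → v I = g I := fun I hI => by
    rw [hv]
    show (if I.card = 2 then f I else if I.card = 3 then g I else 0) = g I
    rw [if_neg (by omega), if_pos hI]
  have hv0 : ∀ I, I.card ≠ 2 → I.card ≠ 3 → v I = 0 := fun I h2 h3 => by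
    rw [hv]
    show (if I.card = 2 then f I else if I.card = 3 then g I else 0) = 0
    rw [if_neg h2, if_neg h3]
  have hvL : ∀ I, MemLp (v I) 2 mu := by
    intro I
    by_cases h2 : I.card = 2
    · rw [hv2 I h2]
      exact hf I h2
    · by_cases h3 : I.card = 3
      · rw [hv3 I h3]
        exact hg I h3
      · rw [hv0 I h2 h3]
        exact MemLp.zero
  obtain ⟨G, hG, hclose⟩ := hU (Finset (Fin 4)) mu WW
    ⟨_, 0, fun I => contDiff_const, rfl⟩
    (by
      rintro _ ⟨F, hF, rfl⟩ _ ⟨G, hG, rfl⟩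
      exact ⟨F + G, fun I => (hF I).add (hG I), fam_add hF hG⟩)
    (by
      rintro c _ ⟨F, hF, rfl⟩
      exact ⟨fun I x => c * F I x, fun I => contDiff_const.mul (hF I), fam_mul hF c⟩)
    (fun F hF I => ww_mem hF I) v hvL
    (fun b hbL hb => pairing hD hf hg h b hbL hb v hv2 hv3 hv0) ε hε
  obtain ⟨F, hF, rfl⟩ := hG
  refine ⟨F, hF, fun I hI => ?_, fun J hJ => ?_⟩
  · have h1 := hclose I
    rw [hv2 I hI] at h1
    have h2 : fam F I = F I := if_pos hI
    rwa [h2] at h1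
  · have h1 := hclose J
    rw [hv3 J hJ] at h1
    have h2 : fam F J = dC F J := by
      unfold fam
      rw [if_neg (by omega), if_pos hJ]
    rwa [h2] at h1

end Pool.Agent.R435.HT.IX2

namespace Pool.Agent.R435.HT

theorem pIX2 : S_IX2 := by
  intro hD hU f g hf hg h
  have hε : ∀ n : ℕ, (0 : ℝ) < 1 / ((n : ℝ) + 1) := fun n => by positivity
  choose F hF h1 h2 using fun n : ℕ => IX2.approx hD hU hf hg h (1 / ((n : ℝ) + 1)) (hε n)
  have hlim : Tendsto (fun n : ℕ => ENNReal.ofReal (1 / ((n : ℝ) + 1))) atTop (𝓝 0) := by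
    rw [← ENNReal.ofReal_zero]
    exact ENNReal.tendsto_ofReal tendsto_one_div_add_atTop_nhds_zero_nat
  refine ⟨F, fun n I _ => hF n I, fun I hI => ?_, fun J hJ => ?_⟩
  · exact tendsto_of_tendsto_of_tendsto_of_le_of_le tendsto_const_nhds hlim
      (fun n => bot_le) (fun n => h1 n I hI)
  · exact tendsto_of_tendsto_of_tendsto_of_le_of_le tendsto_const_nhds hlim
      (fun n => bot_le) (fun n => h2 n J hJ)

end Pool.Agent.R435.HT
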