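import Pool.Agent.R435.HT.Defs

set_option autoImplicit false

open MeasureTheory Set Filter Topology
open scoped ContDiff ENNReal

namespace Pool.Agent.R435.HT

namespace MOLP

/-- continuity of the translations in `L²` -/
lemma translate (h : E → ℂ) (hh : MemLp h 2 (volume : Measure E)) (ε : ℝ) (hε : 0 < ε) :
    ∃ δ₀ : ℝ, 0 < δ₀ ∧ ∀ z : E, ‖z‖ < δ₀ →
      eLpNorm (fun x => h (z + x) - h x) 2 (volume : Measure E) ≤ ENNReal.ofReal ε := by
  have : Fact ((2 : ℝ≥0∞) ≠ ⊤) := ⟨by norm_num⟩
  have hcont : Continuous (fun z : E => (DomAddAct.mk z) +ᵥ (hh.toLp h : Lp ℂ 2 (volume : Measure E))) := by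
    have h1 : Continuous (fun z : E => DomAddAct.mk z) := DomAddAct.continuous_mk
    exact h1.vadd continuous_const
  have h0 : (DomAddAct.mk (0 : E)) +ᵥ (hh.toLp h : Lp ℂ 2 (volume : Measure E)) = hh.toLp h := by
    rw [DomAddAct.mk_zero, zero_vadd]
  have hc0 := hcont.continuousAt (x := (0 : E))
  rw [Metric.continuousAt_iff] at hc0
  obtain ⟨δ₀, hδ₀, hd⟩ := hc0 ε hε
  refine ⟨δ₀, hδ₀, fun z hz => ?_⟩
  have h1 := hd (x := z) (by simpa using hz)
  rw [h0] at h1
  have h2 : edist ((DomAddAct.mk z) +ᵥ (hh.toLp h : Lp ℂ 2 (volume : Measure E))) (hh.toLp h) ≤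
      ENNReal.ofReal ε := by
    rw [edist_dist]
    exact ENNReal.ofReal_le_ofReal h1.le
  have h3 : (DomAddAct.mk z) +ᵥ (hh.toLp h : Lp ℂ 2 (volume : Measure E)) =
      (hh.comp_measurePreserving (measurePreserving_vadd z (volume : Measure E))).toLp (fun x => h (z +ᵥ x)) := rfl
  rw [h3, Lp.edist_toLp_toLp] at h2
  exact h2

/-- Cauchy-Schwarz with a weight of integral one -/
lemma cs (w F : E → ℝ≥0∞) (hw : Measurable w) (hF : Measurable F)
    (h1 : ∫⁻ z, w z = 1) : (∫⁻ z, w z * F z) ^ (2 : ℝ) ≤ ∫⁻ z, w z * F z ^ (2 : ℝ) := by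
  have hpq : (2 : ℝ).HolderConjugate 2 := Real.HolderConjugate.two_two
  have h2 := ENNReal.lintegral_mul_le_Lp_mul_Lq (volume : Measure E) hpq
    (f := fun z => w z ^ (1 / 2 : ℝ)) (g := fun z => w z ^ (1 / 2 : ℝ) * F z)
    (hw.pow_const _).aemeasurable ((hw.pow_const _).mul hF).aemeasurable
  have e1 : ∀ z, ((fun z => w z ^ (1 / 2 : ℝ)) * (fun z => w z ^ (1 / 2 : ℝ) * F z)) z = w z * F z := by
    intro z
    simp only [Pi.mul_apply]
    rw [← mul_assoc, ← ENNReal.rpow_add_of_nonneg _ _ (by norm_num) (by norm_num)]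
    norm_num
  have e2 : ∀ z, (w z ^ (1 / 2 : ℝ)) ^ (2 : ℝ) = w z := by
    intro z
    rw [← ENNReal.rpow_mul]
    norm_num
  have e3 : ∀ z, (w z ^ (1 / 2 : ℝ) * F z) ^ (2 : ℝ) = w z * F z ^ (2 : ℝ) := by
    intro z
    rw [ENNReal.mul_rpow_of_nonneg _ _ (by norm_num), e2]
  simp only [e1, e2, e3, h1, ENNReal.one_rpow, one_mul] at h2
  have h3 := ENNReal.rpow_le_rpow h2 (show (0 : ℝ) ≤ 2 by norm_num)
  rw [← ENNReal.rpow_mul] at h3
  norm_num at h3 ⊢
  exact h3

lemma main (h : E → ℂ) (hm : Measurable h) (hh : MemLp h 2 (volume : Measure E)) (ε : ℝ)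
    (δ₀ : ℝ) (htr : ∀ z : E, ‖z‖ < δ₀ →
      eLpNorm (fun x => h (z + x) - h x) 2 (volume : Measure E) ≤ ENNReal.ofReal ε)
    (η : E → ℝ) (δ : ℝ) (hδ : δ ≤ δ₀) (hη : IsMoll η δ) :
    eLpNorm (moll η h - h) 2 (volume : Measure E) ≤ ENNReal.ofReal ε := by
  have hηc : Continuous η := hη.smooth.continuous
  have hηs : HasCompactSupport η := by
    apply HasCompactSupport.intro (isCompact_closedBall (0 : E) δ)
    intro x hx
    apply hη.supp
    rw [mem_closedBall_zero_iff, not_le] at hx
    exact hx.le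
  have hηi : Integrable η (volume : Measure E) := hηc.integrable_of_hasCompactSupport hηs
  set w : E → ℝ≥0∞ := fun z => ENNReal.ofReal (η z) with hw
  have hwm : Measurable w := hηc.measurable.ennreal_ofReal
  have hw1 : ∫⁻ z, w z = 1 := by
    rw [hw]
    rw [← ofReal_integral_eq_lintegral_ofReal hηi (Filter.Eventually.of_forall hη.nonneg), hη.int1]
    simp
  have hηL : MemLp (fun z => ((η z : ℝ) : ℂ)) 2 (volume : Measure E) :=
    (Complex.continuous_ofReal.comp hηc).memLp_of_hasCompactSupport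
      (hηs.comp_left (g := fun r : ℝ => (r : ℂ)) Complex.ofReal_zero)
  -- pointwise
  have hpt : ∀ x, ‖(moll η h - h) x‖ₑ ≤ ∫⁻ z, w z * ‖h (x - z) - h x‖ₑ := by
    intro x
    have hs : MemLp (fun z => h (x - z)) 2 (volume : Measure E) :=
      hh.comp_measurePreserving (Measure.measurePreserving_sub_left (volume : Measure E) x)
    have hi1 : Integrable (fun z => ((η z : ℝ) : ℂ) * h (x - z)) (volume : Measure E) :=
      hηL.integrable_mul hs
    have hi2 : Integrable (fun z => ((η z : ℝ) : ℂ) * h x) (volume : Measure E) :=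
      hηi.ofReal.mul_const _
    have e1 : moll η h x = ∫ z, ((η z : ℝ) : ℂ) * h (x - z) := by
      unfold moll
      rw [← integral_sub_left_eq_self (fun y => ((η (x - y) : ℝ) : ℂ) * h y) (volume : Measure E) x]
      simp only [sub_sub_cancel]
    have e2 : h x = ∫ z, ((η z : ℝ) : ℂ) * h x := by
      rw [integral_mul_const, integral_complex_ofReal, hη.int1]
      simp
    have e3 : (moll η h - h) x = ∫ z, ((η z : ℝ) : ℂ) * (h (x - z) - h x) := by
      have e4 : ∀ z, ((η z : ℝ) : ℂ) * (h (x - z) - h x) =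
          ((η z : ℝ) : ℂ) * h (x - z) - ((η z : ℝ) : ℂ) * h x := fun z => by ring
      simp only [e4]
      rw [integral_sub hi1 hi2, ← e2, ← e1]
      rfl
    rw [e3]
    refine (enorm_integral_le_lintegral_enorm _).trans (le_of_eq ?_)
    congr 1
    funext z
    rw [enorm_mul]
    congr 1
    rw [← ofReal_norm, Complex.norm_real, Real.norm_of_nonneg (hη.nonneg z)]
  have hFm : Measurable (Function.uncurry (fun (x z : E) => ‖h (x - z) - h x‖ₑ)) := by
    apply Measurable.enorm
    exact (hm.comp (measurable_fst.sub measurable_snd)).sub (hm.comp measurable_fst)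
  -- the square
  have hsq : ∫⁻ x, ‖(moll η h - h) x‖ₑ ^ (2 : ℝ) ≤ ENNReal.ofReal ε ^ (2 : ℝ) := by
    calc ∫⁻ x, ‖(moll η h - h) x‖ₑ ^ (2 : ℝ)
        ≤ ∫⁻ x, ∫⁻ z, w z * ‖h (x - z) - h x‖ₑ ^ (2 : ℝ) := by
          apply lintegral_mono
          intro x
          refine le_trans (ENNReal.rpow_le_rpow (hpt x) (by norm_num)) ?_
          exact cs w (fun z => ‖h (x - z) - h x‖ₑ) hwm (hFm.comp measurable_prodMk_left) hw1
      _ = ∫⁻ z, ∫⁻ x, w z * ‖h (x - z) - h x‖ₑ ^ (2 : ℝ) := by
          apply lintegral_lintegral_swap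
          apply Measurable.aemeasurable
          exact (hwm.comp measurable_snd).mul (hFm.pow_const _)
      _ = ∫⁻ z, w z * ∫⁻ x, ‖h (x - z) - h x‖ₑ ^ (2 : ℝ) := by
          congr 1
          funext z
          apply lintegral_const_mul
          exact (hFm.comp measurable_prodMk_right).pow_const _
      _ ≤ ∫⁻ z, w z * ENNReal.ofReal ε ^ (2 : ℝ) := by
          apply lintegral_mono
          intro z
          beta_reduce
          by_cases hz : ‖z‖ < δ₀
          · gcongr
            have h1 := htr (-z) (by rwa [norm_neg])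
            rw [eLpNorm_eq_lintegral_rpow_enorm_toReal (by norm_num) (by norm_num)] at h1
            have h2 := ENNReal.rpow_le_rpow h1 (show (0 : ℝ) ≤ 2 by norm_num)
            rw [← ENNReal.rpow_mul] at h2
            norm_num at h2
            norm_num
            have e : ∀ x : E, x - z = -z + x := fun x => by abel
            simp only [e]
            exact h2
          · have : w z = 0 := by
              rw [hw]
              simp only
              rw [hη.supp z (hδ.trans (not_lt.1 hz))]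
              simp
            rw [this]
            simp
      _ = ENNReal.ofReal ε ^ (2 : ℝ) := by
          rw [lintegral_mul_const _ hwm, hw1, one_mul]
  rw [eLpNorm_eq_lintegral_rpow_enorm_toReal (by norm_num) (by norm_num)]
  have h3 := ENNReal.rpow_le_rpow hsq (show (0 : ℝ) ≤ 1 / 2 by norm_num)
  rw [← ENNReal.rpow_mul] at h3
  norm_num at h3 ⊢
  exact h3

end MOLP

theorem pMOL : S_MOL := by
  intro h hh ε hε
  set h' : E → ℂ := hh.1.mk h with hh'
  have hae : h =ᵐ[volume] h' := hh.1.ae_eq_mk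
  have hm' : Measurable h' := hh.1.stronglyMeasurable_mk.measurable
  have hL' : MemLp h' 2 (volume : Measure E) := (memLp_congr_ae hae).1 hh
  obtain ⟨δ₀, hδ₀, htr⟩ := MOLP.translate h' hL' ε hε
  refine ⟨δ₀, hδ₀, fun η δ hδ hη => ?_⟩
  have h1 := MOLP.main h' hm' hL' ε δ₀ htr η δ hδ hη
  have h2 : moll η h = moll η h' := by
    funext x
    unfold moll
    apply integral_congr_ae
    filter_upwards [hae] with y hy
    rw [hy]
  have h3 : eLpNorm (moll η h - h) 2 (volume : Measure E) = eLpNorm (moll η h' - h') 2 (volume : Measure E) := by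
    apply eLpNorm_congr_ae
    filter_upwards [hae] with y hy
    rw [Pi.sub_apply, Pi.sub_apply, h2, hy]
  rw [h3]
  exact h1

end Pool.Agent.R435.HT
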