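import Pool.Agent.R435.HT.NZa

open MeasureTheory Set Filter Topology
open scoped ContDiff ENNReal

namespace Pool.Agent.R435.HT

lemma one_sub_bound {h : E → ℂ} {χ : E → ℝ} {S δ : ℝ} (hδ : 0 ≤ δ)
    (χ01 : ∀ x, 0 ≤ χ x ∧ χ x ≤ 1) (χ1 : ∀ x, Real.exp (-2 * S) ≤ rho2 x → χ x = 1)
    (ht : ∫⁻ x, {x | rho2 x < Real.exp (-2 * S)}.indicator (fun x => ‖h x‖ₑ ^ 2) x
      ≤ ENNReal.ofReal (δ ^ 2)) :
    eLpNorm (fun x => ((χ x : ℂ) - 1) * h x) 2 (volume : Measure E) ≤ ENNReal.ofReal δ := by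
  apply eLp2_le hδ
  refine le_trans (lintegral_mono fun x => ?_) ht
  by_cases hx : rho2 x < Real.exp (-2 * S)
  · rw [indicator_of_mem (by exact hx), enorm_mul, mul_pow]
    have : ‖((χ x : ℂ) - 1)‖ₑ ≤ 1 := by
      rw [← ofReal_norm, ← ENNReal.ofReal_one]
      apply ENNReal.ofReal_le_ofReal
      have : ((χ x : ℂ) - 1) = ((χ x - 1 : ℝ) : ℂ) := by push_cast; ring
      rw [this, Complex.norm_real, Real.norm_eq_abs, abs_le]
      constructor <;> linarith [(χ01 x).1, (χ01 x).2]
    calc _ ≤ 1 ^ 2 * ‖h x‖ₑ ^ 2 := by gcongr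
      _ = _ := by ring
  · rw [χ1 x (not_lt.1 hx)]
    simp

theorem pNZ (hC : S_CUT) (hE : S_EST) (hL : S_LOC) (hB : S_BND) (hH : S_HOM) : S_NZ := by
  intro U hU hcone hpos f g hn hw ε hε
  obtain ⟨C, hCp, hcut⟩ := hC
  set M : ℝ≥0∞ := (∑ i, ∫⁻ x, ‖f i x‖ₑ ^ 2) + (∑ i, ∑ j, ∫⁻ x, ‖g i j x‖ₑ ^ 2) with hMdef
  have hM : M < ⊤ := by
    rw [hMdef, ENNReal.add_lt_top]
    constructor
    · rw [ENNReal.sum_lt_top]
      exact fun i _ => lintegral_sq_lt_top (hn.lf i)
    · rw [ENNReal.sum_lt_top]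
      intro i _
      rw [ENNReal.sum_lt_top]
      exact fun j _ => lintegral_sq_lt_top (hn.lg i j)
  set L : ℝ := 1 + 4 * C ^ 2 * M.toReal / (ε / 3) ^ 2 with hLdef
  have hL1 : 1 ≤ L := by
    rw [hLdef]
    have : 0 ≤ 4 * C ^ 2 * M.toReal / (ε / 3) ^ 2 := by positivity
    linarith
  have hd : (0 : ℝ≥0∞) < ENNReal.ofReal ((ε / 3) ^ 2) := by
    rw [ENNReal.ofReal_pos]; positivity
  have ht : ∀ᶠ n : ℕ in atTop, (∀ i, ∫⁻ x, {x | rho2 x < Real.exp (-2 * ((n : ℝ) + 1))}.indicator
        (fun x => ‖f i x‖ₑ ^ 2) x ≤ ENNReal.ofReal ((ε / 3) ^ 2)) ∧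
      (∀ i j, ∫⁻ x, {x | rho2 x < Real.exp (-2 * ((n : ℝ) + 1))}.indicator
        (fun x => ‖g i j x‖ₑ ^ 2) x ≤ ENNReal.ofReal ((ε / 3) ^ 2)) := by
    rw [eventually_and]
    constructor
    · rw [eventually_all]
      intro i
      filter_upwards [(tail_tendsto (hn.mf i) (hn.lf i) (hn.zf i)).eventually (gt_mem_nhds hd)]
        with n h using h.le
    · rw [eventually_all]
      intro i
      rw [eventually_all]
      intro j
      filter_upwards [(tail_tendsto (hn.mg i j) (hn.lg i j) (hn.zg i j)).eventually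
        (gt_mem_nhds hd)] with n h using h.le
  obtain ⟨n, htf, htg⟩ := ht.exists
  set S : ℝ := (n : ℝ) + 1 with hSdef
  have hS1 : 1 ≤ S := by rw [hSdef]; have : (0 : ℝ) ≤ n := Nat.cast_nonneg n; linarith
  obtain ⟨χ, χs, χ01, χ1, χ0, χd, χb⟩ := hcut S L hS1 hL1
  set r : ℝ := Real.exp (-2 * (S * Real.exp L)) with hrdef
  have χdc : ∀ i, Continuous (pd i χ) := fun i => (contDiff_pd χs i).continuous
  -- correction bounds
  have key : ∀ (h : E → ℂ) (k : Fin 4 → E → ℝ≥0∞), (∀ i, Measurable (k i)) →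
      (∀ i x, 1 ≤ rho2 x → k i x = 0) →
      (∀ x, ‖h x‖ₑ ≤ ENNReal.ofReal (Real.sqrt (rho2 x)) * ∑ i, NN (k i) x) →
      ∑ i, ∫⁻ x, k i x ^ 2 ≤ M → ∀ j,
      eLpNorm (fun x => ((pd j χ x : ℝ) : ℂ) * h x) 2 (volume : Measure E)
        ≤ ENNReal.ofReal (ε / 3) := by
    intro h k hk hkz hle hkM j
    apply eLp2_le (by positivity)
    refine (bb hE hCp hS1 hL1 χb χd h k hk hkz hle j).trans ?_
    calc _ ≤ ENNReal.ofReal (4 * C ^ 2 / L) * M := by gcongr
      _ = ENNReal.ofReal (4 * C ^ 2 / L * M.toReal) := by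
          rw [ENNReal.ofReal_mul (by positivity), ENNReal.ofReal_toReal hM.ne]
      _ ≤ _ := by
          apply ENNReal.ofReal_le_ofReal
          have hLp : 0 < L := by linarith
          rw [div_mul_eq_mul_div, div_le_iff₀ hLp, hLdef]
          have he : 0 < (ε / 3) ^ 2 := by positivity
          rw [mul_add, mul_div_cancel₀ _ he.ne', mul_one]
          linarith
  have hkf : ∀ j, eLpNorm (fun x => ((pd j χ x : ℝ) : ℂ) * uu f x) 2 (volume : Measure E)
      ≤ ENNReal.ofReal (ε / 3) := by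
    intro j
    apply key (uu f) (fun i x => ‖f i x‖ₑ) (fun i => (hn.mf i).enorm)
    · intro i x hx
      rw [hn.zf i x (fun h => absurd (rho2_lt_of_mem h) (not_lt.2 hx))]
      simp
    · exact (hB f g hn).2.2.1
    · rw [hMdef]; exact le_self_add
  have hkg : ∀ i j, eLpNorm (fun x => ((pd i χ x : ℝ) : ℂ) * KK g j x) 2 (volume : Measure E)
      ≤ ENNReal.ofReal (ε / 3) := by
    intro i j
    apply key (KK g j) (fun i x => ‖g i j x‖ₑ) (fun i => (hn.mg i j).enorm)
    · intro i x hx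
      rw [hn.zg i j x (fun h => absurd (rho2_lt_of_mem h) (not_lt.2 hx))]
      simp
    · exact (hB f g hn).2.2.2 j
    · rw [hMdef]
      refine le_trans ?_ le_add_self
      apply Finset.sum_le_sum
      intro i _
      exact Finset.single_le_sum (f := fun j => ∫⁻ x, ‖g i j x‖ₑ ^ 2)
        (fun _ _ => by positivity) (Finset.mem_univ j)
  have muu : Measurable (uu f) := (hB f g hn).1
  have mKK : ∀ j, Measurable (KK g j) := (hB f g hn).2.1
  have mofr : ∀ {a : E → ℝ}, Continuous a → Measurable (fun x => (a x : ℂ)) :=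
    fun ha => (Complex.continuous_ofReal.comp ha).measurable
  have χc : Continuous χ := χs.continuous
  have lfu : ∀ j, MemLp (fun x => ((pd j χ x : ℝ) : ℂ) * uu f x) 2 (volume : Measure E) :=
    fun j => ⟨((mofr (χdc j)).mul muu).aestronglyMeasurable,
      lt_of_le_of_lt (hkf j) ENNReal.ofReal_lt_top⟩
  have lgu : ∀ i j, MemLp (fun x => ((pd i χ x : ℝ) : ℂ) * KK g j x) 2 (volume : Measure E) :=
    fun i j => ⟨((mofr (χdc i)).mul (mKK j)).aestronglyMeasurable,
      lt_of_le_of_lt (hkg i j) ENNReal.ofReal_lt_top⟩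
  have χn : ∀ x, ‖(χ x : ℂ)‖ ≤ 1 := by
    intro x
    rw [Complex.norm_real, Real.norm_eq_abs, abs_of_nonneg (χ01 x).1]
    exact (χ01 x).2
  have lχ : ∀ h : E → ℂ, Measurable h → MemLp h 2 (volume : Measure E) →
      MemLp (fun x => (χ x : ℂ) * h x) 2 (volume : Measure E) := by
    intro h hm hh
    refine hh.mono ((mofr χc).mul hm).aestronglyMeasurable ?_
    filter_upwards with x
    rw [norm_mul]
    calc _ ≤ 1 * ‖h x‖ := by gcongr; exact χn x
      _ = _ := one_mul _
  refine ⟨r, Real.exp_pos _, fun j x => (χ x : ℂ) * f j x + ((pd j χ x : ℝ) : ℂ) * uu f x,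
    fun i j x => (χ x : ℂ) * g i j x + ((pd i χ x : ℝ) : ℂ) * KK g j x
      - ((pd j χ x : ℝ) : ℂ) * KK g i x, ?_, ?_, ?_, ?_, ?_, ?_⟩
  · refine ⟨?_, ?_, ?_, ?_, ?_, ?_⟩
    · intro j
      exact ((mofr χc).mul (hn.mf j)).add ((mofr (χdc j)).mul muu)
    · intro i j
      exact (((mofr χc).mul (hn.mg i j)).add ((mofr (χdc i)).mul (mKK j))).sub
        ((mofr (χdc j)).mul (mKK i))
    · intro j
      exact (lχ _ (hn.mf j) (hn.lf j)).add (lfu j)
    · intro i j
      exact ((lχ _ (hn.mg i j) (hn.lg i j)).add (lgu i j)).sub (lgu j i)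
    · intro j x hx
      simp only [hn.zf j x hx, uu_zero hn hx, mul_zero, add_zero]
    · intro i j x hx
      simp only [hn.zg i j x hx, KK_zero hn _ hx, mul_zero, add_zero, sub_zero]
  · intro i x hx
    simp only [χ0 x hx.le, χd _ x (Or.inl hx.le)]
    simp
  · intro i j x hx
    simp only [χ0 x hx.le, χd _ x (Or.inl hx.le)]
    simp
  · intro j
    have e1 : ((fun x => (χ x : ℂ) * f j x + ((pd j χ x : ℝ) : ℂ) * uu f x) - f j)
        = (fun x => ((χ x : ℂ) - 1) * f j x) + (fun x => ((pd j χ x : ℝ) : ℂ) * uu f x) := by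
      ext x
      simp only [Pi.sub_apply, Pi.add_apply]
      ring
    rw [e1]
    have m1 : AEStronglyMeasurable (fun x => ((χ x : ℂ) - 1) * f j x) (volume : Measure E) :=
      (((mofr χc).sub_const 1).mul (hn.mf j)).aestronglyMeasurable
    calc _ ≤ eLpNorm (fun x => ((χ x : ℂ) - 1) * f j x) 2 (volume : Measure E)
          + eLpNorm (fun x => ((pd j χ x : ℝ) : ℂ) * uu f x) 2 (volume : Measure E) :=
          eLpNorm_add_le m1 (lfu j).1 (by norm_num)
      _ ≤ ENNReal.ofReal (ε / 3) + ENNReal.ofReal (ε / 3) :=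
          add_le_add (one_sub_bound (by positivity) χ01 χ1 (htf j)) (hkf j)
      _ ≤ _ := by
          rw [← ENNReal.ofReal_add (by positivity) (by positivity)]
          exact ENNReal.ofReal_le_ofReal (by linarith)
  · intro i j
    have e1 : ((fun x => (χ x : ℂ) * g i j x + ((pd i χ x : ℝ) : ℂ) * KK g j x
          - ((pd j χ x : ℝ) : ℂ) * KK g i x) - g i j)
        = ((fun x => ((χ x : ℂ) - 1) * g i j x) + (fun x => ((pd i χ x : ℝ) : ℂ) * KK g j x))
          - (fun x => ((pd j χ x : ℝ) : ℂ) * KK g i x) := by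
      ext x
      simp only [Pi.sub_apply, Pi.add_apply]
      ring
    rw [e1]
    have m1 : AEStronglyMeasurable (fun x => ((χ x : ℂ) - 1) * g i j x) (volume : Measure E) :=
      (((mofr χc).sub_const 1).mul (hn.mg i j)).aestronglyMeasurable
    calc _ ≤ eLpNorm ((fun x => ((χ x : ℂ) - 1) * g i j x)
            + (fun x => ((pd i χ x : ℝ) : ℂ) * KK g j x)) 2 (volume : Measure E)
          + eLpNorm (fun x => ((pd j χ x : ℝ) : ℂ) * KK g i x) 2 (volume : Measure E) :=
          eLpNorm_sub_le (m1.add (lgu i j).1) (lgu j i).1 (by norm_num)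
      _ ≤ (eLpNorm (fun x => ((χ x : ℂ) - 1) * g i j x) 2 (volume : Measure E)
          + eLpNorm (fun x => ((pd i χ x : ℝ) : ℂ) * KK g j x) 2 (volume : Measure E))
          + eLpNorm (fun x => ((pd j χ x : ℝ) : ℂ) * KK g i x) 2 (volume : Measure E) := by
          gcongr
          exact eLpNorm_add_le m1 (lgu i j).1 (by norm_num)
      _ ≤ (ENNReal.ofReal (ε / 3) + ENNReal.ofReal (ε / 3)) + ENNReal.ofReal (ε / 3) :=
          add_le_add (add_le_add (one_sub_bound (by positivity) χ01 χ1 (htg i j)) (hkg i j))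
            (hkg j i)
      _ ≤ _ := by
          rw [← ENNReal.ofReal_add (by positivity) (by positivity),
            ← ENNReal.ofReal_add (by positivity) (by positivity)]
          exact ENNReal.ofReal_le_ofReal (by linarith)
  · intro i j φ φs φc φU
    have hsupp : ∀ a : E → ℝ, (∀ x, rho2 x ≤ r → a x = 0) →
        tsupport (fun x => a x * φ x) ⊆ U := by
      intro a ha
      refine Subset.trans (closure_minimal ?_ ((isClosed_tsupport φ).inter
        (isClosed_le continuous_const continuous_rho2))) φU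
      intro x hx
      constructor
      · apply subset_tsupport
        intro h0
        exact hx (by simp [h0])
      · by_contra hlt
        exact hx (by simp [ha x (not_le.1 hlt).le])
    have hcc : ∀ a : E → ℝ, HasCompactSupport (fun x => a x * φ x) := fun a => φc.mul_left
    have hAs : ContDiff ℝ ∞ (fun x => χ x * φ x) := χs.mul φs
    have hA := hw i j (fun x => χ x * φ x) hAs (hcc χ) (hsupp χ χ0)
    have hB1 := hH U hU hcone hpos f g hn hw j (fun x => pd i χ x * φ x)
      ((contDiff_pd χs i).mul φs) (hcc _) (hsupp _ (fun x hx => χd i x (Or.inl hx)))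
    have hB2 := hH U hU hcone hpos f g hn hw i (fun x => pd j χ x * φ x)
      ((contDiff_pd χs j).mul φs) (hcc _) (hsupp _ (fun x hx => χd j x (Or.inl hx)))
    -- partial derivatives of the test functions
    have d1 : ∀ k, pd k (fun x => χ x * φ x) = fun x => χ x * pd k φ x + pd k χ x * φ x := by
      intro k; ext x; rw [pd_mul χs φs]; ring
    have d2 : pd j (fun x => pd i χ x * φ x)
        = fun x => pd i χ x * pd j φ x + pd j (pd i χ) x * φ x := by
      ext x; rw [pd_mul (contDiff_pd χs i) φs]; ring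
    have d3 : pd i (fun x => pd j χ x * φ x)
        = fun x => pd j χ x * pd i φ x + pd j (pd i χ) x * φ x := by
      ext x; rw [pd_mul (contDiff_pd χs j) φs, pd_comm χs i j]; ring
    rw [d1, d1] at hA
    rw [d2] at hB1
    rw [d3] at hB2
    have φcc : Continuous φ := φs.continuous
    have pc : ∀ k, Continuous (pd k φ) := fun k => (contDiff_pd φs k).continuous
    have hpc : ∀ k, HasCompactSupport (pd k φ) := fun k => hcs_pd φc k
    have ddc : Continuous (pd j (pd i χ)) := (contDiff_pd (contDiff_pd χs i) j).continuous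
    have If : ∀ k, Integrable (f k) := fun k => integrable_of_sq (hn.lf k) (hn.zf k)
    have Ig : Integrable (g i j) := integrable_of_sq (hn.lg i j) (hn.zg i j)
    have Iu : Integrable (uu f) := uu_integrable hL hB hn
    have IK : ∀ k, Integrable (KK g k) := fun k => KK_integrable hL hB hn k
    have tA1 : T (f j) (fun x => χ x * pd i φ x + pd i χ x * φ x)
        = T (f j) (fun x => χ x * pd i φ x) + T (f j) (fun x => pd i χ x * φ x) :=
      T_add (If j) (χc.mul (pc i)) (hpc i).mul_left ((χdc i).mul φcc) φc.mul_left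
    have tA2 : T (f i) (fun x => χ x * pd j φ x + pd j χ x * φ x)
        = T (f i) (fun x => χ x * pd j φ x) + T (f i) (fun x => pd j χ x * φ x) :=
      T_add (If i) (χc.mul (pc j)) (hpc j).mul_left ((χdc j).mul φcc) φc.mul_left
    have tB1 : T (uu f) (fun x => pd i χ x * pd j φ x + pd j (pd i χ) x * φ x)
        = T (uu f) (fun x => pd i χ x * pd j φ x) + T (uu f) (fun x => pd j (pd i χ) x * φ x) :=
      T_add Iu ((χdc i).mul (pc j)) (hpc j).mul_left (ddc.mul φcc) φc.mul_left
    have tB2 : T (uu f) (fun x => pd j χ x * pd i φ x + pd j (pd i χ) x * φ x)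
        = T (uu f) (fun x => pd j χ x * pd i φ x) + T (uu f) (fun x => pd j (pd i χ) x * φ x) :=
      T_add Iu ((χdc j).mul (pc i)) (hpc i).mul_left (ddc.mul φcc) φc.mul_left
    have hA' : T (g i j) (fun x => χ x * φ x)
        = -(T (f j) (fun x => χ x * pd i φ x + pd i χ x * φ x))
          + T (f i) (fun x => χ x * pd j φ x + pd j χ x * φ x) := hA
    have hB1' : T (uu f) (fun x => pd i χ x * pd j φ x + pd j (pd i χ) x * φ x)
        = -(T (f j) (fun x => pd i χ x * φ x)) + T (KK g j) (fun x => pd i χ x * φ x) := hB1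
    have hB2' : T (uu f) (fun x => pd j χ x * pd i φ x + pd j (pd i χ) x * φ x)
        = -(T (f i) (fun x => pd j χ x * φ x)) + T (KK g i) (fun x => pd j χ x * φ x) := hB2
    rw [tA1, tA2] at hA'
    rw [tB1] at hB1'
    rw [tB2] at hB2'
    have i1 : Integrable (fun x => ((χ x * φ x : ℝ) : ℂ) * g i j x) :=
      integrable_mul_of Ig (χc.mul φcc) φc.mul_left
    have i2 : Integrable (fun x => ((pd i χ x * φ x : ℝ) : ℂ) * KK g j x) :=
      integrable_mul_of (IK j) ((χdc i).mul φcc) φc.mul_left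
    have i3 : Integrable (fun x => ((pd j χ x * φ x : ℝ) : ℂ) * KK g i x) :=
      integrable_mul_of (IK i) ((χdc j).mul φcc) φc.mul_left
    have i4 : Integrable (fun x => ((χ x * pd i φ x : ℝ) : ℂ) * f j x) :=
      integrable_mul_of (If j) (χc.mul (pc i)) (hpc i).mul_left
    have i5 : Integrable (fun x => ((pd j χ x * pd i φ x : ℝ) : ℂ) * uu f x) :=
      integrable_mul_of Iu ((χdc j).mul (pc i)) (hpc i).mul_left
    have i6 : Integrable (fun x => ((χ x * pd j φ x : ℝ) : ℂ) * f i x) :=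
      integrable_mul_of (If i) (χc.mul (pc j)) (hpc j).mul_left
    have i7 : Integrable (fun x => ((pd i χ x * pd j φ x : ℝ) : ℂ) * uu f x) :=
      integrable_mul_of Iu ((χdc i).mul (pc j)) (hpc j).mul_left
    have c1 : ∫ x, (φ x : ℂ) * ((χ x : ℂ) * g i j x + ((pd i χ x : ℝ) : ℂ) * KK g j x
          - ((pd j χ x : ℝ) : ℂ) * KK g i x)
        = T (g i j) (fun x => χ x * φ x) + T (KK g j) (fun x => pd i χ x * φ x)
          - T (KK g i) (fun x => pd j χ x * φ x) := by
      simp only [T]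
      have i12 : Integrable (fun x => ((χ x * φ x : ℝ) : ℂ) * g i j x
          + ((pd i χ x * φ x : ℝ) : ℂ) * KK g j x) := i1.add i2
      rw [← integral_add i1 i2, ← integral_sub i12 i3]
      congr 1; ext x; push_cast; ring
    have c2 : ∫ x, ((pd i φ x : ℝ) : ℂ) * ((χ x : ℂ) * f j x + ((pd j χ x : ℝ) : ℂ) * uu f x)
        = T (f j) (fun x => χ x * pd i φ x) + T (uu f) (fun x => pd j χ x * pd i φ x) := by
      simp only [T]
      rw [← integral_add i4 i5]
      congr 1; ext x; push_cast; ring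
    have c3 : ∫ x, ((pd j φ x : ℝ) : ℂ) * ((χ x : ℂ) * f i x + ((pd i χ x : ℝ) : ℂ) * uu f x)
        = T (f i) (fun x => χ x * pd j φ x) + T (uu f) (fun x => pd i χ x * pd j φ x) := by
      simp only [T]
      rw [← integral_add i6 i7]
      congr 1; ext x; push_cast; ring
    rw [c1, c2, c3]
    linear_combination hA' - hB1' + hB2'

end Pool.Agent.R435.HT
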