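import Pool.Agent.R435.HT.Base

open MeasureTheory Set Filter Topology
open scoped ContDiff ENNReal

namespace Pool.Agent.R435.HT

lemma measurableSet_ann (S L : ℝ) : MeasurableSet (ann S L) := by
  have h : Continuous rho2 := by unfold rho2; fun_prop
  exact (measurableSet_lt measurable_const h.measurable).inter
    (measurableSet_lt h.measurable measurable_const)

lemma continuous_rho2 : Continuous rho2 := by unfold rho2; fun_prop

lemma rho2_nonneg (x : E) : 0 ≤ rho2 x := by unfold rho2; positivity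

lemma smul_notMem {x : E} (hx : x ∉ hartogs) {t : ℝ} (ht : 1 < t) : t • x ∉ hartogs := by
  intro h
  apply hx
  obtain ⟨h1, h2⟩ := h
  simp only [Pi.smul_apply, smul_eq_mul] at h1 h2
  have ht2 : 1 < t ^ 2 := by nlinarith
  constructor
  · by_contra hn
    push Not at hn
    nlinarith
  · nlinarith [sq_nonneg (x 2), sq_nonneg (x 3), mul_nonneg (sub_nonneg.2 ht2.le) (sq_nonneg (x 2)),
      mul_nonneg (sub_nonneg.2 ht2.le) (sq_nonneg (x 3))]

lemma rho2_lt_of_mem {x : E} (hx : x ∈ hartogs) : rho2 x < 1 := hx.2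

lemma uu_zero {f g} (hn : Nice f g) {x : E} (hx : x ∉ hartogs) : uu f x = 0 := by
  unfold uu
  rw [setIntegral_eq_zero_of_forall_eq_zero, neg_zero]
  intro t ht
  apply Finset.sum_eq_zero
  intro i _
  rw [hn.zf i _ (smul_notMem hx ht), mul_zero]

lemma KK_zero {f g} (hn : Nice f g) (j : Fin 4) {x : E} (hx : x ∉ hartogs) : KK g j x = 0 := by
  unfold KK
  rw [setIntegral_eq_zero_of_forall_eq_zero, neg_zero]
  intro t ht
  rw [Finset.sum_eq_zero, mul_zero]
  intro i _
  rw [hn.zg i j _ (smul_notMem hx ht), mul_zero]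

lemma measurable_NN {h : E → ℝ≥0∞} (hh : Measurable h) : Measurable (NN h) := by
  unfold NN
  apply Measurable.lintegral_prod_right'
    (f := fun p : E × ℝ => ENNReal.ofReal p.2 * h (p.2 • p.1))
  apply Measurable.mul
  · exact ENNReal.measurable_ofReal.comp measurable_snd
  · exact hh.comp (measurable_snd.smul measurable_fst)

lemma hartogs_subset_Icc : hartogs ⊆ Icc (fun _ => (-1 : ℝ)) (fun _ => 1) := by
  intro x hx
  obtain ⟨h1, h2⟩ := hx
  have h0 : ∀ i : Fin 4, x i ^ 2 ≤ 1 := by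
    intro i
    fin_cases i
    · show x 0 ^ 2 ≤ 1
      nlinarith [sq_nonneg (x 0), sq_nonneg (x 1), sq_nonneg (x 2), sq_nonneg (x 3)]
    · show x 1 ^ 2 ≤ 1
      nlinarith [sq_nonneg (x 0), sq_nonneg (x 1), sq_nonneg (x 2), sq_nonneg (x 3)]
    · show x 2 ^ 2 ≤ 1
      nlinarith [sq_nonneg (x 0), sq_nonneg (x 1), sq_nonneg (x 2), sq_nonneg (x 3)]
    · show x 3 ^ 2 ≤ 1
      nlinarith [sq_nonneg (x 0), sq_nonneg (x 1), sq_nonneg (x 2), sq_nonneg (x 3)]
  rw [mem_Icc, Pi.le_def, Pi.le_def]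
  exact ⟨fun i => by nlinarith [h0 i], fun i => by nlinarith [h0 i]⟩

lemma volume_hartogs_lt_top : (volume : Measure E) hartogs < ⊤ :=
  lt_of_le_of_lt (measure_mono hartogs_subset_Icc) isCompact_Icc.measure_lt_top

lemma measurableSet_hartogs : MeasurableSet hartogs := by
  have h1 : Measurable (fun x : E => x 0 ^ 2 + x 1 ^ 2) := by fun_prop
  have h2 : Measurable (fun x : E => x 2 ^ 2 + x 3 ^ 2) := by fun_prop
  exact (measurableSet_lt h1 h2).inter (measurableSet_lt h2 measurable_const)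

lemma integrable_of_sq {h : E → ℂ} (hh : MemLp h 2 (volume : Measure E))
    (hz : ∀ x, x ∉ hartogs → h x = 0) : Integrable h := by
  have : IsFiniteMeasure ((volume : Measure E).restrict hartogs) :=
    ⟨by simpa using volume_hartogs_lt_top⟩
  have h1 : IntegrableOn h hartogs :=
    (hh.restrict hartogs).integrable (by norm_num)
  exact h1.integrable_of_forall_notMem_eq_zero hz

lemma uu_integrable (hL : S_LOC) (hB : S_BND) {f g} (hn : Nice f g) : Integrable (uu f) := by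
  refine ⟨(hB f g hn).1.aestronglyMeasurable, ?_⟩
  have hle : ∀ x, ‖uu f x‖ₑ ≤ ∑ i, NN (fun y => ‖f i y‖ₑ) x := by
    intro x
    by_cases hx : x ∈ hartogs
    · refine ((hB f g hn).2.2.1 x).trans ?_
      have h1 : ENNReal.ofReal (Real.sqrt (rho2 x)) ≤ 1 := by
        rw [← ENNReal.ofReal_one]
        apply ENNReal.ofReal_le_ofReal
        exact Real.sqrt_le_one.2 (rho2_lt_of_mem hx).le
      calc _ ≤ 1 * ∑ i, NN (fun y => ‖f i y‖ₑ) x := by gcongr
        _ = _ := one_mul _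
    · rw [uu_zero hn hx]; simp
  have hm : ∀ i, Measurable (fun y => ‖f i y‖ₑ) := fun i => (hn.mf i).enorm
  calc ∫⁻ x, ‖uu f x‖ₑ ≤ ∫⁻ x, ∑ i, NN (fun y => ‖f i y‖ₑ) x := lintegral_mono hle
    _ = ∑ i, ∫⁻ x, NN (fun y => ‖f i y‖ₑ) x :=
        lintegral_finsetSum _ (fun i _ => measurable_NN (hm i))
    _ < ⊤ := by
        rw [ENNReal.sum_lt_top]
        intro i _
        exact lt_of_le_of_lt (hL _ (hm i)) (integrable_of_sq (hn.lf i) (hn.zf i)).2

lemma KK_integrable (hL : S_LOC) (hB : S_BND) {f g} (hn : Nice f g) (j : Fin 4) :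
    Integrable (KK g j) := by
  refine ⟨((hB f g hn).2.1 j).aestronglyMeasurable, ?_⟩
  have hle : ∀ x, ‖KK g j x‖ₑ ≤ ∑ i, NN (fun y => ‖g i j y‖ₑ) x := by
    intro x
    by_cases hx : x ∈ hartogs
    · refine ((hB f g hn).2.2.2 j x).trans ?_
      have h1 : ENNReal.ofReal (Real.sqrt (rho2 x)) ≤ 1 := by
        rw [← ENNReal.ofReal_one]
        apply ENNReal.ofReal_le_ofReal
        exact Real.sqrt_le_one.2 (rho2_lt_of_mem hx).le
      calc _ ≤ 1 * ∑ i, NN (fun y => ‖g i j y‖ₑ) x := by gcongr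
        _ = _ := one_mul _
    · rw [KK_zero hn j hx]; simp
  have hm : ∀ i, Measurable (fun y => ‖g i j y‖ₑ) := fun i => (hn.mg i j).enorm
  calc ∫⁻ x, ‖KK g j x‖ₑ ≤ ∫⁻ x, ∑ i, NN (fun y => ‖g i j y‖ₑ) x := lintegral_mono hle
    _ = ∑ i, ∫⁻ x, NN (fun y => ‖g i j y‖ₑ) x :=
        lintegral_finsetSum _ (fun i _ => measurable_NN (hm i))
    _ < ⊤ := by
        rw [ENNReal.sum_lt_top]
        intro i _
        exact lt_of_le_of_lt (hL _ (hm i)) (integrable_of_sq (hn.lg i j) (hn.zg i j)).2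

lemma ennreal_sq_sum (a : Fin 4 → ℝ≥0∞) : (∑ i, a i) ^ 2 ≤ 4 * ∑ i, a i ^ 2 := by
  by_cases h : ∃ i, a i = ⊤
  · obtain ⟨i, hi⟩ := h
    have : ∑ i, a i ^ 2 = ⊤ := by
      rw [ENNReal.sum_eq_top]
      exact ⟨i, Finset.mem_univ _, by rw [hi]; simp⟩
    rw [this]
    simp
  · push Not at h
    lift a to Fin 4 → NNReal using h
    have h2 := sq_sum_le_card_mul_sum_sq (s := (Finset.univ : Finset (Fin 4))) (f := a)
    have h3 : (∑ i, a i) ^ 2 ≤ 4 * ∑ i, a i ^ 2 := by simpa using h2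
    have h4 : (((∑ i, a i) ^ 2 : NNReal) : ℝ≥0∞) ≤ ((4 * ∑ i, a i ^ 2 : NNReal) : ℝ≥0∞) :=
      ENNReal.coe_le_coe.2 h3
    push_cast at h4
    exact h4

lemma sig_pos {S L : ℝ} (hS : 1 ≤ S) {x : E} (hx : x ∈ ann S L) : 0 < sig x := by
  unfold sig
  have h1 : Real.log (rho2 x) < -2 * S := by
    rw [← Real.log_exp (-2 * S)]
    exact Real.log_lt_log (lt_trans (Real.exp_pos _) hx.1) hx.2
  nlinarith

/-- The main `L²` bound of the correction terms. -/
lemma bb (hest : S_EST) {C S L : ℝ} (hC : 0 < C) (hS : 1 ≤ S) (hL : 1 ≤ L) {χ : E → ℝ}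
    (hb : ∀ i x, x ∈ ann S L → |pd i χ x| ≤ C / (L * sig x * Real.sqrt (rho2 x)))
    (h0 : ∀ i x, (rho2 x ≤ Real.exp (-2 * (S * Real.exp L)) ∨ Real.exp (-2 * S) ≤ rho2 x) →
      pd i χ x = 0)
    (h : E → ℂ) (k : Fin 4 → E → ℝ≥0∞) (hk : ∀ i, Measurable (k i))
    (hkz : ∀ i x, 1 ≤ rho2 x → k i x = 0)
    (hle : ∀ x, ‖h x‖ₑ ≤ ENNReal.ofReal (Real.sqrt (rho2 x)) * ∑ i, NN (k i) x) (j : Fin 4) :
    ∫⁻ x, ‖((pd j χ x : ℝ) : ℂ) * h x‖ₑ ^ 2
      ≤ ENNReal.ofReal (4 * C ^ 2 / L) * ∑ i, ∫⁻ x, k i x ^ 2 := by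
  have e1 : ∫⁻ x, ‖((pd j χ x : ℝ) : ℂ) * h x‖ₑ ^ 2
      = ∫⁻ x in ann S L, ‖((pd j χ x : ℝ) : ℂ) * h x‖ₑ ^ 2 := by
    rw [← lintegral_indicator (measurableSet_ann S L)]
    congr 1
    ext x
    by_cases hx : x ∈ ann S L
    · simp [hx]
    · rw [indicator_of_notMem hx]
      have : rho2 x ≤ Real.exp (-2 * (S * Real.exp L)) ∨ Real.exp (-2 * S) ≤ rho2 x := by
        by_contra hn
        push Not at hn
        exact hx ⟨hn.1, hn.2⟩
      rw [h0 j x this]
      simp
  have e2 : ∀ x ∈ ann S L, ‖((pd j χ x : ℝ) : ℂ) * h x‖ₑ ^ 2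
      ≤ ENNReal.ofReal (4 * C ^ 2) *
        ∑ i, ENNReal.ofReal (1 / (L * sig x) ^ 2) * NN (k i) x ^ 2 := by
    intro x hx
    have hsp := sig_pos hS hx
    have hrp : 0 < rho2 x := lt_trans (Real.exp_pos _) hx.1
    have hsq : 0 < Real.sqrt (rho2 x) := Real.sqrt_pos.2 hrp
    have hLp : 0 < L := by linarith
    have i1 : ‖((pd j χ x : ℝ) : ℂ)‖ₑ
        ≤ ENNReal.ofReal (C / (L * sig x * Real.sqrt (rho2 x))) := by
      rw [← ofReal_norm]
      apply ENNReal.ofReal_le_ofReal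
      rw [Complex.norm_real]
      exact hb j x hx
    have i2 : ‖((pd j χ x : ℝ) : ℂ) * h x‖ₑ ≤ ENNReal.ofReal (C / (L * sig x)) *
        ∑ i, NN (k i) x := by
      rw [enorm_mul]
      calc _ ≤ ENNReal.ofReal (C / (L * sig x * Real.sqrt (rho2 x))) *
            (ENNReal.ofReal (Real.sqrt (rho2 x)) * ∑ i, NN (k i) x) :=
            mul_le_mul' i1 (hle x)
        _ = _ := by
            rw [← mul_assoc, ← ENNReal.ofReal_mul (by positivity)]
            congr 2
            field_simp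
    calc ‖((pd j χ x : ℝ) : ℂ) * h x‖ₑ ^ 2
        ≤ (ENNReal.ofReal (C / (L * sig x)) * ∑ i, NN (k i) x) ^ 2 := by gcongr
      _ = ENNReal.ofReal (C / (L * sig x)) ^ 2 * (∑ i, NN (k i) x) ^ 2 := mul_pow _ _ _
      _ ≤ ENNReal.ofReal (C / (L * sig x)) ^ 2 * (4 * ∑ i, NN (k i) x ^ 2) := by
          gcongr
          exact ennreal_sq_sum _
      _ = _ := by
          rw [← ENNReal.ofReal_pow (by positivity), ← mul_assoc, ← Finset.mul_sum, ← mul_assoc]
          congr 1
          have h4 : (4 : ℝ≥0∞) = ENNReal.ofReal 4 := by norm_num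
          rw [h4, ← ENNReal.ofReal_mul (by positivity), ← ENNReal.ofReal_mul (by positivity)]
          congr 1
          field_simp
  have hmm : ∀ i, Measurable (fun x => ENNReal.ofReal (1 / (L * sig x) ^ 2) * NN (k i) x ^ 2) := by
    intro i
    apply Measurable.mul
    · apply ENNReal.measurable_ofReal.comp
      have : Measurable sig := by
        unfold sig
        exact (Real.measurable_log.comp continuous_rho2.measurable).const_mul _
      exact ((this.const_mul L).pow_const 2).const_div 1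
    · exact (measurable_NN (hk i)).pow_const 2
  rw [e1]
  calc ∫⁻ x in ann S L, ‖((pd j χ x : ℝ) : ℂ) * h x‖ₑ ^ 2
      ≤ ∫⁻ x in ann S L, ENNReal.ofReal (4 * C ^ 2) *
        ∑ i, ENNReal.ofReal (1 / (L * sig x) ^ 2) * NN (k i) x ^ 2 :=
        setLIntegral_mono' (measurableSet_ann S L) e2
    _ = ENNReal.ofReal (4 * C ^ 2) * ∑ i, ∫⁻ x in ann S L,
        ENNReal.ofReal (1 / (L * sig x) ^ 2) * NN (k i) x ^ 2 := by
        rw [lintegral_const_mul' _ _ ENNReal.ofReal_ne_top,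
          lintegral_finsetSum _ (fun i _ => hmm i)]
    _ ≤ ENNReal.ofReal (4 * C ^ 2) * ∑ i, ENNReal.ofReal (1 / L) * ∫⁻ x, k i x ^ 2 := by
        gcongr with i _
        exact hest (k i) (hk i) (hkz i) S L hS hL
    _ = _ := by
        rw [← Finset.mul_sum, ← mul_assoc, ← ENNReal.ofReal_mul (by positivity)]
        congr 2
        ring

/-- the tails of square integrable functions vanishing off the Hartogs triangle. -/
lemma tail_tendsto {h : E → ℂ} (hm : Measurable h) (hh : MemLp h 2 (volume : Measure E))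
    (hz : ∀ x, x ∉ hartogs → h x = 0) :
    Tendsto (fun n : ℕ => ∫⁻ x, {x | rho2 x < Real.exp (-2 * ((n : ℝ) + 1))}.indicator
      (fun x => ‖h x‖ₑ ^ 2) x) atTop (𝓝 0) := by
  have h0 : ∫⁻ _ : E, (0 : ℝ≥0∞) = 0 := by simp
  rw [← h0]
  apply tendsto_lintegral_of_dominated_convergence (fun x => ‖h x‖ₑ ^ 2)
  · intro n
    exact (hm.enorm.pow_const 2).indicator (measurableSet_lt continuous_rho2.measurable
      measurable_const)
  · intro n
    filter_upwards with x
    exact indicator_le_self _ _ x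
  · exact (lintegral_sq_lt_top hh).ne
  · filter_upwards with x
    by_cases hx : x ∈ hartogs
    · have hpos : 0 < rho2 x := by
        have := hx.1
        unfold rho2
        nlinarith [sq_nonneg (x 0), sq_nonneg (x 1)]
      apply tendsto_const_nhds.congr'
      have h1 : Tendsto (fun n : ℕ => Real.exp (-2 * ((n : ℝ) + 1))) atTop (𝓝 0) := by
        apply Real.tendsto_exp_atBot.comp
        apply Tendsto.const_mul_atTop_of_neg (by norm_num)
        exact tendsto_atTop_add_const_right _ _ tendsto_natCast_atTop_atTop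
      filter_upwards [h1.eventually (gt_mem_nhds hpos)] with n hn
      rw [indicator_of_notMem]
      show ¬ (rho2 x < Real.exp (-2 * ((n : ℝ) + 1)))
      exact not_lt.2 hn.le
    · have : (fun n : ℕ => {x | rho2 x < Real.exp (-2 * ((n : ℝ) + 1))}.indicator
          (fun x => ‖h x‖ₑ ^ 2) x) = fun _ => 0 := by
        ext n
        simp [indicator, hz x hx]
      rw [this]
      exact tendsto_const_nhds

end Pool.Agent.R435.HT
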