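import Pool.Agent.R435.HT.Defs

/-!
# Project HT (MP_f65596_an): piece PALL (helper780)
-/

open MeasureTheory Set Filter Topology
open scoped ContDiff ENNReal

namespace Pool.Agent.R435.HT

namespace PallAux

theorem hartogs_bdd : ∃ K : Set E, IsCompact K ∧ hartogs ⊆ K := by
  refine ⟨Set.pi univ (fun _ => Set.Icc (-1 : ℝ) 1), isCompact_univ_pi (fun _ => isCompact_Icc), ?_⟩
  intro x hx i _
  have h1 : x 0 ^ 2 + x 1 ^ 2 < x 2 ^ 2 + x 3 ^ 2 := hx.1
  have h2 : x 2 ^ 2 + x 3 ^ 2 < 1 := hx.2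
  have h : ∀ i : Fin 4, x i ^ 2 ≤ 1 := by
    intro i
    fin_cases i
    · change x 0 ^ 2 ≤ 1
      nlinarith [sq_nonneg (x 1)]
    · change x 1 ^ 2 ≤ 1
      nlinarith [sq_nonneg (x 0)]
    · change x 2 ^ 2 ≤ 1
      nlinarith [sq_nonneg (x 3)]
    · change x 3 ^ 2 ≤ 1
      nlinarith [sq_nonneg (x 2)]
  exact abs_le.mp ((sq_le_one_iff_abs_le_one _).mp (h i))

theorem cont_rho2 : Continuous rho2 := by
  unfold rho2
  fun_prop

theorem open_hartogs : IsOpen hartogs := by
  have c1 : Continuous (fun x : E => x 0 ^ 2 + x 1 ^ 2) := by fun_prop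
  have c2 : Continuous (fun x : E => x 2 ^ 2 + x 3 ^ 2) := by fun_prop
  exact (isOpen_lt c1 c2).inter (isOpen_lt c2 continuous_const)

theorem open_cone : IsOpen cone := by
  have c1 : Continuous (fun x : E => x 0 ^ 2 + x 1 ^ 2) := by fun_prop
  have c2 : Continuous (fun x : E => x 2 ^ 2 + x 3 ^ 2) := by fun_prop
  exact isOpen_lt c1 c2

/-- Multiplication by a continuous function. -/
theorem memLp_mul {a : E → ℝ} (ha : Continuous a) {h : E → ℂ} (hm : Measurable h)
    (hL : MemLp h 2 (volume : Measure E)) (hz : ∀ x, x ∉ hartogs → h x = 0) :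
    MemLp (fun x => (a x : ℂ) * h x) 2 (volume : Measure E) := by
  obtain ⟨K, hK, hsub⟩ := hartogs_bdd
  obtain ⟨C, hC⟩ := hK.exists_bound_of_continuousOn ha.continuousOn
  refine MemLp.of_le_mul (c := C) hL ?_ (Eventually.of_forall (fun x => ?_))
  · exact ((Complex.measurable_ofReal.comp ha.measurable).mul hm).aestronglyMeasurable
  · by_cases hx : x ∈ hartogs
    · rw [norm_mul, Complex.norm_real]
      exact mul_le_mul_of_nonneg_right (hC x (hsub hx)) (norm_nonneg _)
    · rw [hz x hx, mul_zero, norm_zero, mul_zero]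

theorem int_of {h : E → ℂ} (hL : MemLp h 2 (volume : Measure E))
    (hz : ∀ x, x ∉ hartogs → h x = 0) : Integrable h (volume : Measure E) := by
  obtain ⟨K, hK, hsub⟩ := hartogs_bdd
  have hfin : (volume : Measure E) K < ⊤ := hK.measure_lt_top
  have : IsFiniteMeasure ((volume : Measure E).restrict K) := ⟨by
    rw [Measure.restrict_apply_univ]; exact hfin⟩
  have h1 : MemLp h 1 ((volume : Measure E).restrict K) :=
    (hL.restrict K).mono_exponent (by norm_num)
  have h2 : IntegrableOn h K := memLp_one_iff_integrable.mp h1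
  refine (integrableOn_iff_integrable_of_support_subset ?_).mp h2
  intro x hx
  by_contra hxK
  exact hx (hz x (fun hh => hxK (hsub hh)))

theorem int_mul {a : E → ℝ} (ha : Continuous a) {h : E → ℂ} (hm : Measurable h)
    (hL : MemLp h 2 (volume : Measure E)) (hz : ∀ x, x ∉ hartogs → h x = 0) :
    Integrable (fun x => (a x : ℂ) * h x) (volume : Measure E) :=
  int_of (memLp_mul ha hm hL hz) (fun x hx => by rw [hz x hx, mul_zero])

theorem cont_pd {F : Type} [NormedAddCommGroup F] [NormedSpace ℝ F] {a : E → F}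
    (ha : ContDiff ℝ ∞ a) (i : Fin 4) : Continuous (pd i a) :=
  (ha.continuous_fderiv (by simp)).clm_apply continuous_const

theorem pd_mul {a φ : E → ℝ} (ha : ContDiff ℝ ∞ a) (hφ : ContDiff ℝ ∞ φ) (i : Fin 4) (x : E) :
    pd i (fun y => a y * φ y) x = pd i a x * φ x + a x * pd i φ x := by
  unfold pd
  have h1 : DifferentiableAt ℝ a x := (ha.differentiable (by simp)) x
  have h2 : DifferentiableAt ℝ φ x := (hφ.differentiable (by simp)) x
  rw [fderiv_fun_mul h1 h2]
  simp only [add_apply, smul_apply, smul_eq_mul]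
  ring

/-- Cut off one-form. -/
noncomputable def cf (a : E → ℝ) (f : Fin 4 → E → ℂ) (i : Fin 4) (x : E) : ℂ :=
  (a x : ℂ) * f i x

/-- Curl of the cut off one-form. -/
noncomputable def cg (a : E → ℝ) (f : Fin 4 → E → ℂ) (g : Fin 4 → Fin 4 → E → ℂ)
    (i j : Fin 4) (x : E) : ℂ :=
  (a x : ℂ) * g i j x + ((pd i a x : ℝ) : ℂ) * f j x - ((pd j a x : ℝ) : ℂ) * f i x

theorem cut_nice {a : E → ℝ} (ha : ContDiff ℝ ∞ a) {f : Fin 4 → E → ℂ}
    {g : Fin 4 → Fin 4 → E → ℂ} (h : Nice f g) : Nice (cf a f) (cg a f g) := by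
  have hc := ha.continuous
  have hp := fun i => cont_pd ha i
  have m1 : ∀ {b : E → ℝ} (_ : Continuous b), Measurable (fun x => (b x : ℂ)) := fun hb =>
    Complex.measurable_ofReal.comp hb.measurable
  refine ⟨?_, ?_, ?_, ?_, ?_, ?_⟩
  · intro i
    exact (m1 hc).mul (h.mf i)
  · intro i j
    exact (((m1 hc).mul (h.mg i j)).add ((m1 (hp i)).mul (h.mf j))).sub
      ((m1 (hp j)).mul (h.mf i))
  · intro i
    exact memLp_mul hc (h.mf i) (h.lf i) (h.zf i)
  · intro i j
    exact ((memLp_mul hc (h.mg i j) (h.lg i j) (h.zg i j)).add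
      (memLp_mul (hp i) (h.mf j) (h.lf j) (h.zf j))).sub
      (memLp_mul (hp j) (h.mf i) (h.lf i) (h.zf i))
  · intro i x hx
    unfold cf
    rw [h.zf i x hx, mul_zero]
  · intro i j x hx
    unfold cg
    rw [h.zf i x hx, h.zf j x hx, h.zg i j x hx]
    simp

theorem cut_weak {a : E → ℝ} (ha : ContDiff ℝ ∞ a) {f : Fin 4 → E → ℂ}
    {g : Fin 4 → Fin 4 → E → ℂ} (h : Nice f g) (hw : WeakCurl hartogs f g) (U : Set E)
    (hU : ∀ φ : E → ℝ, tsupport φ ⊆ U → tsupport (fun x => a x * φ x) ⊆ hartogs) :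
    WeakCurl U (cf a f) (cg a f g) := by
  intro i j φ hφ hφc hφU
  have hc := ha.continuous
  have hp := fun i => cont_pd ha i
  have hφ' := hφ.continuous
  have hpφ := fun i => cont_pd hφ i
  have key := hw i j (fun x => a x * φ x) (ha.mul hφ)
    (hφc.mul_left) (hU φ hφU)
  have I1 : Integrable (fun x => ((a x * φ x : ℝ) : ℂ) * g i j x) (volume : Measure E) :=
    int_mul (hc.mul hφ') (h.mg i j) (h.lg i j) (h.zg i j)
  have I2 : ∀ p q : Fin 4, Integrable (fun x => ((pd p a x * φ x : ℝ) : ℂ) * f q x)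
      (volume : Measure E) := fun p q =>
    int_mul ((hp p).mul hφ') (h.mf q) (h.lf q) (h.zf q)
  have I3 : ∀ p q : Fin 4, Integrable (fun x => ((a x * pd p φ x : ℝ) : ℂ) * f q x)
      (volume : Measure E) := fun p q =>
    int_mul (hc.mul (hpφ p)) (h.mf q) (h.lf q) (h.zf q)
  have E1 : ∀ p q : Fin 4, ∫ x, ((pd p (fun y => a y * φ y) x : ℝ) : ℂ) * f q x
      = (∫ x, ((pd p a x * φ x : ℝ) : ℂ) * f q x)
        + ∫ x, ((a x * pd p φ x : ℝ) : ℂ) * f q x := by
    intro p q
    rw [← integral_add (I2 p q) (I3 p q)]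
    refine integral_congr_ae (Eventually.of_forall (fun x => ?_))
    beta_reduce
    rw [pd_mul ha hφ]
    push_cast
    ring
  have E2 : ∫ x, (φ x : ℂ) * cg a f g i j x
      = (∫ x, ((a x * φ x : ℝ) : ℂ) * g i j x) + (∫ x, ((pd i a x * φ x : ℝ) : ℂ) * f j x)
        - ∫ x, ((pd j a x * φ x : ℝ) : ℂ) * f i x := by
    have I4 : Integrable (fun x => ((a x * φ x : ℝ) : ℂ) * g i j x
        + ((pd i a x * φ x : ℝ) : ℂ) * f j x) (volume : Measure E) := I1.add (I2 i j)
    rw [← integral_add I1 (I2 i j), ← integral_sub I4 (I2 j i)]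
    refine integral_congr_ae (Eventually.of_forall (fun x => ?_))
    unfold cg
    beta_reduce
    push_cast
    ring
  have E3 : ∀ p q : Fin 4, ∫ x, ((pd p φ x : ℝ) : ℂ) * cf a f q x
      = ∫ x, ((a x * pd p φ x : ℝ) : ℂ) * f q x := by
    intro p q
    refine integral_congr_ae (Eventually.of_forall (fun x => ?_))
    unfold cf
    beta_reduce
    push_cast
    ring
  rw [E2, E3, E3]
  rw [E1, E1] at key
  linear_combination key

/-- The cut off function. -/
noncomputable def eta (x : E) : ℝ := Real.smoothTransition ((9 / 16 - rho2 x) * (16 / 5))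

theorem eta_smooth : ContDiff ℝ ∞ eta := by
  unfold eta rho2
  refine Real.smoothTransition.contDiff.comp ?_
  fun_prop

theorem eta_one {x : E} (hx : rho2 x ≤ 1 / 4) : eta x = 1 :=
  Real.smoothTransition.one_of_one_le (by linarith)

theorem eta_zero {x : E} (hx : 9 / 16 ≤ rho2 x) : eta x = 0 :=
  Real.smoothTransition.zero_of_nonpos (by linarith)

theorem pd_sub_one (i : Fin 4) (x : E) : pd i (fun y => 1 - eta y) x = - pd i eta x := by
  unfold pd
  rw [fderiv_const_sub]
  rfl

theorem pd_eta_zero {x : E} (hx : rho2 x < 1 / 4) (i : Fin 4) : pd i eta x = 0 := by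
  unfold pd
  have h1 : eta =ᶠ[𝓝 x] fun _ => (1 : ℝ) := by
    filter_upwards [(isOpen_lt cont_rho2 continuous_const).mem_nhds hx] with y hy
    exact eta_one (le_of_lt hy)
  rw [h1.fderiv_eq, fderiv_const_apply]
  rfl

theorem nice_add {f f' : Fin 4 → E → ℂ} {g g' : Fin 4 → Fin 4 → E → ℂ} (h : Nice f g)
    (h' : Nice f' g') : Nice (fun i x => f i x + f' i x) (fun i j x => g i j x + g' i j x) :=
  ⟨fun i => (h.mf i).add (h'.mf i), fun i j => (h.mg i j).add (h'.mg i j),
    fun i => (h.lf i).add (h'.lf i), fun i j => (h.lg i j).add (h'.lg i j),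
    fun i x hx => by rw [h.zf i x hx, h'.zf i x hx, add_zero],
    fun i j x hx => by rw [h.zg i j x hx, h'.zg i j x hx, add_zero]⟩

end PallAux

open PallAux in
theorem pPALL (hN : S_NZ) (hR : S_REGP) : S_PALL := by
  intro f g hfg hw ε hε
  have hη := eta_smooth
  have hη' : ContDiff ℝ ∞ (fun x => 1 - eta x) := contDiff_const.sub eta_smooth
  have hε2 : 0 < ε / 2 := by linarith
  -- first part
  have n1 := cut_nice hη hfg
  have w1 : WeakCurl cone (cf eta f) (cg eta f g) := by
    refine cut_weak hη hfg hw cone (fun φ hφ => ?_)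
    intro x hx
    have hx1 : x ∈ tsupport φ := tsupport_mul_subset_right hx
    have hx2 : x ∈ tsupport eta := tsupport_mul_subset_left hx
    have hx3 : x ∈ {y : E | rho2 y ≤ 9 / 16} := by
      refine closure_minimal ?_ (isClosed_le cont_rho2 continuous_const) hx2
      intro y hy
      by_contra hcon
      exact hy (eta_zero (le_of_lt (not_le.mp hcon)))
    refine ⟨hφ hx1, ?_⟩
    have : rho2 x ≤ 9 / 16 := hx3
    unfold rho2 at this
    linarith
  obtain ⟨r, hr, f', g', hn', hf'0, hg'0, hf', hg', hw'⟩ := hN cone open_cone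
    (by
      intro x hx t ht
      change (t * x 0) ^ 2 + (t * x 1) ^ 2 < (t * x 2) ^ 2 + (t * x 3) ^ 2
      have hx' : x 0 ^ 2 + x 1 ^ 2 < x 2 ^ 2 + x 3 ^ 2 := hx
      nlinarith [mul_lt_mul_of_pos_left hx' (pow_pos ht 2)])
    (by
      intro x hx
      have hx' : x 0 ^ 2 + x 1 ^ 2 < x 2 ^ 2 + x 3 ^ 2 := hx
      unfold rho2
      nlinarith [sq_nonneg (x 0), sq_nonneg (x 1)])
    _ _ n1 w1 (ε / 2) hε2
  -- second part
  have n2 := cut_nice hη' hfg
  have w2 : WeakCurl hartogs (cf (fun x => 1 - eta x) f) (cg (fun x => 1 - eta x) f g) :=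
    cut_weak hη' hfg hw hartogs (fun φ hφ => tsupport_mul_subset_right.trans hφ)
  obtain ⟨F0, hF0⟩ : ∃ F0 : Fin 4 → E → ℂ, F0 = fun i x =>
    f' i x + cf (fun x => 1 - eta x) f i x := ⟨_, rfl⟩
  obtain ⟨G0, hG0⟩ : ∃ G0 : Fin 4 → Fin 4 → E → ℂ, G0 = fun i j x =>
    g' i j x + cg (fun x => 1 - eta x) f g i j x := ⟨_, rfl⟩
  have n3 : Nice F0 G0 := by rw [hF0, hG0]; exact nice_add hn' n2
  have w3 : WeakCurl hartogs F0 G0 := by
    intro i j φ hφ hφc hφU
    have a1 := hw' i j φ hφ hφc (fun x hx => (hφU hx.1).1)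
    have a2 := w2 i j φ hφ hφc hφU
    have e1 : ∫ x, (φ x : ℂ) * G0 i j x = (∫ x, (φ x : ℂ) * g' i j x)
        + ∫ x, (φ x : ℂ) * cg (fun x => 1 - eta x) f g i j x := by
      rw [← integral_add (int_mul hφ.continuous (hn'.mg i j) (hn'.lg i j) (hn'.zg i j))
        (int_mul hφ.continuous (n2.mg i j) (n2.lg i j) (n2.zg i j)), hG0]
      refine integral_congr_ae (Eventually.of_forall (fun x => ?_))
      beta_reduce
      ring
    have e2 : ∀ p q : Fin 4, ∫ x, ((pd p φ x : ℝ) : ℂ) * F0 q x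
        = (∫ x, ((pd p φ x : ℝ) : ℂ) * f' q x)
        + ∫ x, ((pd p φ x : ℝ) : ℂ) * cf (fun x => 1 - eta x) f q x := by
      intro p q
      rw [← integral_add (int_mul (cont_pd hφ p) (hn'.mf q) (hn'.lf q) (hn'.zf q))
        (int_mul (cont_pd hφ p) (n2.mf q) (n2.lf q) (n2.zf q)), hF0]
      refine integral_congr_ae (Eventually.of_forall (fun x => ?_))
      beta_reduce
      ring
    rw [e1, e2, e2, a1, a2]
    ring
  obtain ⟨F, hFs, hF1, hF2⟩ := hR F0 G0 n3 w3 (min r (1 / 4)) (lt_min hr (by norm_num))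
    (by
      intro i x hx
      have h1 : rho2 x < r := lt_of_lt_of_le hx (min_le_left _ _)
      have h2 : rho2 x < 1 / 4 := lt_of_lt_of_le hx (min_le_right _ _)
      rw [hF0]
      beta_reduce
      rw [hf'0 i x h1]
      unfold cf
      beta_reduce
      rw [eta_one h2.le]
      simp)
    (by
      intro i j x hx
      have h1 : rho2 x < r := lt_of_lt_of_le hx (min_le_left _ _)
      have h2 : rho2 x < 1 / 4 := lt_of_lt_of_le hx (min_le_right _ _)
      rw [hG0]
      beta_reduce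
      rw [hg'0 i j x h1]
      unfold cg
      beta_reduce
      rw [eta_one h2.le, pd_sub_one, pd_sub_one, pd_eta_zero h2, pd_eta_zero h2]
      simp) (ε / 2) hε2
  have hsum : ENNReal.ofReal (ε / 2) + ENNReal.ofReal (ε / 2) = ENNReal.ofReal ε := by
    rw [← ENNReal.ofReal_add hε2.le hε2.le]
    congr 1
    ring
  refine ⟨F, hFs, ?_, ?_⟩
  · intro i
    have e : F i - f i = (F i - F0 i) + (f' i - cf eta f i) := by
      funext x
      simp only [Pi.sub_apply, Pi.add_apply, hF0, cf]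
      push_cast
      ring
    rw [e, ← hsum]
    refine (eLpNorm_add_le ?_ ?_ (by norm_num)).trans (add_le_add (hF1 i) ?_)
    · exact ((hFs i).continuous.measurable.sub (n3.mf i)).aestronglyMeasurable
    · exact ((hn'.mf i).sub (n1.mf i)).aestronglyMeasurable
    · exact (eLpNorm_restrict_le _ _ _ _).trans (hf' i)
  · intro i j
    have e : (fun x => pd i (F j) x - pd j (F i) x - g i j x)
        = (fun x => pd i (F j) x - pd j (F i) x - G0 i j x) + (g' i j - cg eta f g i j) := by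
      funext x
      simp only [Pi.sub_apply, Pi.add_apply, hG0, cg, pd_sub_one]
      push_cast
      ring
    rw [e, ← hsum]
    refine (eLpNorm_add_le ?_ ?_ (by norm_num)).trans (add_le_add (hF2 i j) ?_)
    · exact (((cont_pd (hFs j) i).measurable.sub (cont_pd (hFs i) j).measurable).sub
        (n3.mg i j)).aestronglyMeasurable
    · exact ((hn'.mg i j).sub (n1.mg i j)).aestronglyMeasurable
    · exact (eLpNorm_restrict_le _ _ _ _).trans (hg' i j)

end Pool.Agent.R435.HT
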