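import Pool.Agent.R435.HT.REGP

/-!
# Project HT: regularisation with compact support (REGD)
-/

set_option autoImplicit false
set_option linter.unusedSimpArgs false

open MeasureTheory Set Filter Topology
open scoped ContDiff ENNReal

namespace Pool.Agent.R435.HT

namespace Reg

/-- a compact subset of the Hartogs triangle -/
def ZZ (δ : ℝ) : Set E :=
  {x | x 0 ^ 2 + x 1 ^ 2 + δ ≤ x 2 ^ 2 + x 3 ^ 2 ∧ x 2 ^ 2 + x 3 ^ 2 + δ ≤ 1}

lemma ZZ_sub {δ : ℝ} (hδ : 0 < δ) : ZZ δ ⊆ hartogs := by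
  intro x hx
  obtain ⟨h1, h2⟩ := hx
  exact ⟨by linarith, by linarith⟩

lemma ZZ_closed (δ : ℝ) : IsClosed (ZZ δ) := by
  have h1 : IsClosed {x : E | x 0 ^ 2 + x 1 ^ 2 + δ ≤ x 2 ^ 2 + x 3 ^ 2} :=
    isClosed_le (by fun_prop) (by fun_prop)
  have h2 : IsClosed {x : E | x 2 ^ 2 + x 3 ^ 2 + δ ≤ 1} :=
    isClosed_le (by fun_prop) (by fun_prop)
  exact h1.inter h2

lemma ZZ_compact {δ : ℝ} (hδ : 0 < δ) : IsCompact (ZZ δ) := by
  refine Metric.isCompact_of_isClosed_isBounded (ZZ_closed δ) ?_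
  refine (Metric.isBounded_closedBall (x := (0 : E)) (r := 1)).subset ?_
  intro x hx
  rw [mem_closedBall_zero_iff, pi_norm_le_iff_of_nonneg zero_le_one]
  intro i
  rw [Real.norm_eq_abs]
  exact coords_le (ZZ_sub hδ hx) i

lemma geoD0 {κ r δ P Q P' Q' : ℝ} (hκ0 : 0 < κ) (hκ1 : κ < 1 / 4) (hr : 0 < r) (hδ0 : 0 < δ)
    (hδ1 : δ < κ * r / 100) (hδ2 : δ < κ / 7)
    (hPQ : (1 + 2 * κ) ^ 2 * P < (1 + κ) ^ 2 * Q) (hQ1 : (1 + κ) ^ 2 * Q < 1)
    (hc : r ≤ (1 + κ) ^ 2 * Q)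
    (f1 : P' ≤ P + 6 * δ) (f2 : Q' ≤ Q + 6 * δ) (f3 : Q - 6 * δ ≤ Q') :
    P' + δ ≤ Q' ∧ Q' + δ ≤ 1 := by
  have hQ0 : 0 < Q := by
    by_contra hcon
    push Not at hcon
    have : (1 + κ) ^ 2 * Q ≤ 0 := mul_nonpos_of_nonneg_of_nonpos (sq_nonneg _) hcon
    linarith
  have hQr : r / 2 ≤ Q := by
    have h1 : (1 + κ) ^ 2 * Q ≤ 2 * Q := by
      apply mul_le_mul_of_nonneg_right _ hQ0.le
      nlinarith
    linarith
  constructor
  · have h0 : 0 < (1 + 2 * κ) ^ 2 := by positivity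
    have h1 : P + 13 * δ ≤ Q := by
      have h2 : (1 + 2 * κ) ^ 2 * (P + 13 * δ) ≤ (1 + 2 * κ) ^ 2 * Q := by
        have h3 : (1 + 2 * κ) ^ 2 * Q = (1 + κ) ^ 2 * Q + κ * (2 + 3 * κ) * Q := by ring
        have h4 : (1 + 2 * κ) ^ 2 * (13 * δ) ≤ (9 / 4) * (13 * δ) := by
          apply mul_le_mul_of_nonneg_right _ (by positivity)
          nlinarith
        have h5 : κ * 2 * (r / 2) ≤ κ * (2 + 3 * κ) * Q := by
          have h6 : κ * 2 * (r / 2) ≤ κ * 2 * Q :=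
            mul_le_mul_of_nonneg_left hQr (by positivity)
          have h7 : κ * 2 * Q ≤ κ * (2 + 3 * κ) * Q := by
            apply mul_le_mul_of_nonneg_right _ hQ0.le
            exact mul_le_mul_of_nonneg_left (by linarith) hκ0.le
          linarith
        linarith
      exact le_of_mul_le_mul_left h2 h0
    linarith
  · have h1 : Q ≤ 1 - κ := by
      by_contra hcon
      push Not at hcon
      have h2 : (1 + κ) ^ 2 * (1 - κ) ≤ (1 + κ) ^ 2 * Q :=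
        mul_le_mul_of_nonneg_left hcon.le (sq_nonneg _)
      have h3 : (1 + κ) ^ 2 * (1 - κ) = 1 + κ * (1 - κ - κ ^ 2) := by ring
      have h4 : 0 ≤ κ * (1 - κ - κ ^ 2) := by
        apply mul_nonneg hκ0.le
        nlinarith
      linarith
    linarith

lemma sq_close' {a b δ : ℝ} (hδ : 0 < δ) (hδ1 : δ ≤ 1) (hb : |b| ≤ 1) (h : |a - b| ≤ δ) :
    a ^ 2 ≤ b ^ 2 + 3 * δ ∧ b ^ 2 - 3 * δ ≤ a ^ 2 := by
  rw [abs_sub_comm] at h
  exact sq_close hδ hδ1 hb h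

lemma geoD {κ r δ : ℝ} (hκ0 : 0 < κ) (hκ1 : κ < 1 / 4) (hr : 0 < r) (hδ0 : 0 < δ)
    (hδ1 : δ < κ * r / 100) (hδ2 : δ < κ / 7) {x y : E}
    (hyh : (fun i => cv κ i * y i) ∈ hartogs) (hyr : r ≤ rho2 (fun i => cv κ i * y i))
    (hy : ‖x - y‖ ≤ δ) : x ∈ ZZ δ := by
  have hb : ∀ i, |y i| ≤ 1 := by
    intro i
    have h1 := coords_le hyh i
    have h2 : 1 ≤ cv κ i := by
      fin_cases i <;> simp [cv] <;> linarith
    rw [abs_mul, abs_of_pos (by linarith)] at h1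
    nlinarith [abs_nonneg (y i)]
  have hδ3 : δ ≤ 1 := by linarith
  have e0 := sq_close' hδ0 hδ3 (hb 0) (coord_le hy 0)
  have e1 := sq_close' hδ0 hδ3 (hb 1) (coord_le hy 1)
  have e2 := sq_close' hδ0 hδ3 (hb 2) (coord_le hy 2)
  have e3 := sq_close' hδ0 hδ3 (hb 3) (coord_le hy 3)
  obtain ⟨hx1, hx2⟩ := hyh
  unfold rho2 at hyr
  simp only [cv, Matrix.cons_val_zero, Matrix.cons_val_one, Matrix.cons_val, mul_pow]
    at hx1 hx2 hyr
  exact geoD0 (P := y 0 ^ 2 + y 1 ^ 2) (Q := y 2 ^ 2 + y 3 ^ 2) hκ0 hκ1 hr hδ0 hδ1 hδ2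
    (by linarith) (by linarith) (by linarith) (by linarith [e0.1, e1.1])
    (by linarith [e2.1, e3.1]) (by linarith [e2.2, e3.2])

end Reg

open Reg

theorem pREGD (hM : S_MOL) (hE : S_EXM) (hS : S_SCL) (hW : S_WSC) (hO : S_WMO) : S_REGD := by
  intro f g hN hw r hr hfr hgr ε hε
  have hε2 : 0 < ε / 2 := by positivity
  -- the scaling parameter
  have hev : ∀ᶠ t in 𝓝[>] (0 : ℝ), (∀ j, eLpNorm (fts t f j - f j) 2 (volume : Measure E) ≤
      ENNReal.ofReal (ε / 2)) ∧ (∀ i j, eLpNorm (gts t g i j - g i j) 2 (volume : Measure E) ≤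
      ENNReal.ofReal (ε / 2)) ∧ t < 1 / 4 := by
    have h1 : ∀ᶠ t in 𝓝 (0 : ℝ), t < 1 / 4 := gt_mem_nhds (by norm_num)
    filter_upwards [nhdsWithin_le_nhds (ev_f hS hN hε2), nhdsWithin_le_nhds (ev_g hS hN hε2),
      nhdsWithin_le_nhds h1] with t h1 h2 h3
    exact ⟨h1, h2, h3⟩
  obtain ⟨κ, ⟨hf, hg, hκ1⟩, hκ0⟩ := (hev.and self_mem_nhdsWithin).exists
  have hκ0 : 0 < κ := hκ0
  have hfL : ∀ j, MemLp (fts κ f j) 2 (volume : Measure E) := fun j =>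
    memLp_of_close (hN.lf j) (fts_meas hN κ j) (hf j)
  have hgL : ∀ i j, MemLp (gts κ g i j) 2 (volume : Measure E) := fun i j =>
    memLp_of_close (hN.lg i j) (gts_meas hN κ i j) (hg i j)
  have hcpos : ∀ i, 0 < cv κ i := by
    intro i
    fin_cases i <;> simp [cv] <;> linarith
  have hweak : WeakCurl {x | (fun i => cv κ i * x i) ∈ univ} (fts κ f) (gts κ g) :=
    hW univ f g (cv κ) hcpos hw
  -- the mollifier
  have hev2 : ∀ᶠ δ in 𝓝[>] (0 : ℝ), (∀ j, ∀ η, IsMoll η δ →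
      eLpNorm (moll η (fts κ f j) - fts κ f j) 2 (volume : Measure E) ≤
        ENNReal.ofReal (ε / 2)) ∧
      (∀ i j, ∀ η, IsMoll η δ →
      eLpNorm (moll η (gts κ g i j) - gts κ g i j) 2 (volume : Measure E) ≤
        ENNReal.ofReal (ε / 2)) ∧ δ < κ * r / 100 ∧ δ < κ / 7 := by
    have h1 : ∀ᶠ δ in 𝓝[>] (0 : ℝ), ∀ j, ∀ η, IsMoll η δ →
      eLpNorm (moll η (fts κ f j) - fts κ f j) 2 (volume : Measure E) ≤
        ENNReal.ofReal (ε / 2) := by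
      rw [eventually_all]
      exact fun j => ev_moll hM (hfL j) hε2
    have h2 : ∀ᶠ δ in 𝓝[>] (0 : ℝ), ∀ i j, ∀ η, IsMoll η δ →
      eLpNorm (moll η (gts κ g i j) - gts κ g i j) 2 (volume : Measure E) ≤
        ENNReal.ofReal (ε / 2) := by
      rw [eventually_all]
      intro i
      rw [eventually_all]
      exact fun j => ev_moll hM (hgL i j) hε2
    have h3 : ∀ᶠ δ in 𝓝[>] (0 : ℝ), δ < κ * r / 100 :=
      nhdsWithin_le_nhds (gt_mem_nhds (by positivity))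
    have h4 : ∀ᶠ δ in 𝓝[>] (0 : ℝ), δ < κ / 7 :=
      nhdsWithin_le_nhds (gt_mem_nhds (by positivity))
    filter_upwards [h1, h2, h3, h4] with δ h1 h2 h3 h4
    exact ⟨h1, h2, h3, h4⟩
  obtain ⟨δ, ⟨hδf, hδg, hδ1, hδ2⟩, hδ0⟩ := (hev2.and self_mem_nhdsWithin).exists
  have hδ0 : 0 < δ := hδ0
  obtain ⟨η, hη⟩ := hE δ hδ0
  obtain ⟨hO1, hO2, hO3⟩ := hO η δ hδ0 hη
  have hcurl : ∀ x, ∀ i j, pd i (moll η (fts κ f j)) x - pd j (moll η (fts κ f i)) x =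
      moll η (gts κ g i j) x := by
    intro x i j
    exact hO3 _ (fts κ f) (gts κ g) hfL hweak x (fun y _ => mem_univ _) i j
  have hsupp : ∀ j, ∀ x, x ∉ ZZ δ → moll η (fts κ f j) x = 0 := by
    intro j x hx
    refine (hO2 _ (hfL j) x ?_).1
    intro y hy
    unfold fts
    by_cases h1 : (fun i => cv κ i * y i) ∈ hartogs
    · by_cases h2 : r ≤ rho2 (fun i => cv κ i * y i)
      · exact absurd (geoD hκ0 hκ1 hr hδ0 hδ1 hδ2 h1 h2 hy) hx
      · push Not at h2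
        rw [hfr j _ h2, mul_zero]
    · rw [hN.zf j _ h1, mul_zero]
  have htsupp : ∀ j, tsupport (moll η (fts κ f j)) ⊆ ZZ δ := by
    intro j
    refine closure_minimal ?_ (ZZ_closed δ)
    intro x hx
    by_contra hcon
    exact hx (hsupp j x hcon)
  refine ⟨fun j => moll η (fts κ f j), fun j => hO1 _ (hfL j), ?_, ?_, ?_, ?_⟩
  · intro j
    exact (ZZ_compact hδ0).of_isClosed_subset (isClosed_tsupport _) (htsupp j)
  · intro j
    exact (htsupp j).trans (ZZ_sub hδ0)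
  · intro i
    exact close3 hε ((hO1 _ (hfL i)).continuous.aestronglyMeasurable) (hfL i).1 (hN.lf i).1
      (hδf i η hη) (hf i)
  · intro i j
    have h1 : (fun x => pd i (moll η (fts κ f j)) x - pd j (moll η (fts κ f i)) x - g i j x)
        = moll η (gts κ g i j) - g i j := by
      funext x
      rw [hcurl x i j]
      rfl
    rw [h1]
    exact close3 hε ((hO1 _ (hgL i j)).continuous.aestronglyMeasurable) (hgL i j).1 (hN.lg i j).1
      (hδg i j η hη) (hg i j)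

end Pool.Agent.R435.HT
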