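import Pool.Agent.R435.HT.Defs

/-!
# Project HT: regularisation pieces (REGP), with the common lemmas used for REGD
-/

set_option autoImplicit false
set_option linter.unusedSimpArgs false

open MeasureTheory Set Filter Topology
open scoped ContDiff ENNReal

namespace Pool.Agent.R435.HT

namespace Reg

/-- the scaling factors -/
def cv (t : ℝ) : Fin 4 → ℝ := ![1 + 2 * t, 1 + 2 * t, 1 + t, 1 + t]

/-- the scaled one-form -/
def fts (t : ℝ) (f : Fin 4 → E → ℂ) : Fin 4 → E → ℂ :=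
  fun j x => (cv t j : ℂ) * f j (fun i => cv t i * x i)

/-- the scaled two-form -/
def gts (t : ℝ) (g : Fin 4 → Fin 4 → E → ℂ) : Fin 4 → Fin 4 → E → ℂ :=
  fun i j x => ((cv t i * cv t j : ℝ) : ℂ) * g i j (fun i => cv t i * x i)

lemma cv_continuous (i : Fin 4) : Continuous (fun t => cv t i) := by
  fin_cases i <;> simp [cv] <;> fun_prop

lemma cv_zero (i : Fin 4) : cv 0 i = 1 := by
  fin_cases i <;> simp [cv]

lemma cv_ev (δ : ℝ) (hδ : 0 < δ) (i : Fin 4) : ∀ᶠ t in 𝓝 (0 : ℝ), |cv t i - 1| < δ := by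
  have h : Tendsto (fun t => |cv t i - 1|) (𝓝 0) (𝓝 |cv 0 i - 1|) :=
    (((cv_continuous i).sub continuous_const).abs).tendsto 0
  rw [cv_zero, sub_self, abs_zero] at h
  exact h.eventually (gt_mem_nhds hδ)

lemma cv_ev2 (δ : ℝ) (hδ : 0 < δ) (i j : Fin 4) :
    ∀ᶠ t in 𝓝 (0 : ℝ), |cv t i * cv t j - 1| < δ := by
  have h : Tendsto (fun t => |cv t i * cv t j - 1|) (𝓝 0) (𝓝 |cv 0 i * cv 0 j - 1|) :=
    ((((cv_continuous i).mul (cv_continuous j)).sub continuous_const).abs).tendsto 0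
  rw [cv_zero, cv_zero, mul_one, sub_self, abs_zero] at h
  exact h.eventually (gt_mem_nhds hδ)

lemma ev_f (hS : S_SCL) {f : Fin 4 → E → ℂ} {g : Fin 4 → Fin 4 → E → ℂ} (hN : Nice f g)
    {ε : ℝ} (hε : 0 < ε) : ∀ᶠ t in 𝓝 (0 : ℝ), ∀ j,
      eLpNorm (fts t f j - f j) 2 (volume : Measure E) ≤ ENNReal.ofReal ε := by
  rw [eventually_all]
  intro j
  obtain ⟨δ, hδ, h⟩ := hS (f j) (hN.lf j) ε hε
  have h1 : ∀ᶠ t in 𝓝 (0 : ℝ), ∀ i, |cv t i - 1| < δ := by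
    rw [eventually_all]
    exact cv_ev δ hδ
  filter_upwards [h1] with t ht
  exact h (cv t j) (cv t) (ht j) ht

lemma ev_g (hS : S_SCL) {f : Fin 4 → E → ℂ} {g : Fin 4 → Fin 4 → E → ℂ} (hN : Nice f g)
    {ε : ℝ} (hε : 0 < ε) : ∀ᶠ t in 𝓝 (0 : ℝ), ∀ i j,
      eLpNorm (gts t g i j - g i j) 2 (volume : Measure E) ≤ ENNReal.ofReal ε := by
  rw [eventually_all]
  intro i
  rw [eventually_all]
  intro j
  obtain ⟨δ, hδ, h⟩ := hS (g i j) (hN.lg i j) ε hε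
  have h1 : ∀ᶠ t in 𝓝 (0 : ℝ), ∀ i, |cv t i - 1| < δ := by
    rw [eventually_all]
    exact cv_ev δ hδ
  filter_upwards [h1, cv_ev2 δ hδ i j] with t ht ht2
  exact h (cv t i * cv t j) (cv t) ht2 ht

lemma meas_scale (t : ℝ) : Measurable (fun x : E => (fun i => cv t i * x i : E)) :=
  measurable_pi_lambda _ fun i => measurable_const.mul (measurable_pi_apply i)

lemma fts_meas {f : Fin 4 → E → ℂ} {g : Fin 4 → Fin 4 → E → ℂ} (hN : Nice f g) (t : ℝ)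
    (j : Fin 4) : Measurable (fts t f j) :=
  measurable_const.mul ((hN.mf j).comp (meas_scale t))

lemma gts_meas {f : Fin 4 → E → ℂ} {g : Fin 4 → Fin 4 → E → ℂ} (hN : Nice f g) (t : ℝ)
    (i j : Fin 4) : Measurable (gts t g i j) :=
  measurable_const.mul ((hN.mg i j).comp (meas_scale t))

lemma memLp_of_close {h h' : E → ℂ} (hh : MemLp h 2 (volume : Measure E)) (hm : Measurable h')
    {ε : ℝ} (hc : eLpNorm (h' - h) 2 (volume : Measure E) ≤ ENNReal.ofReal ε) :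
    MemLp h' 2 (volume : Measure E) := by
  have h1 : MemLp (h' - h) 2 (volume : Measure E) :=
    ⟨hm.aestronglyMeasurable.sub hh.1, hc.trans_lt ENNReal.ofReal_lt_top⟩
  have h2 : h' = (h' - h) + h := by simp
  rw [h2]
  exact h1.add hh

lemma ev_moll (hM : S_MOL) {h : E → ℂ} (hh : MemLp h 2 (volume : Measure E)) {ε : ℝ}
    (hε : 0 < ε) : ∀ᶠ δ in 𝓝[>] (0 : ℝ), ∀ η, IsMoll η δ →
      eLpNorm (moll η h - h) 2 (volume : Measure E) ≤ ENNReal.ofReal ε := by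
  obtain ⟨δ₀, hδ₀, h1⟩ := hM h hh ε hε
  have : ∀ᶠ δ in 𝓝[>] (0 : ℝ), δ < δ₀ := nhdsWithin_le_nhds (gt_mem_nhds hδ₀)
  filter_upwards [this] with δ hδ η hη
  exact h1 η δ hδ.le hη

lemma close3 {μ : Measure E} {u v w : E → ℂ} {ε : ℝ} (hε : 0 < ε)
    (hu : AEStronglyMeasurable u μ) (hv : AEStronglyMeasurable v μ)
    (hw : AEStronglyMeasurable w μ)
    (h1 : eLpNorm (u - v) 2 μ ≤ ENNReal.ofReal (ε / 2))
    (h2 : eLpNorm (v - w) 2 μ ≤ ENNReal.ofReal (ε / 2)) :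
    eLpNorm (u - w) 2 μ ≤ ENNReal.ofReal ε := by
  have h3 : u - w = (u - v) + (v - w) := by simp
  rw [h3]
  refine (eLpNorm_add_le (hu.sub hv) (hv.sub hw) (by norm_num)).trans ?_
  refine (add_le_add h1 h2).trans ?_
  rw [← ENNReal.ofReal_add (by positivity) (by positivity)]
  exact ENNReal.ofReal_le_ofReal (by linarith)

lemma isOpen_hartogs : IsOpen hartogs := by
  have h1 : IsOpen {x : E | x 0 ^ 2 + x 1 ^ 2 < x 2 ^ 2 + x 3 ^ 2} :=
    isOpen_lt (by fun_prop) (by fun_prop)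
  have h2 : IsOpen {x : E | x 2 ^ 2 + x 3 ^ 2 < 1} := isOpen_lt (by fun_prop) (by fun_prop)
  exact h1.inter h2

lemma coord_le {x y : E} {δ : ℝ} (h : ‖x - y‖ ≤ δ) (i : Fin 4) : |x i - y i| ≤ δ := by
  have := (norm_le_pi_norm (x - y) i).trans h
  simpa [Real.norm_eq_abs] using this

lemma sq_close {a b δ : ℝ} (hδ : 0 < δ) (hδ1 : δ ≤ 1) (ha : |a| ≤ 1) (h : |a - b| ≤ δ) :
    b ^ 2 ≤ a ^ 2 + 3 * δ ∧ a ^ 2 - 3 * δ ≤ b ^ 2 := by
  rw [abs_le] at ha h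
  constructor
  · nlinarith [mul_nonneg (sub_nonneg.mpr ha.2) (sub_nonneg.mpr h.2), ha.1, ha.2, h.1, h.2,
      sq_nonneg (a - b), mul_nonneg hδ.le hδ.le]
  · nlinarith [ha.1, ha.2, h.1, h.2, sq_nonneg (a - b), mul_nonneg hδ.le hδ.le]

lemma coords_le {x : E} (hx : x ∈ hartogs) (i : Fin 4) : |x i| ≤ 1 := by
  obtain ⟨hx1, hx2⟩ := hx
  have h0 := sq_nonneg (x 0)
  have h1 := sq_nonneg (x 1)
  have h2 := sq_nonneg (x 2)
  have h3 := sq_nonneg (x 3)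
  have q0 : |x 0| ≤ 1 := by rw [← sq_le_one_iff_abs_le_one]; linarith
  have q1 : |x 1| ≤ 1 := by rw [← sq_le_one_iff_abs_le_one]; linarith
  have q2 : |x 2| ≤ 1 := by rw [← sq_le_one_iff_abs_le_one]; linarith
  have q3 : |x 3| ≤ 1 := by rw [← sq_le_one_iff_abs_le_one]; linarith
  fin_cases i
  · exact q0
  · exact q1
  · exact q2
  · exact q3

lemma geoP0 {κ r δ P Q P' Q' : ℝ} (hκ0 : 0 < κ) (hκ1 : κ < 1 / 4) (hr : 0 < r) (hδ0 : 0 < δ)
    (hδ1 : δ < κ * r / 48) (hδ2 : δ < κ / 6) (hPQ : P < Q) (hQ1 : Q < 1) (hc : r / 4 ≤ Q)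
    (f1 : P' ≤ P + 6 * δ) (f2 : Q' ≤ Q + 6 * δ) (f3 : Q - 6 * δ ≤ Q') :
    (1 + 2 * -κ) ^ 2 * P' < (1 + -κ) ^ 2 * Q' ∧ (1 + -κ) ^ 2 * Q' < 1 := by
  constructor
  · have k1 : (1 + 2 * -κ) ^ 2 * P' ≤ (1 + 2 * -κ) ^ 2 * (P + 6 * δ) :=
      mul_le_mul_of_nonneg_left f1 (sq_nonneg _)
    have k2 : (1 + -κ) ^ 2 * (Q - 6 * δ) ≤ (1 + -κ) ^ 2 * Q' :=
      mul_le_mul_of_nonneg_left f3 (sq_nonneg _)
    have k3 : 0 < (1 + 2 * -κ) ^ 2 := by
      have : 0 < 1 + 2 * -κ := by linarith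
      positivity
    have k4 : (1 + 2 * -κ) ^ 2 * (P + 6 * δ) < (1 + 2 * -κ) ^ 2 * (Q + 6 * δ) :=
      mul_lt_mul_of_pos_left (by linarith) k3
    have k5 : (1 + 2 * -κ) ^ 2 * (Q + 6 * δ) ≤ (1 + -κ) ^ 2 * (Q - 6 * δ) := by
      have k6 : (1 + -κ) ^ 2 * (Q - 6 * δ) - (1 + 2 * -κ) ^ 2 * (Q + 6 * δ) =
        κ * (2 - 3 * κ) * Q - 6 * δ * ((1 - κ) ^ 2 + (1 - 2 * κ) ^ 2) := by ring
      have k7 : κ * (r / 4) ≤ κ * (2 - 3 * κ) * Q := by
        have h1 : κ * 1 * Q ≤ κ * (2 - 3 * κ) * Q := by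
          apply mul_le_mul_of_nonneg_right _ (by linarith)
          exact mul_le_mul_of_nonneg_left (by linarith) hκ0.le
        have h2 : κ * (r / 4) ≤ κ * Q := mul_le_mul_of_nonneg_left hc hκ0.le
        linarith
      have k8 : 6 * δ * ((1 - κ) ^ 2 + (1 - 2 * κ) ^ 2) ≤ 6 * δ * 2 := by
        apply mul_le_mul_of_nonneg_left _ (by positivity)
        nlinarith
      linarith
    linarith
  · have k1 : (1 + -κ) ^ 2 * Q' ≤ (1 + -κ) ^ 2 * (1 + κ) :=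
      mul_le_mul_of_nonneg_left (by linarith) (sq_nonneg _)
    have k2 : (1 + -κ) ^ 2 * (1 + κ) < 1 := by
      have h1 : (1 + -κ) ^ 2 * (1 + κ) = 1 - κ * (1 + κ * (1 - κ)) := by ring
      rw [h1]
      have : 0 < κ * (1 + κ * (1 - κ)) := by
        have : 0 < 1 - κ := by linarith
        positivity
      linarith
    linarith

lemma geoP {κ r δ : ℝ} (hκ0 : 0 < κ) (hκ1 : κ < 1 / 4) (hr : 0 < r) (hδ0 : 0 < δ)
    (hδ1 : δ < κ * r / 48) (hδ2 : δ < κ / 6) {x y : E} (hx : x ∈ hartogs)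
    (hc : r / 4 ≤ rho2 x) (hy : ‖x - y‖ ≤ δ) : (fun i => cv (-κ) i * y i) ∈ hartogs := by
  have hb := coords_le hx
  obtain ⟨hx1, hx2⟩ := hx
  have hδ3 : δ ≤ 1 := by linarith
  have e0 := sq_close hδ0 hδ3 (hb 0) (coord_le hy 0)
  have e1 := sq_close hδ0 hδ3 (hb 1) (coord_le hy 1)
  have e2 := sq_close hδ0 hδ3 (hb 2) (coord_le hy 2)
  have e3 := sq_close hδ0 hδ3 (hb 3) (coord_le hy 3)
  unfold rho2 at hc
  obtain ⟨g1, g2⟩ := geoP0 (P' := y 0 ^ 2 + y 1 ^ 2) (Q' := y 2 ^ 2 + y 3 ^ 2)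
    hκ0 hκ1 hr hδ0 hδ1 hδ2 hx1 hx2 hc (by linarith [e0.1, e1.1]) (by linarith [e2.1, e3.1])
    (by linarith [e2.2, e3.2])
  constructor
  · simp only [cv, Matrix.cons_val_zero, Matrix.cons_val_one, Matrix.cons_val, mul_pow]
    linarith
  · simp only [cv, Matrix.cons_val_zero, Matrix.cons_val_one, Matrix.cons_val, mul_pow]
    linarith

end Reg

open Reg

theorem pREGP (hM : S_MOL) (hE : S_EXM) (hS : S_SCL) (hW : S_WSC) (hO : S_WMO) : S_REGP := by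
  intro f g hN hw r hr hfr hgr ε hε
  have hε2 : 0 < ε / 2 := by positivity
  -- the scaling parameter
  have hev : ∀ᶠ t in 𝓝[<] (0 : ℝ), (∀ j, eLpNorm (fts t f j - f j) 2 (volume : Measure E) ≤
      ENNReal.ofReal (ε / 2)) ∧ (∀ i j, eLpNorm (gts t g i j - g i j) 2 (volume : Measure E) ≤
      ENNReal.ofReal (ε / 2)) ∧ -(1 / 4) < t := by
    have h1 : ∀ᶠ t in 𝓝 (0 : ℝ), -(1 / 4) < t := lt_mem_nhds (by norm_num)
    filter_upwards [nhdsWithin_le_nhds (ev_f hS hN hε2), nhdsWithin_le_nhds (ev_g hS hN hε2),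
      nhdsWithin_le_nhds h1] with t h1 h2 h3
    exact ⟨h1, h2, h3⟩
  obtain ⟨t, ⟨hf, hg, ht1⟩, ht0⟩ := (hev.and self_mem_nhdsWithin).exists
  have ht0 : t < 0 := ht0
  set κ := -t with hκ
  have hκ0 : 0 < κ := by linarith
  have hκ1 : κ < 1 / 4 := by linarith
  have hfL : ∀ j, MemLp (fts t f j) 2 (volume : Measure E) := fun j =>
    memLp_of_close (hN.lf j) (fts_meas hN t j) (hf j)
  have hgL : ∀ i j, MemLp (gts t g i j) 2 (volume : Measure E) := fun i j =>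
    memLp_of_close (hN.lg i j) (gts_meas hN t i j) (hg i j)
  have hcpos : ∀ i, 0 < cv t i := by
    intro i
    fin_cases i <;> simp [cv] <;> linarith
  have hweak : WeakCurl {x | (fun i => cv t i * x i) ∈ hartogs} (fts t f) (gts t g) :=
    hW hartogs f g (cv t) hcpos hw
  -- the mollifier
  have hev2 : ∀ᶠ δ in 𝓝[>] (0 : ℝ), (∀ j, ∀ η, IsMoll η δ →
      eLpNorm (moll η (fts t f j) - fts t f j) 2 (volume : Measure E) ≤
        ENNReal.ofReal (ε / 2)) ∧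
      (∀ i j, ∀ η, IsMoll η δ →
      eLpNorm (moll η (gts t g i j) - gts t g i j) 2 (volume : Measure E) ≤
        ENNReal.ofReal (ε / 2)) ∧ δ < κ * r / 48 ∧ δ < κ / 6 := by
    have h1 : ∀ᶠ δ in 𝓝[>] (0 : ℝ), ∀ j, ∀ η, IsMoll η δ →
      eLpNorm (moll η (fts t f j) - fts t f j) 2 (volume : Measure E) ≤
        ENNReal.ofReal (ε / 2) := by
      rw [eventually_all]
      exact fun j => ev_moll hM (hfL j) hε2
    have h2 : ∀ᶠ δ in 𝓝[>] (0 : ℝ), ∀ i j, ∀ η, IsMoll η δ →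
      eLpNorm (moll η (gts t g i j) - gts t g i j) 2 (volume : Measure E) ≤
        ENNReal.ofReal (ε / 2) := by
      rw [eventually_all]
      intro i
      rw [eventually_all]
      exact fun j => ev_moll hM (hgL i j) hε2
    have h3 : ∀ᶠ δ in 𝓝[>] (0 : ℝ), δ < κ * r / 48 :=
      nhdsWithin_le_nhds (gt_mem_nhds (by positivity))
    have h4 : ∀ᶠ δ in 𝓝[>] (0 : ℝ), δ < κ / 6 :=
      nhdsWithin_le_nhds (gt_mem_nhds (by positivity))
    filter_upwards [h1, h2, h3, h4] with δ h1 h2 h3 h4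
    exact ⟨h1, h2, h3, h4⟩
  obtain ⟨δ, ⟨hδf, hδg, hδ1, hδ2⟩, hδ0⟩ := (hev2.and self_mem_nhdsWithin).exists
  have hδ0 : 0 < δ := hδ0
  obtain ⟨η, hη⟩ := hE δ hδ0
  obtain ⟨hO1, hO2, hO3⟩ := hO η δ hδ0 hη
  have hcurl : ∀ x ∈ hartogs, ∀ i j, pd i (moll η (fts t f j)) x - pd j (moll η (fts t f i)) x =
      moll η (gts t g i j) x := by
    intro x hx i j
    obtain ⟨hx1, hx2⟩ := hx
    rcases le_or_gt (r / 4) (rho2 x) with hc | hc
    · refine hO3 _ (fts t f) (gts t g) hfL hweak x ?_ i j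
      intro y hy
      have ht : t = -κ := by linarith
      rw [ht]
      exact geoP hκ0 hκ1 hr hδ0 hδ1 hδ2 ⟨hx1, hx2⟩ hc hy
    · have hz : ∀ y : E, ‖x - y‖ ≤ δ → rho2 (fun i => cv t i * y i) < r := by
        intro y hy
        have e2 := coord_le hy 2
        have e3 := coord_le hy 3
        rw [abs_le] at e2 e3
        unfold rho2 at hc ⊢
        have ht : t = -κ := by linarith
        simp only [cv, Matrix.cons_val_zero, Matrix.cons_val_one, Matrix.cons_val, mul_pow]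
        rw [ht]
        have k0 : δ ^ 2 ≤ r / 48 := by nlinarith
        have k1 : y 2 ^ 2 ≤ 2 * x 2 ^ 2 + 2 * δ ^ 2 := by
          nlinarith [sq_nonneg (2 * x 2 - y 2), sq_nonneg (x 2 - y 2)]
        have k2 : y 3 ^ 2 ≤ 2 * x 3 ^ 2 + 2 * δ ^ 2 := by
          nlinarith [sq_nonneg (2 * x 3 - y 3), sq_nonneg (x 3 - y 3)]
        have k3 : (1 + -κ) ^ 2 ≤ 1 := by nlinarith
        have k4 : (1 + -κ) ^ 2 * y 2 ^ 2 ≤ 1 * y 2 ^ 2 :=
          mul_le_mul_of_nonneg_right k3 (sq_nonneg _)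
        have k5 : (1 + -κ) ^ 2 * y 3 ^ 2 ≤ 1 * y 3 ^ 2 :=
          mul_le_mul_of_nonneg_right k3 (sq_nonneg _)
        linarith
      have zf : ∀ j, ∀ y : E, ‖x - y‖ ≤ δ → fts t f j y = 0 := by
        intro j y hy
        unfold fts
        rw [hfr j _ (hz y hy), mul_zero]
      have zg : ∀ y : E, ‖x - y‖ ≤ δ → gts t g i j y = 0 := by
        intro y hy
        unfold gts
        rw [hgr i j _ (hz y hy), mul_zero]
      rw [(hO2 _ (hfL j) x (zf j)).2 i, (hO2 _ (hfL i) x (zf i)).2 j,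
        (hO2 _ (hgL i j) x zg).1, sub_zero]
  refine ⟨fun j => moll η (fts t f j), fun j => hO1 _ (hfL j), ?_, ?_⟩
  · intro i
    refine (eLpNorm_mono_measure _ Measure.restrict_le_self).trans ?_
    exact close3 hε ((hO1 _ (hfL i)).continuous.aestronglyMeasurable) (hfL i).1 (hN.lf i).1
      (hδf i η hη) (hf i)
  · intro i j
    have h1 : (fun x => pd i (moll η (fts t f j)) x - pd j (moll η (fts t f i)) x - g i j x)
        =ᵐ[(volume : Measure E).restrict hartogs] moll η (gts t g i j) - g i j := by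
      refine (ae_restrict_iff' isOpen_hartogs.measurableSet).mpr (Eventually.of_forall ?_)
      intro x hx
      change pd i (moll η (fts t f j)) x - pd j (moll η (fts t f i)) x - g i j x =
        moll η (gts t g i j) x - g i j x
      rw [hcurl x hx i j]
    rw [eLpNorm_congr_ae h1]
    refine (eLpNorm_mono_measure _ Measure.restrict_le_self).trans ?_
    exact close3 hε ((hO1 _ (hgL i j)).continuous.aestronglyMeasurable) (hgL i j).1 (hN.lg i j).1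
      (hδg i j η hη) (hg i j)

end Pool.Agent.R435.HT
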