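import Pool.Agent.R435.HT.Defs

/-! # Project HT: continuity of scalings in `L²` -/

open MeasureTheory Set Filter Topology
open scoped ContDiff ENNReal

namespace Pool.Agent.R435.HT

namespace SCL

/-- the diagonal map -/
noncomputable def dg (c : Fin 4 → ℝ) (x : E) : E := fun i => c i * x i

theorem dg_eq (c : Fin 4 → ℝ) : dg c = Matrix.toLin' (Matrix.diagonal c) := by
  funext x
  rw [Matrix.toLin'_apply]
  funext i
  rw [Matrix.mulVec_diagonal]
  rfl

theorem scale_le (F : E → ℂ) (hF : AEStronglyMeasurable F (volume : Measure E)) (c : Fin 4 → ℝ)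
    (hc : ∀ i, 1 / 2 ≤ c i) :
    AEStronglyMeasurable (F ∘ dg c) (volume : Measure E) ∧
    eLpNorm (F ∘ dg c) 2 (volume : Measure E) ≤ 16 * eLpNorm F 2 (volume : Measure E) := by
  have hdet : (Matrix.diagonal c).det ≠ 0 := by
    rw [Matrix.det_diagonal]
    exact Finset.prod_ne_zero_iff.2 fun i _ => by have := hc i; linarith
  have hprod : 1 / 16 ≤ ∏ i, c i := by
    rw [Fin.prod_univ_four]
    have h0 := hc 0
    have h1 := hc 1
    have h2 := hc 2
    have h3 := hc 3
    have h01 : 1 / 4 ≤ c 0 * c 1 := by nlinarith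
    have h012 : 1 / 8 ≤ c 0 * c 1 * c 2 := by nlinarith
    nlinarith
  have hmap := Real.map_matrix_volume_pi_eq_smul_volume_pi hdet
  rw [← dg_eq] at hmap
  have hm : Measurable (dg c) := by
    unfold dg
    exact measurable_pi_lambda _ fun i => (measurable_pi_apply i).const_mul _
  have hF' : AEStronglyMeasurable F (Measure.map (dg c) volume) := by
    rw [hmap]
    exact hF.smul_measure _
  refine ⟨hF'.comp_measurable hm, ?_⟩
  rw [← eLpNorm_map_measure hF' hm.aemeasurable, hmap,
    eLpNorm_smul_measure_of_ne_top (by norm_num), smul_eq_mul]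
  gcongr
  rw [Matrix.det_diagonal]
  have h1 : ENNReal.ofReal |(∏ i, c i)⁻¹| ≤ 16 := by
    rw [show (16 : ℝ≥0∞) = ENNReal.ofReal 16 by simp]
    apply ENNReal.ofReal_le_ofReal
    rw [abs_of_nonneg (by positivity)]
    rw [inv_le_comm₀ (by linarith) (by norm_num)]
    linarith
  calc ENNReal.ofReal |(∏ i, c i)⁻¹| ^ (1 / (2 : ℝ≥0∞)).toReal
      ≤ 16 ^ (1 / (2 : ℝ≥0∞)).toReal := ENNReal.rpow_le_rpow h1 (by positivity)
    _ ≤ 16 ^ (1 : ℝ) := by
        apply ENNReal.rpow_le_rpow_of_exponent_le
        · norm_num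
        · simp only [one_div, ENNReal.toReal_inv, ENNReal.toReal_ofNat]
          norm_num
    _ = 16 := ENNReal.rpow_one _

end SCL

open SCL in
theorem pSCL : S_SCL := by
  intro h hh ε hε
  have hε1 : ENNReal.ofReal (ε / 66) ≠ 0 := by
    rw [Ne, ENNReal.ofReal_eq_zero, not_le]; positivity
  obtain ⟨g, hgc, hgε, hg, hgL⟩ := hh.exists_hasCompactSupport_eLpNorm_sub_le (by norm_num) hε1
  obtain ⟨B, hB⟩ := hgc.exists_bound_of_continuous hg
  obtain ⟨R, hR⟩ := hgc.isCompact.isBounded.subset_closedBall (0 : E)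
  have huc := hgc.uniformContinuous_of_continuous hg
  set R' := max R 1 with hR'
  have hR'pos : 0 < R' := lt_max_of_lt_right one_pos
  have hB0 : 0 ≤ B := (norm_nonneg _).trans (hB 0)
  have hz : ∀ x : E, R' < ‖x‖ → g x = 0 := by
    intro x hx
    by_contra hne
    have h1 := hR (subset_tsupport g (Function.mem_support.2 hne))
    rw [Metric.mem_closedBall, dist_zero_right] at h1
    have := le_max_left R 1
    linarith
  set V := (volume : Measure E) (Metric.closedBall 0 (2 * R')) with hV
  have hVfin : V ≠ (⊤ : ℝ≥0∞) := (isCompact_closedBall (0 : E) (2 * R')).measure_lt_top.ne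
  set w := V ^ ((2 : ℝ≥0∞).toReal⁻¹) with hw
  have hwfin : w ≠ (⊤ : ℝ≥0∞) := ENNReal.rpow_ne_top_of_nonneg (by positivity) hVfin
  set η := (ε / 2) / (w.toReal + 1) with hη
  have hwt : 0 ≤ w.toReal := ENNReal.toReal_nonneg
  have hηpos : 0 < η := by positivity
  have hwη : w * ENNReal.ofReal η ≤ ENNReal.ofReal (ε / 2) := by
    rw [← ENNReal.ofReal_toReal hwfin, ← ENNReal.ofReal_mul hwt]
    apply ENNReal.ofReal_le_ofReal
    rw [hη, ← mul_div_assoc, div_le_iff₀ (by positivity)]
    nlinarith
  obtain ⟨δ₁, hδ₁, hδ⟩ := Metric.uniformContinuous_iff.1 huc (η / 2) (by positivity)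
  refine ⟨min (1 / 2) (min (δ₁ / (2 * R' + 1)) (η / (2 * (B + 1)))), by positivity, ?_⟩
  intro k c hk hc
  have hk1 : |k - 1| < 1 / 2 := lt_of_lt_of_le hk (min_le_left _ _)
  have hk2 : |k - 1| < η / (2 * (B + 1)) :=
    lt_of_lt_of_le hk ((min_le_right _ _).trans (min_le_right _ _))
  have hc1 : ∀ i, |c i - 1| < 1 / 2 := fun i => lt_of_lt_of_le (hc i) (min_le_left _ _)
  have hc2 : ∀ i, |c i - 1| < δ₁ / (2 * R' + 1) := fun i =>
    lt_of_lt_of_le (hc i) ((min_le_right _ _).trans (min_le_left _ _))
  have hc3 : ∀ i, 1 / 2 ≤ c i := fun i => by have := abs_lt.1 (hc1 i); linarith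
  have hsub : AEStronglyMeasurable (h - g) (volume : Measure E) := hh.1.sub hgL.1
  obtain ⟨m1, s1⟩ := scale_le (h - g) hsub c hc3
  obtain ⟨m2, s2⟩ := scale_le g hgL.1 c hc3
  -- the compactly supported part
  have hsmall : eLpNorm (fun x : E => (k : ℂ) * g (dg c x) - g x) 2 (volume : Measure E) ≤
      ENNReal.ofReal (ε / 2) := by
    have hpt : ∀ x : E, ‖(k : ℂ) * g (dg c x) - g x‖ ≤ η := by
      intro x
      by_cases hx : ‖x‖ ≤ 2 * R'
      · have hd : dist (dg c x) x < δ₁ := by
          rw [dist_eq_norm]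
          have : ‖dg c x - x‖ ≤ (δ₁ / (2 * R' + 1)) * (2 * R') := by
            rw [pi_norm_le_iff_of_nonneg (by positivity)]
            intro i
            have e : (dg c x - x) i = (c i - 1) * x i := by
              simp only [dg, Pi.sub_apply]; ring
            rw [e, norm_mul]
            have h1 : ‖x i‖ ≤ 2 * R' := (norm_le_pi_norm x i).trans hx
            exact mul_le_mul (hc2 i).le h1 (norm_nonneg _) (by positivity)
          refine lt_of_le_of_lt this ?_
          rw [div_mul_eq_mul_div, div_lt_iff₀ (by positivity)]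
          nlinarith
        have h2 := hδ hd
        rw [dist_eq_norm] at h2
        have e : (k : ℂ) * g (dg c x) - g x = ((k - 1 : ℝ) : ℂ) * g (dg c x) +
            (g (dg c x) - g x) := by push_cast; ring
        rw [e]
        refine (norm_add_le _ _).trans ?_
        rw [norm_mul, Complex.norm_real, Real.norm_eq_abs]
        have h3 : |k - 1| * ‖g (dg c x)‖ ≤ η / (2 * (B + 1)) * B :=
          mul_le_mul hk2.le (hB _) (norm_nonneg _) (by positivity)
        have h4 : η / (2 * (B + 1)) * B ≤ η / 2 := by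
          rw [div_mul_eq_mul_div, div_le_div_iff₀ (by positivity) (by norm_num)]
          nlinarith
        linarith
      · push Not at hx
        have h1 : g x = 0 := hz x (by linarith)
        have h2 : g (dg c x) = 0 := by
          apply hz
          obtain ⟨i, hi⟩ : ∃ i, 2 * R' < ‖x i‖ := by
            by_contra hcon
            push Not at hcon
            have := (pi_norm_le_iff_of_nonneg (by positivity)).2 hcon
            linarith
          have h3 := norm_le_pi_norm (dg c x) i
          have h4 : ‖dg c x i‖ = |c i| * ‖x i‖ := by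
            simp only [dg]
            rw [norm_mul, Real.norm_eq_abs]
          rw [h4] at h3
          have h5 : 1 / 2 ≤ |c i| := (hc3 i).trans (le_abs_self _)
          nlinarith
        rw [h1, h2]
        simp [hηpos.le]
    have hsupp : Function.support (fun x : E => (k : ℂ) * g (dg c x) - g x) ⊆
        Metric.closedBall (0 : E) (2 * R') := by
      intro x hx
      by_contra hx'
      rw [Metric.mem_closedBall, dist_zero_right, not_le] at hx'
      apply hx
      have h1 : g x = 0 := hz x (by linarith)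
      have h2 : g (dg c x) = 0 := by
        apply hz
        obtain ⟨i, hi⟩ : ∃ i, 2 * R' < ‖x i‖ := by
          by_contra hcon
          push Not at hcon
          have := (pi_norm_le_iff_of_nonneg (by positivity)).2 hcon
          linarith
        have h3 := norm_le_pi_norm (dg c x) i
        have h4 : ‖dg c x i‖ = |c i| * ‖x i‖ := by
          simp only [dg]
          rw [norm_mul, Real.norm_eq_abs]
        rw [h4] at h3
        have h5 : 1 / 2 ≤ |c i| := (hc3 i).trans (le_abs_self _)
        nlinarith
      simp only [h1, h2, mul_zero, sub_zero]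
    rw [← eLpNorm_restrict_eq_of_support_subset hsupp]
    refine (eLpNorm_le_of_ae_bound (C := η) (ae_of_all _ hpt)).trans ?_
    rw [Measure.restrict_apply_univ]
    exact hwη
  have e : (fun x : E => (k : ℂ) * h (fun i => c i * x i) - h x) =
      ((k : ℂ) • ((h - g) ∘ dg c)) + (fun x : E => (k : ℂ) * g (dg c x) - g x) - (h - g) := by
    funext x
    simp only [Pi.add_apply, Pi.sub_apply, Pi.smul_apply, Function.comp_apply, smul_eq_mul]
    have : dg c x = fun i => c i * x i := rfl
    rw [this]
    ring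
  rw [e]
  have ma : AEStronglyMeasurable ((k : ℂ) • ((h - g) ∘ dg c)) (volume : Measure E) :=
    m1.const_smul _
  have mb : AEStronglyMeasurable (fun x : E => (k : ℂ) * g (dg c x) - g x)
      (volume : Measure E) := (m2.const_mul _).sub hgL.1
  have ha : eLpNorm ((k : ℂ) • ((h - g) ∘ dg c)) 2 (volume : Measure E) ≤
      2 * (16 * ENNReal.ofReal (ε / 66)) := by
    rw [eLpNorm_const_smul]
    refine mul_le_mul' ?_ (s1.trans (mul_le_mul' le_rfl hgε))
    have : ‖(k : ℂ)‖ ≤ 2 := by
      rw [Complex.norm_real, Real.norm_eq_abs]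
      have := abs_lt.1 hk1
      rw [abs_le]
      constructor <;> linarith
    rw [← ofReal_norm, show (2 : ℝ≥0∞) = ENNReal.ofReal 2 by simp]
    exact ENNReal.ofReal_le_ofReal this
  calc eLpNorm (((k : ℂ) • ((h - g) ∘ dg c)) + (fun x : E => (k : ℂ) * g (dg c x) - g x) - (h - g))
        2 (volume : Measure E)
      ≤ eLpNorm (((k : ℂ) • ((h - g) ∘ dg c)) + (fun x : E => (k : ℂ) * g (dg c x) - g x)) 2
          (volume : Measure E) + eLpNorm (h - g) 2 (volume : Measure E) :=
        eLpNorm_sub_le (ma.add mb) hsub (by norm_num)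
    _ ≤ (eLpNorm ((k : ℂ) • ((h - g) ∘ dg c)) 2 (volume : Measure E) +
          eLpNorm (fun x : E => (k : ℂ) * g (dg c x) - g x) 2 (volume : Measure E)) +
          eLpNorm (h - g) 2 (volume : Measure E) := by
        gcongr
        exact eLpNorm_add_le ma mb (by norm_num)
    _ ≤ (2 * (16 * ENNReal.ofReal (ε / 66)) + ENNReal.ofReal (ε / 2)) +
          ENNReal.ofReal (ε / 66) := by gcongr
    _ = ENNReal.ofReal ε := by
        rw [show (2 : ℝ≥0∞) = ENNReal.ofReal 2 by simp, show (16 : ℝ≥0∞) = ENNReal.ofReal 16 by simp,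
          ← ENNReal.ofReal_mul (by norm_num), ← ENNReal.ofReal_mul (by norm_num),
          ← ENNReal.ofReal_add (by positivity) (by positivity),
          ← ENNReal.ofReal_add (by positivity) (by positivity)]
        congr 1
        ring

end Pool.Agent.R435.HT
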