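import Pool.Agent.R435.HT.Defs

open MeasureTheory Set Filter Topology
open scoped ContDiff ENNReal

namespace Pool.Agent.R435.HT

namespace SwAux

/-- the complexified test function -/
noncomputable def cx (φ : E → ℝ) : E → ℂ := fun x => (φ x : ℂ)

theorem cx_contDiff {φ : E → ℝ} (h : ContDiff ℝ ∞ φ) : ContDiff ℝ ∞ (cx φ) :=
  Complex.ofRealCLM.contDiff.comp h

theorem cx_support {φ : E → ℝ} (h : HasCompactSupport φ) : HasCompactSupport (cx φ) :=
  h.comp_left (g := fun t : ℝ => (t : ℂ)) (by simp)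

theorem cx_pd {φ : E → ℝ} (h : ContDiff ℝ ∞ φ) (i : Fin 4) (x : E) :
    fderiv ℝ (cx φ) x (Pi.single i 1) = ((pd i φ x : ℝ) : ℂ) := by
  have h1 : HasFDerivAt φ (fderiv ℝ φ x) x := (h.differentiable (by simp) x).hasFDerivAt
  have h2 : HasFDerivAt (cx φ) (Complex.ofRealCLM.comp (fderiv ℝ φ x)) x :=
    Complex.ofRealCLM.hasFDerivAt.comp x h1
  rw [h2.fderiv]
  rfl

theorem pd_cont {φ : E → ℝ} (h : ContDiff ℝ ∞ φ) (i : Fin 4) :
    Continuous fun x => ((pd i φ x : ℝ) : ℂ) := by
  have h1 : Continuous (fderiv ℝ φ) := h.continuous_fderiv (by simp)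
  exact Complex.continuous_ofReal.comp (h1.clm_apply continuous_const)

theorem pdc_cont {G : E → ℂ} (h : ContDiff ℝ ∞ G) (i : Fin 4) :
    Continuous fun x => pd i G x := by
  have h1 : Continuous (fderiv ℝ G) := h.continuous_fderiv (by simp)
  exact h1.clm_apply continuous_const

theorem pd_supp {φ : E → ℝ} (h : HasCompactSupport φ) (i : Fin 4) :
    HasCompactSupport fun x => ((pd i φ x : ℝ) : ℂ) := by
  have h1 : HasCompactSupport (fderiv ℝ φ) := h.fderiv (𝕜 := ℝ)
  exact h1.comp_left (g := fun L : E →L[ℝ] ℝ => ((L (Pi.single i 1) : ℝ) : ℂ)) (by simp)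

theorem pd_zero {φ : E → ℝ} (h : tsupport φ ⊆ hartogs) (i : Fin 4) (x : E) (hx : x ∉ hartogs) :
    pd i φ x = 0 := by
  have h1 : x ∉ tsupport (fderiv ℝ φ) := fun hh => hx (h (tsupport_fderiv_subset ℝ hh))
  have h2 : fderiv ℝ φ x = 0 := image_eq_zero_of_notMem_tsupport h1
  rw [pd, h2]
  rfl

theorem phi_zero {φ : E → ℝ} (h : tsupport φ ⊆ hartogs) (x : E) (hx : x ∉ hartogs) :
    φ x = 0 := image_eq_zero_of_notMem_tsupport fun hh => hx (h hh)

theorem ibp {φ : E → ℝ} (h1 : ContDiff ℝ ∞ φ) (h2 : HasCompactSupport φ)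
    (h3 : tsupport φ ⊆ hartogs) {G : E → ℂ} (hG : ContDiff ℝ ∞ G) (i : Fin 4) :
    ∫ x in hartogs, (φ x : ℂ) * pd i G x = -∫ x in hartogs, ((pd i φ x : ℝ) : ℂ) * G x := by
  rw [setIntegral_eq_integral_of_forall_compl_eq_zero (s := hartogs)
    (fun x hx => by rw [phi_zero h3 x hx]; simp),
    setIntegral_eq_integral_of_forall_compl_eq_zero (s := hartogs)
    (fun x hx => by rw [pd_zero h3 i x hx]; simp)]
  have key := integral_mul_fderiv_eq_neg_fderiv_mul_of_integrable (μ := (volume : Measure E))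
    (f := cx φ) (g := G) (v := Pi.single i 1) ?_ ?_ ?_
    (fun x _ => (cx_contDiff h1).differentiable (by simp) x)
    (fun x _ => hG.differentiable (by simp) x)
  · simp only [cx_pd h1] at key
    exact key
  · simp only [cx_pd h1]
    exact ((pd_cont h1 i).mul hG.continuous).integrable_of_hasCompactSupport
      ((pd_supp h2 i).mul_right)
  · exact ((cx_contDiff h1).continuous.mul (pdc_cont hG i)).integrable_of_hasCompactSupport
      ((cx_support h2).mul_right)
  · exact ((cx_contDiff h1).continuous.mul hG.continuous).integrable_of_hasCompactSupport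
      ((cx_support h2).mul_right)

theorem lim {μ : Measure E} {a h : E → ℂ} {H : ℕ → E → ℂ} (ha : MemLp a 2 μ)
    (hh : MemLp h 2 μ) (hH : ∀ ν, AEStronglyMeasurable (H ν) μ)
    (hi : ∀ ν, Integrable (fun x => a x * H ν x) μ)
    (ht : Tendsto (fun ν => eLpNorm (H ν - h) 2 μ) atTop (𝓝 0)) :
    Tendsto (fun ν => ∫ x, a x * H ν x ∂μ) atTop (𝓝 (∫ x, a x * h x ∂μ)) := by
  have h0 : Integrable (fun x => a x * h x) μ := ha.integrable_mul hh
  refine tendsto_integral_of_L1' (fun x => a x * h x) h0.1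
    (F := fun ν x => a x * H ν x) (Eventually.of_forall hi) ?_
  have hle : ∀ ν, eLpNorm ((fun x => a x * H ν x) - fun x => a x * h x) 1 μ ≤
      eLpNorm a 2 μ * eLpNorm (H ν - h) 2 μ := by
    intro ν
    have h1 : ((fun x => a x * H ν x) - fun x => a x * h x) = a • (H ν - h) := by
      ext x
      simp only [Pi.sub_apply, Pi.smul_apply', smul_eq_mul]
      ring
    rw [h1]
    exact eLpNorm_smul_le_mul_eLpNorm ((hH ν).sub hh.1) ha.1
  have hlim : Tendsto (fun ν => eLpNorm a 2 μ * eLpNorm (H ν - h) 2 μ) atTop (𝓝 0) := by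
    have := ENNReal.Tendsto.const_mul ht (Or.inr ha.eLpNorm_ne_top)
    rwa [mul_zero] at this
  exact tendsto_of_tendsto_of_tendsto_of_le_of_le tendsto_const_nhds hlim
    (fun ν => bot_le) hle

end SwAux

open SwAux in
theorem pSW : S_SW := by
  rintro q f g hf hg ⟨F, hF1, hF2, hF3⟩ J hJ φ h1 h2 h3
  have hcard : ∀ i ∈ J, (J.erase i).card = q := by
    intro i hi
    rw [Finset.card_erase_of_mem hi, hJ]
    rfl
  have hdCc : ∀ ν, Continuous (dC (F ν) J) := by
    intro ν
    refine continuous_finset_sum _ fun i hi => ?_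
    exact continuous_const.mul (pdc_cont (hF1 ν _ (hcard i hi)) i)
  have hφL : MemLp (cx φ) 2 ((volume : Measure E).restrict hartogs) :=
    ((cx_contDiff h1).continuous.memLp_of_hasCompactSupport (cx_support h2)).restrict _
  have e1 : Tendsto (fun ν => ∫ x in hartogs, (φ x : ℂ) * dC (F ν) J x) atTop
      (𝓝 (∫ x in hartogs, (φ x : ℂ) * g J x)) := by
    refine lim (a := cx φ) hφL (hg J hJ) (fun ν => (hdCc ν).aestronglyMeasurable) (fun ν => ?_)
      (hF3 J hJ)
    exact (((cx_contDiff h1).continuous.mul (hdCc ν)).integrable_of_hasCompactSupport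
      ((cx_support h2).mul_right)).restrict
  have e2 : ∀ i ∈ J, Tendsto (fun ν => ∫ x in hartogs, ((pd i φ x : ℝ) : ℂ) * F ν (J.erase i) x)
      atTop (𝓝 (∫ x in hartogs, ((pd i φ x : ℝ) : ℂ) * f (J.erase i) x)) := by
    intro i hi
    refine lim (a := fun x => ((pd i φ x : ℝ) : ℂ))
      (((pd_cont h1 i).memLp_of_hasCompactSupport (pd_supp h2 i)).restrict _)
      (hf _ (hcard i hi)) (fun ν => (hF1 ν _ (hcard i hi)).continuous.aestronglyMeasurable)
      (fun ν => ?_) (hF2 _ (hcard i hi))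
    exact (((pd_cont h1 i).mul (hF1 ν _ (hcard i hi)).continuous).integrable_of_hasCompactSupport
      ((pd_supp h2 i).mul_right)).restrict
  have e3 : ∀ ν, ∫ x in hartogs, (φ x : ℂ) * dC (F ν) J x
      = -∑ i ∈ J, sgn J i * ∫ x in hartogs, ((pd i φ x : ℝ) : ℂ) * F ν (J.erase i) x := by
    intro ν
    have h4 : ∀ x, (φ x : ℂ) * dC (F ν) J x
        = ∑ i ∈ J, sgn J i * ((φ x : ℂ) * pd i (F ν (J.erase i)) x) := by
      intro x
      rw [dC, Finset.mul_sum]
      refine Finset.sum_congr rfl fun i _ => ?_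
      ring
    simp only [h4]
    rw [integral_finset_sum, ← Finset.sum_neg_distrib]
    · refine Finset.sum_congr rfl fun i hi => ?_
      rw [integral_const_mul, ibp h1 h2 h3 (hF1 ν _ (hcard i hi)) i]
      ring
    · intro i hi
      refine Integrable.const_mul ?_ _
      exact (((cx_contDiff h1).continuous.mul
        (pdc_cont (hF1 ν _ (hcard i hi)) i)).integrable_of_hasCompactSupport
        ((cx_support h2).mul_right)).restrict
  have e4 : Tendsto (fun ν => ∫ x in hartogs, (φ x : ℂ) * dC (F ν) J x) atTop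
      (𝓝 (-∑ i ∈ J, sgn J i * ∫ x in hartogs, ((pd i φ x : ℝ) : ℂ) * f (J.erase i) x)) := by
    simp only [e3]
    exact (tendsto_finset_sum _ fun i hi => (e2 i hi).const_mul _).neg
  exact tendsto_nhds_unique e1 e4

end Pool.Agent.R435.HT
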