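import Pool.Agent.R435.HT.Defs

open MeasureTheory Set Filter Topology
open scoped ContDiff ENNReal Convolution

namespace Pool.Agent.R435.HT

namespace WMO

/-- the bilinear map -/
noncomputable def L : ℂ →L[ℝ] ℝ →L[ℝ] ℂ := (ContinuousLinearMap.lsmul ℝ ℝ : ℝ →L[ℝ] ℂ →L[ℝ] ℂ).flip

theorem L_apply (z : ℂ) (t : ℝ) : L z t = (t : ℂ) * z := by
  simp [L]

theorem moll_eq (η : E → ℝ) (h : E → ℂ) : moll η h = (h ⋆[L, volume] η) := by
  funext x
  unfold moll
  rw [convolution_def]
  exact integral_congr_ae (Eventually.of_forall fun t => (L_apply _ _).symm)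

theorem cs {η : E → ℝ} {δ : ℝ} (hη : IsMoll η δ) : HasCompactSupport η := by
  refine HasCompactSupport.intro (isCompact_closedBall (0 : E) δ) (fun x hx => ?_)
  rw [mem_closedBall_zero_iff, not_le] at hx
  exact hη.supp x hx.le

theorem pd_zero {η : E → ℝ} {δ : ℝ} (hη : IsMoll η δ) (i : Fin 4) {y : E} (hy : δ < ‖y‖) :
    pd i η y = 0 := by
  have h : η =ᶠ[𝓝 y] fun _ => 0 := by
    have : {z : E | δ < ‖z‖} ∈ 𝓝 y := (isOpen_lt continuous_const continuous_norm).mem_nhds hy
    filter_upwards [this] with z hz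
    exact hη.supp z (le_of_lt hz)
  unfold pd
  rw [h.fderiv_eq]
  simp

theorem c1 {η : E → ℝ} (h : ContDiff ℝ ∞ η) : ContDiff ℝ 1 η := contDiff_infty.1 h 1

theorem pd_moll {η : E → ℝ} {δ : ℝ} (hη : IsMoll η δ) {h : E → ℂ}
    (hh : LocallyIntegrable h (volume : Measure E)) (i : Fin 4) (x : E) :
    pd i (moll η h) x = ∫ y, ((pd i η (x - y) : ℝ) : ℂ) * h y := by
  have hd := HasCompactSupport.hasFDerivAt_convolution_right L (cs hη) hh (c1 hη.smooth) x
  rw [← moll_eq] at hd
  unfold pd
  rw [hd.fderiv, convolution_def]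
  have hcont : Continuous (fderiv ℝ η) := hη.smooth.continuous_fderiv (by simp)
  have hcs : HasCompactSupport (fderiv ℝ η) := (cs hη).fderiv ℝ
  have hex := hcs.convolutionExists_right (L.precompR E) hh hcont x
  rw [ContinuousLinearMap.integral_apply hex]
  refine integral_congr_ae (Eventually.of_forall fun t => ?_)
  show (((ContinuousLinearMap.precompR E L) (h t)) (fderiv ℝ η (x - t))) (Pi.single i 1) = _
  exact L_apply (h t) ((fderiv ℝ η (x - t)) (Pi.single i 1))

theorem pd_shift {η : E → ℝ} (hη : ContDiff ℝ ∞ η) (i : Fin 4) (x y : E) :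
    pd i (fun y => η (x - y)) y = -pd i η (x - y) := by
  have h1 : HasFDerivAt η (fderiv ℝ η (x - y)) (x - y) :=
    ((c1 hη).differentiable (by norm_num) _).hasFDerivAt
  have h2 : HasFDerivAt (fun y : E => x - y) (-ContinuousLinearMap.id ℝ E) y :=
    (hasFDerivAt_id y).const_sub x
  have h3 := h1.comp y h2
  have h4 : fderiv ℝ (fun y => η (x - y)) y =
      (fderiv ℝ η (x - y)).comp (-ContinuousLinearMap.id ℝ E) := h3.fderiv
  unfold pd
  rw [h4]
  simp

end WMO

open WMO

theorem pEXM : S_EXM := by
  intro δ hδ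
  let b : ContDiffBump (0 : E) := ⟨δ / 2, δ, by positivity, by linarith⟩
  refine ⟨b.normed volume, b.contDiff_normed, fun y => b.nonneg_normed y, ?_, b.integral_normed⟩
  intro y hy
  by_contra hne
  have h1 : y ∈ Function.support (b.normed volume) := hne
  rw [b.support_normed_eq, mem_ball_zero_iff] at h1
  have h2 : ‖y‖ < δ := h1
  linarith

theorem pWMO : S_WMO := by
  intro η δ hδ hη
  refine ⟨?_, ?_, ?_⟩
  · intro h hh
    rw [moll_eq]
    exact (cs hη).contDiff_convolution_right L (hh.locallyIntegrable (by norm_num)) hη.smooth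
  · intro h hh x hx
    constructor
    · unfold moll
      have : (fun y => (η (x - y) : ℂ) * h y) = fun _ => 0 := by
        funext y
        rcases le_or_gt ‖x - y‖ δ with h1 | h1
        · rw [hx y h1, mul_zero]
        · rw [hη.supp _ h1.le]; simp
      rw [this, integral_zero]
    · intro i
      rw [pd_moll hη (hh.locallyIntegrable (by norm_num))]
      have : (fun y => ((pd i η (x - y) : ℝ) : ℂ) * h y) = fun _ => 0 := by
        funext y
        rcases le_or_gt ‖x - y‖ δ with h1 | h1
        · rw [hx y h1, mul_zero]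
        · rw [pd_zero hη i h1]; simp
      rw [this, integral_zero]
  · intro U f g hf hw x hx i j
    have hfl : ∀ i, LocallyIntegrable (f i) (volume : Measure E) := fun i =>
      (hf i).locallyIntegrable (by norm_num)
    set φ : E → ℝ := fun y => η (x - y) with hφ
    have hφs : ContDiff ℝ ∞ φ := hη.smooth.comp (contDiff_const.sub contDiff_id)
    have hφsup : ∀ y, δ < ‖x - y‖ → φ y = 0 := fun y hy => hη.supp _ hy.le
    have hcl : tsupport φ ⊆ {y | ‖x - y‖ ≤ δ} := by
      apply closure_minimal
      · intro y hy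
        by_contra hne
        exact hy (hφsup y (lt_of_not_ge hne))
      · exact isClosed_le (by fun_prop) continuous_const
    have hφc : HasCompactSupport φ := by
      refine HasCompactSupport.intro (isCompact_closedBall x δ) (fun y hy => ?_)
      rw [Metric.mem_closedBall, not_le, dist_comm, dist_eq_norm] at hy
      exact hφsup y hy
    have key := hw i j φ hφs hφc (fun y hy => hx y (hcl hy))
    rw [pd_moll hη (hfl j), pd_moll hη (hfl i)]
    have e : ∀ a b : Fin 4, ∫ y, ((pd a φ y : ℝ) : ℂ) * f b y =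
        -∫ y, ((pd a η (x - y) : ℝ) : ℂ) * f b y := by
      intro a b
      rw [← integral_neg]
      congr 1
      funext y
      rw [hφ, pd_shift hη.smooth]
      push_cast
      ring
    rw [e i j, e j i, neg_neg] at key
    unfold moll
    rw [sub_eq_add_neg]
    exact key.symm

end Pool.Agent.R435.HT
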