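import Pool.Agent.R435.HT.Defs

open MeasureTheory Set Filter Topology
open scoped ContDiff ENNReal

namespace Pool.Agent.R435.HT

namespace WSC

/-- the diagonal map -/
noncomputable def T (c : Fin 4 → ℝ) (hc : ∀ i, 0 < c i) : E ≃L[ℝ] E :=
  (LinearEquiv.piCongrRight (fun i => LinearEquiv.smulOfNeZero ℝ ℝ (c i) (hc i).ne')).toContinuousLinearEquiv

theorem T_apply (c : Fin 4 → ℝ) (hc : ∀ i, 0 < c i) (x : E) : T c hc x = fun i => c i * x i := by
  funext i
  rfl

theorem T_single (c : Fin 4 → ℝ) (hc : ∀ i, 0 < c i) (i : Fin 4) :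
    T c hc (Pi.single i 1) = c i • (Pi.single i 1 : E) := by
  rw [T_apply]
  funext j
  by_cases h : j = i
  · subst h; simp
  · simp [h]

theorem pd_comp (c : Fin 4 → ℝ) (hc : ∀ i, 0 < c i) (ψ : E → ℝ) (i : Fin 4) (x : E) :
    pd i (fun x => ψ (T c hc x)) x = c i * pd i ψ (T c hc x) := by
  unfold pd
  have h := (T c hc).comp_right_fderiv (f := ψ) (x := x)
  have h2 : fderiv ℝ (fun x => ψ (T c hc x)) x = (fderiv ℝ ψ (T c hc x)).comp (T c hc : E →L[ℝ] E) := h
  rw [h2, ContinuousLinearMap.comp_apply]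
  show (fderiv ℝ ψ (T c hc x)) (T c hc (Pi.single i 1)) = _
  rw [T_single, map_smul, smul_eq_mul]

theorem int_comp (c : Fin 4 → ℝ) (hc : ∀ i, 0 < c i) : ∃ k : ℝ, ∀ F : E → ℂ,
    ∫ x, F (T c hc x) = (k : ℂ) * ∫ x, F x := by
  have hdet : LinearMap.det ((T c hc : E →L[ℝ] E) : E →ₗ[ℝ] E) ≠ 0 := by
    have := LinearEquiv.isUnit_det' (T c hc).toLinearEquiv
    exact this.ne_zero
  have hmap := Measure.map_linearMap_addHaar_eq_smul_addHaar (volume : Measure E) hdet
  refine ⟨(ENNReal.ofReal |(LinearMap.det ((T c hc : E →L[ℝ] E) : E →ₗ[ℝ] E))⁻¹|).toReal, ?_⟩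
  intro F
  have hemb : MeasurableEmbedding (T c hc) := (T c hc).toHomeomorph.measurableEmbedding
  have h1 := hemb.integral_map (μ := volume) F
  rw [← h1]
  have h2 : Measure.map (T c hc) (volume : Measure E) =
      ENNReal.ofReal |(LinearMap.det ((T c hc : E →L[ℝ] E) : E →ₗ[ℝ] E))⁻¹| • volume := hmap
  rw [h2, integral_smul_measure, Complex.real_smul]

end WSC

open WSC in
theorem pWSC : S_WSC := by
  intro U f g c hc h i j φ hφ hcs hsub
  set ψ : E → ℝ := fun y => φ ((T c hc).symm y) with hψ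
  have hφψ : φ = fun x => ψ (T c hc x) := by
    funext x
    simp [hψ]
  have hψs : ContDiff ℝ ∞ ψ := hφ.comp (T c hc).symm.contDiff
  have hψc : HasCompactSupport ψ := hcs.comp_homeomorph (T c hc).symm.toHomeomorph
  have hψt : tsupport ψ ⊆ U := by
    have h1 : tsupport ψ = (T c hc).symm ⁻¹' tsupport φ :=
      tsupport_comp_eq_preimage φ (T c hc).symm.toHomeomorph
    intro y hy
    rw [h1] at hy
    have h2 := hsub hy
    have h3 : (fun i => c i * ((T c hc).symm y) i) ∈ U := h2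
    rw [← T_apply c hc] at h3
    simpa using h3
  have key := h i j ψ hψs hψc hψt
  obtain ⟨k, hk⟩ := int_comp c hc
  have e1 : ∫ x, (φ x : ℂ) * (((c i * c j : ℝ) : ℂ) * g i j (fun i => c i * x i)) =
      (c i * c j : ℝ) * (k * ∫ x, (ψ x : ℂ) * g i j x) := by
    rw [← hk (fun x => (ψ x : ℂ) * g i j x), ← integral_const_mul]
    congr 1
    funext x
    rw [T_apply, hφψ]
    simp only [T_apply]
    ring
  have e2 : ∀ a b : Fin 4, ∫ x, ((pd a φ x : ℝ) : ℂ) * ((c b : ℂ) * f b (fun i => c i * x i)) =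
      (c a * c b : ℝ) * (k * ∫ x, ((pd a ψ x : ℝ) : ℂ) * f b x) := by
    intro a b
    rw [← hk (fun x => ((pd a ψ x : ℝ) : ℂ) * f b x), ← integral_const_mul]
    congr 1
    funext x
    have : pd a φ x = c a * pd a ψ (T c hc x) := by
      rw [hφψ]; exact pd_comp c hc ψ a x
    rw [this, T_apply]
    push_cast
    ring
  show ∫ x, (φ x : ℂ) * (((c i * c j : ℝ) : ℂ) * g i j (fun i => c i * x i)) =
    -(∫ x, ((pd i φ x : ℝ) : ℂ) * ((c j : ℂ) * f j (fun i => c i * x i))) +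
      ∫ x, ((pd j φ x : ℝ) : ℂ) * ((c i : ℂ) * f i (fun i => c i * x i))
  rw [e1, e2, e2, key, mul_comm (c j) (c i)]
  ring

end Pool.Agent.R435.HT
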